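import Pool.Agent.H45.EG3.S3

/-!
# EG3: the case of full length, the induction of Caviglia and Maclagan, the theorem
-/

set_option autoImplicit false

namespace Pool.EG3

open MvPolynomial Pool.EGH
open Pool.EGC (lx sl cj Gs)

theorem bim_hf_top {K : Type} [Field K] {N : ℕ} (i : ℕ) : hf (⊤ : Ideal (PR K N)) i = 0 := by
  unfold hf
  have : ((⊤ : Ideal (PR K N)).restrictScalars K ⊓ fm K N i) = fm K N i := by
    ext x
    simp
  rw [this, Nat.sub_self]

theorem bim_up_empty {m : ℕ} (c : Fin m → ℕ∞) (d : ℕ) : up c d ∅ = ∅ := by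
  unfold up
  simp

/-- BAS. -/
theorem t_bas (hTR1 : Pool.EGC.TR1Stmt) (hTRM : TRMStmt) (hTR3 : Pool.EGC.TR3Stmt)
    (hFC3 : FC3Stmt) (hQHF : QHFStmt) (hSGE : SGEStmt) (hSUP : SUPStmt) (hGRO : GROStmt)
    (hRT3 : RT3Stmt) (hMON : MONStmt) : BASStmt := by
  intro K _ _ N k a b c J I hkN ha hab hbc hJ hJI hI
  obtain ⟨J0, hJ0, hJ0J, hmap⟩ := hTRM K N k 3 [c, b, a] J hJ
  obtain ⟨π, hπ, hker⟩ := hTR1 K N k 3 J0 hJ0 hkN
  have hQ : MC 0 [c, b, a] (J.map π) := hmap π hπ hker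
  obtain ⟨hHg', hhf⟩ := hTR3 K N 3 π I hπ (by rw [hker]; exact hJ0J.trans hJI) hI
  have hQI : J.map π ≤ I.map π := Ideal.map_mono hJI
  obtain ⟨f, g, h, hT, hfJ, hgJ, hhJ⟩ := hRT3 K a b c (J.map π) ha hab hbc hQ
  have hgro : ∀ d, ls b c (d + 1) (hf I (d + 1)) ≤ hf I d := by
    intro d
    have := hGRO K a b c f g h hT d (I.map π) hHg' (hQI hfJ) (hQI hgJ) (hQI hhJ)
    rwa [hhf, hhf] at this
  have hle : ∀ d, hf I d ≤ (Mo (cp a b c 3) d).card := by
    intro d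
    rw [← hhf, ← hQHF K a b c (J.map π) hQ d]
    exact (hMON K 3 (J.map π) (I.map π) d hQI).1
  have hA : ∀ d, ∃ A, Sg (cp a b c 3) d A ∧ A.card = (Mo (cp a b c 3) d).card - hf I d := by
    intro d
    exact (hSGE 3 (cp a b c 3) d).1 _ (Nat.sub_le _ _)
  choose A hA1 hA2 using hA
  refine ⟨A, hA1, ?_, ?_⟩
  · intro d
    have hup := hSUP 3 (cp a b c 3) d (A d) (hA1 d)
    apply (hSGE 3 (cp a b c 3) (d + 1)).2 _ _ hup (hA1 (d + 1))
    rw [hA2]
    have h1 := hFC3 a b c d (hf I (d + 1)) (A d) hbc (hA1 d) (hle (d + 1)) (by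
      rw [hA2]
      have := hle d
      have := hgro d
      omega)
    omega
  · intro d
    rw [hA2]
    have := hle d
    omega

/-- IND. -/
theorem t_ind (hBAS : BASStmt) (hSTP : STPStmt) (hHFS : Pool.EGC.HFSStmt) (hPNM : PNMStmt)
    (hRLF : RLFStmt) (hPEM : PEMStmt) (hHGM : HGMStmt) : INDStmt := by
  intro K _ _ N k m a b c J I hkm hm ha hab hbc
  have hinf : Infinite K := IsAlgClosed.instInfinite
  obtain ⟨t, rfl⟩ : ∃ t, m = 3 + t := ⟨m - 3, by omega⟩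
  clear hm
  induction t generalizing k J I with
  | zero =>
    intro hJ hJI hI
    exact hBAS K N k a b c J I hkm ha hab hbc hJ hJI hI
  | succ t ih =>
    intro hJ hJI hI
    have hJg : Hg J := hHGM K N k [c, b, a] J hJ
    obtain ⟨l, hl, hreg⟩ := hRLF K N J hJg (hPNM K N k [c, b, a] J hJ (by
      simp only [List.length_cons, List.length_nil]
      omega))
    have hJ' := hPEM K N k [c, b, a] J l hJ hl hreg
    obtain ⟨h1, -⟩ := hHFS K N I l hI hl
    refine hSTP K N (3 + t) a b c I l (by omega) ha hab hbc hI hl ?_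
    intro j
    obtain ⟨h2, h3, -⟩ := h1 j
    exact ih (k + 1) (J ⊔ Ideal.span {l}) (cj I l j ⊔ Ideal.span {l}) (by omega) hJ'
      (sup_le_sup_right (hJI.trans h3) _) h2

/-- MAIN. -/
theorem t_main (hIND : INDStmt) (hLEX : LEXStmt) (hBAM : BAMStmt) (hRGM : RGMStmt) :
    MainStmt := by
  intro K _ n hr I f a hI hmono ha2 hfa hfI hreg
  have hlist : List.ofFn f = [f 0, f 1, f 2] := by
    simp [List.ofFn_succ]
  have hF : List.Forall₂ (fun (g : MvPolynomial (Fin n) K) (d : ℕ) => g.IsHomogeneous d ∧ g ∈ I)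
      (List.ofFn f) [a 0, a 1, a 2] := by
    rw [hlist]
    exact List.Forall₂.cons ⟨hfa 0, hfI 0⟩ (List.Forall₂.cons ⟨hfa 1, hfI 1⟩
      (List.Forall₂.cons ⟨hfa 2, hfI 2⟩ List.Forall₂.nil))
  obtain ⟨I', rs', hHg', h', hreg', hhf⟩ :=
    hBAM K n I (List.ofFn f) [a 0, a 1, a 2] hI hF hreg.toIsWeaklyRegular
  have h'' : List.Forall₂ (fun (g : PR (AlgebraicClosure K) n) (d : ℕ) =>
      1 ≤ d ∧ g.IsHomogeneous d) rs' [a 0, a 1, a 2] := by
    have h2 := ha2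
    rcases rs' with _ | ⟨g0, _ | ⟨g1, _ | ⟨g2, _ | ⟨g3, rs⟩⟩⟩⟩
    · simp at h'
    · simp at h'
    · simp at h'
    · simp only [List.forall₂_cons, List.Forall₂.nil, and_true] at h' ⊢
      exact ⟨⟨by have := ha2 0; omega, h'.1.1⟩, ⟨by have := ha2 1; omega, h'.2.1.1⟩,
        ⟨by have := ha2 2; omega, h'.2.2.1⟩⟩
    · simp at h'
  have hM := hRGM (AlgebraicClosure K) n rs' [a 0, a 1, a 2] h'' hreg'
  have hle : Ideal.ofList rs' ≤ I' := by
    unfold Ideal.ofList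
    rw [Ideal.span_le]
    intro g hg
    rcases rs' with _ | ⟨g0, _ | ⟨g1, _ | ⟨g2, _ | ⟨g3, rs⟩⟩⟩⟩
    · simp at h'
    · simp at h'
    · simp at h'
    · simp only [List.forall₂_cons, List.Forall₂.nil, and_true] at h'
      simp only [List.mem_cons, List.not_mem_nil, or_false, Set.mem_setOf_eq] at hg
      rcases hg with rfl | rfl | rfl
      · exact h'.1.2
      · exact h'.2.1.2
      · exact h'.2.2.2
    · simp at h'
  obtain ⟨A, hA1, hA2, hA3⟩ := hIND (AlgebraicClosure K) n 0 n (a 0) (a 1) (a 2)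
    (Ideal.ofList rs') I' (zero_add n) hr.le (ha2 0) (hmono (by decide)) (hmono (by decide))
    hM hle hHg'
  exact hLEX K n hr a I ha2 ⟨A, hA1, hA2, fun d => by rw [← hhf]; exact hA3 d⟩

end Pool.EG3
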