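import Pool.Agent.H45.EG3.S3

/-!
# EG3, module CLT: the theorem of Clements and Lindström, induction
-/

set_option autoImplicit false

namespace Pool.EG3

theorem t_clt (h3 : CL3Stmt) (hs : CLSStmt) : CLTStmt := by
  intro m
  induction m with
  | zero => exact h3
  | succ m ih => exact hs m ih

end Pool.EG3
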