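import Pool.Agent.H45.EG3.S1

/-!
# EG3, rows EV1, EV2, WNG: pencils of linear maps
-/

set_option autoImplicit false

namespace Pool.EG3

open MvPolynomial Pool.EGH

/-- EV1. -/
theorem t_ev1 : EV1Stmt := by
  intro K _ _ E F _ _ _ _ _ _ S T hle hE
  by_cases hS : Function.Injective S
  · have heq : Module.finrank K E = Module.finrank K F :=
      le_antisymm (LinearMap.finrank_le_finrank_of_injective hS) hle
    let e : E ≃ₗ[K] F := LinearEquiv.ofInjectiveOfFinrankEq S hS heq
    have he : ∀ v, e v = S v := fun v => rfl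
    have hnt : Nontrivial E := Module.nontrivial_of_finrank_pos (R := K) (by omega)
    obtain ⟨μ, hμ⟩ := Module.End.exists_eigenvalue (e.symm.toLinearMap ∘ₗ T : Module.End K E)
    obtain ⟨v, hv⟩ := hμ.exists_hasEigenvector
    refine ⟨-μ, 1, Or.inr one_ne_zero, v, hv.2, ?_⟩
    have h1 := hv.apply_eq_smul
    have h2 : T v = μ • S v := by
      have h3 : e (e.symm (T v)) = e (μ • v) := congrArg e h1
      rw [e.apply_symm_apply, map_smul, he] at h3
      exact h3
    rw [h2, one_smul, neg_smul]
    exact neg_add_cancel _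
  · obtain ⟨v, hv, hv0⟩ : ∃ v, S v = 0 ∧ v ≠ 0 := by
      by_contra hcon
      push Not at hcon
      exact hS ((injective_iff_map_eq_zero S).2 hcon)
    exact ⟨1, 0, Or.inl one_ne_zero, v, hv0, by rw [hv, smul_zero, zero_smul, add_zero]⟩

/-- EV2. -/
theorem t_ev2 : EV2Stmt := by
  intro K _ _ E F _ _ _ _ _ _ S T hle hF
  by_cases hS : Function.Surjective S
  · have heq : Module.finrank K E = Module.finrank K F :=
      le_antisymm hle (LinearMap.finrank_le_finrank_of_surjective hS)
    have hinj : Function.Injective S :=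
      (LinearMap.injective_iff_surjective_of_finrank_eq_finrank heq).2 hS
    let e : E ≃ₗ[K] F := LinearEquiv.ofInjectiveOfFinrankEq S hinj heq
    have he : ∀ v, e v = S v := fun v => rfl
    have hnt : Nontrivial F := Module.nontrivial_of_finrank_pos (R := K) (by omega)
    obtain ⟨μ, hμ⟩ := Module.End.exists_eigenvalue (T ∘ₗ e.symm.toLinearMap : Module.End K F)
    obtain ⟨w, hw⟩ := hμ.exists_hasEigenvector
    refine ⟨-μ, 1, Or.inr one_ne_zero, ?_⟩
    have h1 : ¬ Function.Surjective ((T ∘ₗ e.symm.toLinearMap : Module.End K F) -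
        μ • (1 : Module.End K F)) := by
      intro hs
      have hi := (LinearMap.injective_iff_surjective).2 hs
      apply hw.2
      apply hi
      rw [map_zero, LinearMap.sub_apply, hw.apply_eq_smul]
      simp
    rw [Function.Surjective] at h1
    push Not at h1
    obtain ⟨b, hb⟩ := h1
    refine ⟨b, fun v hv => hb (e v) ?_⟩
    rw [← hv]
    have h3 : e.symm (S v) = v := e.symm_apply_apply v
    simp only [LinearMap.sub_apply, LinearMap.comp_apply, LinearEquiv.coe_coe,
      LinearMap.smul_apply, Module.End.one_apply, he, h3]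
    rw [neg_smul, one_smul]
    abel
  · rw [Function.Surjective] at hS
    push Not at hS
    obtain ⟨b, hb⟩ := hS
    exact ⟨1, 0, Or.inl one_ne_zero, b, fun v => by
      rw [one_smul, zero_smul, add_zero]
      exact hb v⟩

/-- The Wong sequence. -/
def wsq {K : Type} [Field K] {E F : Type} [AddCommGroup E] [Module K E] [AddCommGroup F]
    [Module K F] (S T : E →ₗ[K] F) : ℕ → Submodule K E
  | 0 => ⊥
  | n + 1 => ((wsq S T n).map T).comap S

theorem wsq_mono {K : Type} [Field K] {E F : Type} [AddCommGroup E] [Module K E]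
    [AddCommGroup F] [Module K F] (S T : E →ₗ[K] F) : Monotone (wsq S T) := by
  apply monotone_nat_of_le_succ
  intro n
  induction n with
  | zero => exact bot_le
  | succ n ih => exact Submodule.comap_mono (Submodule.map_mono ih)

/-- WNG. -/
theorem t_wng : WNGStmt := by
  classical
  intro K _ _ E F _ _ _ _ _ _ S T hsing
  obtain ⟨n, hn⟩ := monotone_stabilizes_iff_noetherian.2
    (inferInstance : IsNoetherian K E) ⟨wsq S T, wsq_mono S T⟩
  have hV : wsq S T n = ((wsq S T n).map T).comap S := hn (n + 1) (Nat.le_succ n)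
  set V := wsq S T n with hVdef
  have hSV : ∀ v ∈ V, S v ∈ V.map T := by
    intro v hv
    rw [hV] at hv
    exact hv
  have hSV' : ∀ v, S v ∈ V.map T → v ∈ V := by
    intro v hv
    rw [hV]
    exact hv
  by_cases hker : ∃ w ∈ V, w ≠ 0 ∧ T w = 0
  · obtain ⟨w, hw, hw0, hTw⟩ := hker
    refine ⟨V, ?_⟩
    have h1 : V.map S ⊔ V.map T = V.map T := by
      refine sup_eq_right.2 ?_
      rintro _ ⟨v, hv, rfl⟩
      exact hSV v hv
    rw [h1]
    have h2 := LinearMap.finrank_range_add_finrank_ker (T.domRestrict V)
    have h3 : LinearMap.range (T.domRestrict V) = V.map T := by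
      ext x
      simp [LinearMap.domRestrict_apply]
    rw [h3] at h2
    have h4 : 0 < Module.finrank K ↥(LinearMap.ker (T.domRestrict V)) := by
      rw [Module.finrank_pos_iff_exists_ne_zero]
      refine ⟨⟨⟨w, hw⟩, ?_⟩, ?_⟩
      · rw [LinearMap.mem_ker, LinearMap.domRestrict_apply]
        exact hTw
      · intro h
        apply hw0
        have := congrArg (fun x => ((x : V) : E)) (congrArg Subtype.val h)
        exact this
    omega
  · exfalso
    push Not at hker
    -- the quotient pencil
    have hS' : V ≤ (V.map T).comap S := fun v hv => hSV v hv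
    have hT' : V ≤ (V.map T).comap T := fun v hv => ⟨v, hv, rfl⟩
    set Sb : (E ⧸ V) →ₗ[K] (F ⧸ V.map T) := V.mapQ (V.map T) S hS' with hSb
    set Tb : (E ⧸ V) →ₗ[K] (F ⧸ V.map T) := V.mapQ (V.map T) T hT' with hTb
    have hinj : LinearMap.ker Sb = ⊥ := by
      rw [eq_bot_iff]
      intro x hx
      obtain ⟨v, rfl⟩ := Submodule.Quotient.mk_surjective V x
      rw [LinearMap.mem_ker, hSb, Submodule.mapQ_apply, Submodule.Quotient.mk_eq_zero] at hx
      rw [Submodule.mem_bot, Submodule.Quotient.mk_eq_zero]
      exact hSV' v hx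
    obtain ⟨g, hg⟩ := Sb.exists_leftInverse_of_injective hinj
    have hfin : (spectrum K ((g ∘ₗ Tb : Module.End K (E ⧸ V)))).Finite :=
      Module.End.finite_spectrum _
    obtain ⟨μ, hμ⟩ := (hfin.union (Set.finite_singleton (0 : K))).infinite_compl.nonempty
    rw [Set.mem_compl_iff, Set.mem_union, not_or, Set.mem_singleton_iff] at hμ
    obtain ⟨hμ1, hμ0⟩ := hμ
    obtain ⟨v, hv0, hv⟩ := hsing μ (-1) (Or.inl hμ0)
    -- the image in the quotient vanishes
    have h1 : μ • Sb (Submodule.Quotient.mk v) - Tb (Submodule.Quotient.mk v) = 0 := by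
      rw [hSb, hTb, Submodule.mapQ_apply, Submodule.mapQ_apply, ← Submodule.Quotient.mk_smul,
        ← Submodule.Quotient.mk_sub, Submodule.Quotient.mk_eq_zero]
      have : μ • S v - T v = 0 := by
        rw [← hv]
        rw [neg_smul, one_smul]
        abel
      rw [this]
      exact zero_mem _
    have h2 : (g ∘ₗ Tb : Module.End K (E ⧸ V)) (Submodule.Quotient.mk v) =
        μ • (Submodule.Quotient.mk v : E ⧸ V) := by
      have h3 := congrArg g h1
      rw [map_sub, map_smul, map_zero] at h3
      have h4 : g (Sb (Submodule.Quotient.mk v)) = (Submodule.Quotient.mk v : E ⧸ V) :=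
        LinearMap.congr_fun hg _
      rw [h4] at h3
      rw [LinearMap.comp_apply]
      exact (sub_eq_zero.1 h3).symm
    have h3 : (Submodule.Quotient.mk v : E ⧸ V) = 0 := by
      by_contra hne
      apply hμ1
      rw [← Module.End.hasEigenvalue_iff_mem_spectrum]
      exact Module.End.hasEigenvalue_of_hasEigenvector
        ⟨Module.End.mem_eigenspace_iff.2 h2, hne⟩
    rw [Submodule.Quotient.mk_eq_zero] at h3
    -- descent
    have h4 : ∀ k, ∀ w ∈ wsq S T k, wsq S T k ≤ V → μ • S w = T w → w = 0 := by
      intro k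
      induction k with
      | zero =>
        intro w hw _ _
        exact hw
      | succ k ih =>
        intro w hw hle hwe
        obtain ⟨u, hu, hTu⟩ := hw
        have hkV : wsq S T k ≤ V := (wsq_mono S T (Nat.le_succ k)).trans hle
        have h5 : T (w - μ • u) = 0 := by
          rw [map_sub, map_smul, hTu, hwe, sub_self]
        have h6 : w - μ • u = 0 := by
          by_contra hne
          exact hker _ (V.sub_mem (hle ⟨u, hu, hTu⟩) (V.smul_mem _ (hkV hu))) hne h5
        have h7 : w = μ • u := sub_eq_zero.1 h6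
        have h8 : w ∈ wsq S T k := by
          rw [h7]
          exact Submodule.smul_mem _ _ hu
        exact ih w h8 hkV hwe
    apply hv0
    refine h4 n v h3 le_rfl ?_
    have : μ • S v - T v = 0 := by
      rw [← hv]
      rw [neg_smul, one_smul]
      abel
    exact sub_eq_zero.1 this

end Pool.EG3
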