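import Pool.Agent.H45.EG3.S3

/-!
# EG3, row EX2: the exchange
-/

set_option autoImplicit false

namespace Pool.EG3

open Finset
open Pool.EGC (lx sl cj Gs)

theorem ex45_mo {m : ℕ} {c : Fin m → ℕ∞} {d : ℕ} {x : Fin m → ℕ} :
    x ∈ Mo c d ↔ ∑ i, x i = d ∧ ∀ i, (x i : ℕ∞) < c i := by
  classical
  unfold Mo
  rw [Finset.mem_filter, Finset.mem_piAntidiag]
  constructor
  · rintro ⟨⟨h, _⟩, h2⟩
    exact ⟨h, h2⟩
  · rintro ⟨h, h2⟩
    exact ⟨⟨h, fun i _ => Finset.mem_univ i⟩, h2⟩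

theorem ex45_up {m : ℕ} {c : Fin m → ℕ∞} {d : ℕ} {A : Finset (Fin m → ℕ)}
    {y : Fin m → ℕ} :
    y ∈ up c d A ↔ y ∈ Mo c (d + 1) ∧ ∃ x ∈ A, ∃ i, y = x + Pi.single i 1 := by
  classical
  unfold up
  rw [Finset.mem_filter]

/-- The sum after adding a unit. -/
theorem ex45_sum {m : ℕ} (x : Fin m → ℕ) (i : Fin m) :
    ∑ j, (x + Pi.single i 1 : Fin m → ℕ) j = ∑ j, x j + 1 := by
  simp only [Pi.add_apply, Finset.sum_add_distrib, Finset.sum_pi_single', Finset.mem_univ,
    if_true]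

theorem ex45_irr {m : ℕ} (x : Fin m → ℕ) : ¬ lx x x := by
  rintro ⟨i, _, h⟩
  exact lt_irrefl _ h

theorem ex45_tr {m : ℕ} {x y z : Fin m → ℕ} (h1 : lx x y) (h2 : lx y z) : lx x z := by
  obtain ⟨i, hi, hi2⟩ := h1
  obtain ⟨j, hj, hj2⟩ := h2
  rcases lt_trichotomy i j with h | h | h
  · exact ⟨i, fun k hk => (hi k hk).trans (hj k (hk.trans h)), by rw [← hj i h]; exact hi2⟩
  · subst h
    exact ⟨i, fun k hk => (hi k hk).trans (hj k hk), hi2.trans hj2⟩
  · exact ⟨j, fun k hk => (hi k (hk.trans h)).trans (hj k hk), by rw [hi j h]; exact hj2⟩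

theorem ex45_add {m : ℕ} {x y : Fin m → ℕ} (z : Fin m → ℕ) (h : lx x y) :
    lx (x + z) (y + z) := by
  obtain ⟨i, hi, hi2⟩ := h
  exact ⟨i, fun k hk => by simp only [Pi.add_apply, hi k hk], by
    simp only [Pi.add_apply]; omega⟩

theorem ex45_unit {m : ℕ} (x : Fin m → ℕ) {i j : Fin m} (h : i < j) :
    lx (x + Pi.single j 1) (x + Pi.single i 1) := by
  refine ⟨i, fun k hk => ?_, ?_⟩
  · have h1 : k ≠ j := (hk.trans h).ne
    have h2 : k ≠ i := hk.ne
    simp [Pi.add_apply, h1, h2]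
  · have h1 : i ≠ j := h.ne
    simp [Pi.add_apply, h1]

theorem t_ex2 : EX2Stmt := by
  classical
  intro m c d A hA hct b hb hbA hbig a ha hsm hab hbl
  obtain ⟨hbs, hbc⟩ := ex45_mo.1 hb
  obtain ⟨has, hac⟩ := ex45_mo.1 (hA ha)
  have hane : a ≠ b := fun h => hbA (h ▸ ha)
  have hA' : ∀ x ∈ insert b (A.erase a), x ∈ A ∨ x = b := by
    intro x hx
    rcases Finset.mem_insert.1 hx with h | h
    · exact Or.inr h
    · exact Or.inl (Finset.mem_of_mem_erase h)
  have hgt : ∀ x ∈ insert b (A.erase a), lx a x := by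
    intro x hx
    rcases Finset.mem_insert.1 hx with h | h
    · rw [h]; exact hab
    · exact hsm x (Finset.mem_of_mem_erase h) (Finset.ne_of_mem_erase h)
  -- the shadow of `b`
  have hbup : ∀ i, i ≠ Fin.last m → b + Pi.single i 1 ∈ Mo c (d + 1) →
      b + Pi.single i 1 ∈ up c d A := by
    intro i hi hM
    obtain ⟨hM1, hM2⟩ := ex45_mo.1 hM
    have hil : i < Fin.last m := lt_of_le_of_ne (Fin.le_last i) hi
    set z : Fin (m + 1) → ℕ := fun k => (b + Pi.single i 1 : Fin (m + 1) → ℕ) k -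
      (Pi.single (Fin.last m) 1 : Fin (m + 1) → ℕ) k with hz
    have hz1 : b + Pi.single i 1 = z + Pi.single (Fin.last m) 1 := by
      funext k
      by_cases hk : k = Fin.last m
      · subst hk
        simp [hz, Ne.symm hi]
        omega
      · simp [hz, hk]
    have hzM : z ∈ Mo c d := by
      refine ex45_mo.2 ⟨?_, fun k => ?_⟩
      · rw [hz1, ex45_sum] at hM1
        omega
      · have h1 := hM2 k
        have h2 : z k ≤ (b + Pi.single i 1 : Fin (m + 1) → ℕ) k := Nat.sub_le _ _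
        exact lt_of_le_of_lt (by exact_mod_cast h2) h1
    have hbz : lx b z := by
      refine ⟨i, fun k hk => ?_, ?_⟩
      · have h1 : k ≠ i := hk.ne
        have h2 : k ≠ Fin.last m := (hk.trans hil).ne
        simp [hz, h1, h2]
      · simp [hz, hi]
    exact ex45_up.2 ⟨hM, z, hbig z hzM hbz, Fin.last m, hz1⟩
  have haup : a + Pi.single (Fin.last m) 1 ∈ up c d A := by
    refine ex45_up.2 ⟨ex45_mo.2 ⟨by rw [ex45_sum, has], fun k => ?_⟩, a, ha, _, rfl⟩
    by_cases hk2 : k = Fin.last m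
    · rw [hk2, hct]
      exact ENat.natCast_lt_top _
    · simp only [Pi.add_apply, Pi.single_apply, hk2, if_false, add_zero]
      exact hac k
  have hsub : up c d (insert b (A.erase a)) ⊆
      insert (b + Pi.single (Fin.last m) 1) ((up c d A).erase (a + Pi.single (Fin.last m) 1)) := by
    intro y hy
    obtain ⟨hyM, x, hx, i, hxi⟩ := ex45_up.1 hy
    have hya : y ≠ a + Pi.single (Fin.last m) 1 := by
      intro h
      rw [h] at hxi
      have h1 : lx (a + Pi.single i 1) (x + Pi.single i 1) := ex45_add _ (hgt x hx)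
      rw [← hxi] at h1
      by_cases hi : i = Fin.last m
      · rw [hi] at h1
        exact ex45_irr _ h1
      · exact ex45_irr _ (ex45_tr h1 (ex45_unit a (lt_of_le_of_ne (Fin.le_last i) hi)))
    rcases hA' x hx with h | h
    · exact Finset.mem_insert_of_mem (Finset.mem_erase.2 ⟨hya, ex45_up.2 ⟨hyM, x, h, i, hxi⟩⟩)
    · rw [h] at hxi
      by_cases hi : i = Fin.last m
      · rw [hxi, hi]; exact Finset.mem_insert_self _ _
      · refine Finset.mem_insert_of_mem (Finset.mem_erase.2 ⟨hya, ?_⟩)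
        rw [hxi]
        exact hbup i hi (hxi ▸ hyM)
  calc (up c d (insert b (A.erase a))).card ≤ _ := Finset.card_le_card hsub
    _ ≤ ((up c d A).erase (a + Pi.single (Fin.last m) 1)).card + 1 := Finset.card_insert_le _ _
    _ = (up c d A).card := Finset.card_erase_add_one haup

end Pool.EG3
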