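import Pool.Agent.H45.EG3.NPZ

/-!
# EG3, rows HFB, SG0, INI
-/

set_option autoImplicit false

namespace Pool.EG3

open MvPolynomial Pool.EGH

/-- The dimension of the space of forms in three variables. -/
theorem fr3 (hHSB : HSBStmt) (K : Type) [Field K] (i : ℕ) :
    2 * Module.finrank K ↥(fm K 3 i) = (i + 1) * (i + 2) := by
  have h1 := hHSB K 3
  have h2 : PowerSeries.mk (fun n => (Nat.choose (2 + n) 2 : ℤ)) *
      (1 - PowerSeries.X) ^ 3 = 1 := PowerSeries.mk_add_choose_mul_one_sub_pow_eq_one ℤ 2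
  have h3 : PowerSeries.mk (fun i => (Module.finrank K ↥(fm K 3 i) : ℤ)) =
      PowerSeries.mk (fun n => (Nat.choose (2 + n) 2 : ℤ)) := by
    have h4 : ((1 - PowerSeries.X) ^ 3 : PowerSeries ℤ) ≠ 0 := by
      intro h0
      rw [h0, mul_zero] at h1
      exact zero_ne_one h1
    exact mul_right_cancel₀ h4 (h1.trans h2.symm)
  have h5 := congrArg (PowerSeries.coeff i) h3
  rw [PowerSeries.coeff_mk, PowerSeries.coeff_mk] at h5
  have h6 : Module.finrank K ↥(fm K 3 i) = Nat.choose (2 + i) 2 := by exact_mod_cast h5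
  rw [h6, Nat.choose_two_right]
  have h7 : 2 + i - 1 = i + 1 := by omega
  rw [h7]
  have h8 : 2 ∣ (2 + i) * (i + 1) := by
    have := (Nat.even_mul_succ_self (i + 1)).two_dvd
    rw [show (2 + i) * (i + 1) = (i + 1) * (i + 1 + 1) by ring]
    exact this
  rw [Nat.mul_div_cancel' h8]
  ring

theorem hf_le_fr {K : Type} [Field K] {N : ℕ} (J : Ideal (PR K N)) (m : ℕ) :
    hf J m ≤ Module.finrank K ↥(fm K N m) := Nat.sub_le _ _

theorem hf_lt_of_mem {K : Type} [Field K] {N : ℕ} (hFIN : FINStmt) {J : Ideal (PR K N)} {m : ℕ}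
    {F : PR K N} (hFJ : F ∈ J) (hF : F ∈ fm K N m) (hF0 : F ≠ 0) :
    hf J m + 1 ≤ Module.finrank K ↥(fm K N m) := by
  have hfin : Module.Finite K ↥(fm K N m) := hFIN K N m
  have hle : (J.restrictScalars K ⊓ fm K N m) ≤ fm K N m := inf_le_right
  have hfin2 : Module.Finite K ↥(J.restrictScalars K ⊓ fm K N m) :=
    Submodule.finiteDimensional_of_le hle
  have h1 : 0 < Module.finrank K ↥(J.restrictScalars K ⊓ fm K N m) := by
    rw [Module.finrank_pos_iff_exists_ne_zero]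
    refine ⟨⟨F, hFJ, hF⟩, ?_⟩
    intro h
    exact hF0 (congrArg Subtype.val h)
  have h2 := Submodule.finrank_mono hle
  unfold hf
  omega

/-- HFB. -/
theorem t_hfb (hHSB : HSBStmt) (hFIN : FINStmt) : HFBStmt := by
  intro K _ J n i θ _ hni hθ hθ0 hθJ
  have h1 : (X 0 : PR K 3) ^ (i - n) * θ ∈ fm K 3 i := by
    have := mul_mem' (mono_pow (K := K) (N := 3) 0 (i - n)) hθ
    rwa [Nat.sub_add_cancel hni] at this
  have h2 := hf_lt_of_mem hFIN (J := J) (J.mul_mem_left ((X 0 : PR K 3) ^ (i - n)) hθJ) h1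
    (mul_ne_zero (pow_ne_zero _ (X_ne_zero 0)) hθ0)
  have h3 := fr3 hHSB K i
  omega

/-- A form of degree zero is constant. -/
theorem fm0_eq {K : Type} [Field K] {N : ℕ} {F : PR K N} (hF : F ∈ fm K N 0) :
    F = C (coeff 0 F) := by
  rw [mem_homogeneousSubmodule] at hF
  exact (totalDegree_eq_zero_iff_eq_C).1 (by
    have := hF.totalDegree_le
    omega)

/-- SG0. -/
theorem t_sg0 (hHSB : HSBStmt) (hFIN : FINStmt) : SG0Stmt := by
  intro K _ J F hJ hFJ hF hF0
  by_cases h1 : (1 : PR K 3) ∈ J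
  · rw [t_hfz K 3 J 1 h1]
    exact Nat.zero_le _
  · have h2 := hf_lt_of_mem hFIN hFJ hF hF0
    have h3 := fr3 hHSB K 1
    have h4 : hf J 0 ≠ 0 := by
      intro h0
      rw [hf_eq_zero_iff hFIN] at h0
      exact h1 (h0 1 (isHomogeneous_one _ _))
    omega

/-- INI. -/
theorem t_ini (hHSB : HSBStmt) : INIStmt := by
  classical
  intro K _ J t a f hJ hfJ hfa hf0 ha h1
  have hex : ∃ u, ∃ F ∈ J, F ∈ fm K 3 u ∧ F ≠ 0 := ⟨a, f, hfJ, hfa, hf0⟩
  refine ⟨Nat.find hex, ?_, Nat.find_min' hex ⟨f, hfJ, hfa, hf0⟩, ?_, ?_⟩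
  · rw [Nat.one_le_iff_ne_zero]
    intro h0
    obtain ⟨F, hFJ, hF, hF0⟩ := Nat.find_spec hex
    rw [h0] at hF
    have h2 := fm0_eq hF
    have h3 : coeff 0 F ≠ 0 := by
      intro h4
      rw [h4, C_0] at h2
      exact hF0 h2
    apply h1
    have h4 : (1 : PR K 3) = C (coeff 0 F)⁻¹ * F := by
      conv_rhs => rw [h2]
      rw [coeff_C, if_pos rfl, ← C_mul, inv_mul_cancel₀ h3, C_1]
    rw [h4]
    exact J.mul_mem_left _ hFJ
  · intro u hu
    have h2 : (J.restrictScalars K ⊓ fm K 3 u) = ⊥ := by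
      rw [eq_bot_iff]
      intro F hF
      rw [Submodule.mem_bot]
      by_contra hF0
      exact Nat.find_min hex hu ⟨F, hF.1, hF.2, hF0⟩
    have h3 : hf J u = Module.finrank K ↥(fm K 3 u) := by
      rw [Pool.EGH.hf, h2, finrank_bot, Nat.sub_zero]
    rw [h3, fr3 hHSB K u]
  · intro u hu _
    obtain ⟨F, hFJ, hF, hF0⟩ := Nat.find_spec hex
    refine ⟨(X 0 : PR K 3) ^ (u - Nat.find hex) * F, J.mul_mem_left _ hFJ, ?_,
      mul_ne_zero (pow_ne_zero _ (X_ne_zero 0)) hF0⟩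
    have := mul_mem' (mono_pow (K := K) (N := 3) 0 (u - Nat.find hex)) hF
    rwa [Nat.sub_add_cancel hu] at this

end Pool.EG3
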