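import Pool.Agent.H45.EG3.S3
import Pool.Agent.H29.EGH.HSR

/-!
# EG3, rows HGM, HSM
-/

set_option autoImplicit false

namespace Pool.EG3

open MvPolynomial Pool.EGH

/-- HGM. -/
theorem t_hgm45 (hHGA : HGAStmt) : HGMStmt := by
  intro K _ N k L J hJ
  induction hJ with
  | zero => exact (hHGA K N).1
  | lin _ hl _ ih => exact ((hHGA K N).2.1 _ 1 _ ih hl).1
  | form _ _ hq _ ih => exact ((hHGA K N).2.1 _ _ _ ih hq).1

/-- HSM. -/
theorem t_hsm (hCOL : COLStmt) (hHSB : HSBStmt) (hHGM : HGMStmt) : HSMStmt := by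
  intro K _ N k L J h
  induction h with
  | zero =>
    simp only [HSR.hf_bot]
    rw [hHSB K N, pow_zero, List.map_nil, List.prod_nil, mul_one]
  | lin hJ hl hr ih =>
    rw [HSR.step hCOL (hHGM K N _ _ _ hJ) hl hr, pow_one, mul_right_comm, ih]
    rw [List.map_nil, List.prod_nil]
    ring
  | form hJ _ hq hr ih =>
    rw [HSR.step hCOL (hHGM K N _ _ _ hJ) hq hr, mul_right_comm, ih, List.map_cons,
      List.prod_cons]
    ring

end Pool.EG3
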