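import Pool.Agent.H45.EG3.PTI

/-!
# EG3, rows NPZ, BPT, HFZ, LN0, NVP, T3M
-/

set_option autoImplicit false

namespace Pool.EG3

open MvPolynomial Pool.EGH

/-- NPZ. -/
theorem t_npz : NPZStmt := by
  intro K _ J t hLv q hq u v huv hvt hv
  obtain ⟨j, hj⟩ : ∃ j, q j ≠ 0 := Function.ne_iff.1 hq
  -- one step
  have hstep : ∀ w, w + 1 ≤ t → NPq J (w + 1) q → NPq J w q := by
    intro w hw hn F hF hFk
    have h1 : X j * F ∈ J := by
      apply hn (X j * F)
      · rw [add_comm]
        exact mul_mem' (X_mem1 j) hF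
      · intro l hl hlq
        rw [mul_left_comm]
        exact J.mul_mem_left _ (hFk l hl hlq)
    refine hLv w (by omega) F hF fun l hl => ?_
    have h2 : (l - C (eval q l * (q j)⁻¹) * X j) * F ∈ J := by
      refine hFk _ (Submodule.sub_mem _ hl (C_mul_mem (X_mem1 j) _)) ?_
      simp [hj]
    have h3 : l * F = (l - C (eval q l * (q j)⁻¹) * X j) * F +
        C (eval q l * (q j)⁻¹) * (X j * F) := by ring
    rw [h3]
    exact J.add_mem h2 (J.mul_mem_left _ h1)
  obtain ⟨d, rfl⟩ : ∃ d, v = u + d := ⟨v - u, by omega⟩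
  clear huv
  induction d with
  | zero => exact hv
  | succ d ih => exact ih (by omega) (hstep (u + d) (by omega) hv)

theorem bp_up {K : Type} [Field K] {J : Ideal (PR K 3)} {q : Fin 3 → K} (hq : q ≠ 0) {e : ℕ}
    {F : PR K 3} (hFJ : F ∈ J) (hF : F ∈ fm K 3 e) (hFq : eval q F ≠ 0) {u : ℕ} (hu : e ≤ u) :
    BPq J u q := by
  obtain ⟨j, hj⟩ : ∃ j, q j ≠ 0 := Function.ne_iff.1 hq
  refine ⟨X j ^ (u - e) * F, J.mul_mem_left _ hFJ, ?_, ?_⟩
  · have h1 : (X j ^ (u - e) : PR K 3) ∈ fm K 3 (u - e) := by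
      have := (isHomogeneous_X K j).pow (u - e)
      rwa [one_mul] at this
    have h2 := mul_mem' h1 hF
    rwa [Nat.sub_add_cancel hu] at h2
  · rw [map_mul, map_pow, eval_X]
    exact mul_ne_zero (pow_ne_zero _ hj) hFq

/-- BPT. -/
theorem t_bpt : BPTStmt := by
  intro K _ a b c f g h J hT hfJ hgJ hhJ
  constructor
  · intro u hu q hq
    by_cases h1 : eval q f = 0
    · by_cases h2 : eval q g = 0
      · exact bp_up hq hhJ hT.hh (hT.hz q hq h1 h2) hu
      · exact bp_up hq hgJ hT.hg h2 (hT.hbc.trans hu)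
    · exact bp_up hq hfJ hT.hf h1 ((hT.hab.trans hT.hbc).trans hu)
  · obtain ⟨l, hl, hl0, hlp⟩ := hT.hl
    refine ⟨l, hl, hl0, ?_⟩
    intro q hq hlq u hu
    by_cases h1 : eval q f = 0
    · exact bp_up hq hgJ hT.hg (hlp q hq hlq h1) hu
    · exact bp_up hq hfJ hT.hf h1 (hT.hab.trans hu)

/-- HFZ. -/
theorem t_hfz : HFZStmt := by
  intro K _ N J u h1
  rw [(Ideal.eq_top_iff_one J).2 h1]
  unfold hf
  have : ((⊤ : Ideal (PR K N)).restrictScalars K ⊓ fm K N u) = fm K N u := by
    ext x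
    simp
  rw [this, Nat.sub_self]

theorem hf_eq_zero_iff {K : Type} [Field K] {N : ℕ} (hFIN : FINStmt) (J : Ideal (PR K N))
    (m : ℕ) : hf J m = 0 ↔ ∀ F ∈ fm K N m, F ∈ J := by
  have hfin : Module.Finite K ↥(fm K N m) := hFIN K N m
  unfold hf
  constructor
  · intro h
    have hle : (J.restrictScalars K ⊓ fm K N m) ≤ fm K N m := inf_le_right
    have heq : (J.restrictScalars K ⊓ fm K N m) = fm K N m := by
      refine Submodule.eq_of_le_of_finrank_le hle ?_
      omega
    intro F hF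
    rw [← heq] at hF
    exact hF.1
  · intro h
    have heq : (J.restrictScalars K ⊓ fm K N m) = fm K N m := by
      refine le_antisymm inf_le_right ?_
      intro F hF
      exact ⟨h F hF, hF⟩
    rw [heq, Nat.sub_self]

/-- LN0. -/
theorem t_ln0 (hFIN : FINStmt) : LN0Stmt := by
  intro K _ N J m _ h
  rw [hf_eq_zero_iff hFIN] at h ⊢
  intro F hF
  obtain ⟨G, hG, hFG⟩ := fm_succ hF
  rw [hFG]
  exact J.sum_mem fun i _ => J.mul_mem_left _ (h _ (hG i))

/-- NVP. -/
theorem t_nvp : NVPStmt := by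
  intro K _ _ u F hF hF0
  by_contra hcon
  push Not at hcon
  rcases Nat.eq_zero_or_pos u with h | h
  · subst h
    have h1 : ∀ q : Fin 3 → K, q ≠ 0 → eval q F = 0 := hcon
    have h2 : F = C (coeff 0 F) := by
      have := hF
      rw [mem_homogeneousSubmodule] at this
      exact (totalDegree_eq_zero_iff_eq_C).1 (by
        have := this.totalDegree_le
        omega)
    have h3 := h1 (fun _ => 1) (by
      intro h
      have := congrFun h 0
      simp at this)
    rw [h2] at h3
    simp only [eval_C] at h3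
    rw [h3, C_0] at h2
    exact hF0 h2
  · apply hF0
    apply MvPolynomial.funext
    intro q
    rw [map_zero]
    by_cases hq : q = 0
    · subst hq
      obtain ⟨v, rfl⟩ : ∃ v, u = v + 1 := ⟨u - 1, by omega⟩
      obtain ⟨G, hG, hFG⟩ := fm_succ hF
      rw [hFG]
      simp
    · exact hcon q hq

/-- T3M is in another file; HFB and INI too. -/
theorem mono_pow {K : Type} [Field K] {N : ℕ} (i : Fin N) (d : ℕ) :
    (X i ^ d : PR K N) ∈ fm K N d := by
  have := (isHomogeneous_X K i).pow d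
  rwa [one_mul] at this

end Pool.EG3
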