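import Pool.Agent.H45.EG3.S3
import Pool.Agent.H45.EG3.NPZ

/-!
# EG3, rows HZM, QHF
-/

set_option autoImplicit false

namespace Pool.EG3

open MvPolynomial Pool.EGH

theorem mc_pos {K : Type} [Field K] {N k : ℕ} {L : List ℕ} {J : Ideal (PR K N)} (h : MC k L J) :
    ∀ d ∈ L, 1 ≤ d := by
  induction h with
  | zero => intro d hd; simp at hd
  | lin _ _ _ _ => intro d hd; simp at hd
  | form _ h1 _ _ ih =>
    intro d hd
    rcases List.mem_cons.1 hd with h | h
    · rw [h]; exact h1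
    · exact ih d h

/-- The geometric sum. -/
theorem geo (d : ℕ) : (1 - (PowerSeries.X : PowerSeries ℤ) ^ d) =
    (1 - PowerSeries.X) * ((∑ i ∈ Finset.range d, (Polynomial.X : Polynomial ℤ) ^ i :
      Polynomial ℤ) : PowerSeries ℤ) := by
  have h1 := congrArg (fun p : Polynomial ℤ => (p : PowerSeries ℤ))
    (mul_neg_geom_sum (Polynomial.X : Polynomial ℤ) d)
  simp only [Polynomial.coe_mul, Polynomial.coe_sub, Polynomial.coe_one, Polynomial.coe_X,
    Polynomial.coe_pow] at h1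
  exact h1.symm

theorem geo_prod (L : List ℕ) : ∃ p : Polynomial ℤ,
    (L.map (fun d => 1 - (PowerSeries.X : PowerSeries ℤ) ^ d)).prod =
      (1 - PowerSeries.X) ^ L.length * (p : PowerSeries ℤ) := by
  induction L with
  | nil => exact ⟨1, by simp⟩
  | cons d L ih =>
    obtain ⟨p, hp⟩ := ih
    refine ⟨(∑ i ∈ Finset.range d, (Polynomial.X : Polynomial ℤ) ^ i) * p, ?_⟩
    rw [List.map_cons, List.prod_cons, hp, geo d, Polynomial.coe_mul, List.length_cons]
    ring

theorem one_sub_X_ne (n : ℕ) : ((1 - PowerSeries.X) ^ n : PowerSeries ℤ) ≠ 0 := by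
  apply pow_ne_zero
  intro h
  have := congrArg (PowerSeries.coeff 0) h
  simp at this

/-- HZM. -/
theorem t_hzm (hHSM : HSMStmt) (hFIN : FINStmt) : HZMStmt := by
  intro K _ k L J hJ hk q hq
  obtain ⟨j, hj⟩ : ∃ j, q j ≠ 0 := Function.ne_iff.1 hq
  obtain ⟨p, hp⟩ := geo_prod L
  have h1 := hHSM K 3 k L J hJ
  have h2 : PowerSeries.mk (fun i => (hf J i : ℤ)) = (p : PowerSeries ℤ) := by
    apply mul_right_cancel₀ (one_sub_X_ne 3)
    rw [h1, hp, ← mul_assoc, ← pow_add, hk, mul_comm]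
  have h3 : hf J (p.natDegree + 1) = 0 := by
    have h4 := congrArg (PowerSeries.coeff (p.natDegree + 1)) h2
    rw [PowerSeries.coeff_mk, Polynomial.coeff_coe,
      Polynomial.coeff_eq_zero_of_natDegree_lt (Nat.lt_succ_self _)] at h4
    exact_mod_cast h4
  rw [hf_eq_zero_iff hFIN] at h3
  refine ⟨X j ^ (p.natDegree + 1), h3 _ (mono_pow j _), ?_⟩
  rw [map_pow, eval_X]
  exact pow_ne_zero _ hj

/-- QHF. -/
theorem t_qhf (hHSM : HSMStmt) (hMOC : MOCStmt) : QHFStmt := by
  intro K _ a b c J hJ d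
  have h1 := hHSM K 3 0 [c, b, a] J hJ
  have h2 := hMOC a b c
  have h3 : PowerSeries.mk (fun i => (hf J i : ℤ)) =
      PowerSeries.mk (fun d => ((Mo (cp a b c 3) d).card : ℤ)) := by
    apply mul_right_cancel₀ (one_sub_X_ne 3)
    rw [h1, h2]
    simp only [pow_zero, List.map_cons, List.map_nil, List.prod_cons, List.prod_nil]
    ring
  have h4 := congrArg (PowerSeries.coeff d) h3
  rw [PowerSeries.coeff_mk, PowerSeries.coeff_mk] at h4
  exact_mod_cast h4

end Pool.EG3
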