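import Pool.Agent.H45.EG3.S1
import Pool.Agent.H86.EG3.JM

/-!
# EG3: modules JMB, JMC (proved by helper86)
-/

set_option autoImplicit false

namespace Pool.EG3

theorem t_jmb : JMBStmt := Pool.EG3.JM86.jmb

theorem t_jmc : JMCStmt := Pool.EG3.JM86.jmc

end Pool.EG3
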