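import Pool.Agent.H45.EG3.S2

/-!
# EG3, rows KOS, KO1: the Koszul complex of powers of the variables
-/

set_option autoImplicit false

namespace Pool.EG3

open MvPolynomial Pool.EGH

theorem kx_ndvd {K : Type} [Field K] {i j : Fin 3} (h : i ≠ j) (N : ℕ) :
    ¬ (X i : PR K 3) ∣ X j ^ N := by
  intro hd
  have h1 : (X i : PR K 3) ∣ X j := (X_prime (i := i)).dvd_of_dvd_pow hd
  rw [X_dvd_X] at h1
  exact h h1

theorem kx_dvd {K : Type} [Field K] {i j : Fin 3} (h : i ≠ j) (N M : ℕ) {p : PR K 3}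
    (hd : X i ^ N ∣ X j ^ M * p) : X i ^ N ∣ p :=
  (X_prime (i := i)).pow_dvd_of_dvd_mul_left N (kx_ndvd h M) hd

theorem kx_ne {K : Type} [Field K] (i : Fin 3) (N : ℕ) : (X i ^ N : PR K 3) ≠ 0 :=
  pow_ne_zero _ (X_ne_zero i)

/-- KO1. -/
theorem t_ko1 : KO1Stmt := by
  intro K _ N w h
  have h1 : X 0 ^ N ∣ w 0 := by
    refine kx_dvd (K := K) (i := 0) (j := 1) (by decide) N N ?_
    rw [h 0 1]
    exact dvd_mul_right _ _
  obtain ⟨v, hv⟩ := h1
  refine ⟨v, fun i => ?_⟩
  have h2 := h 0 i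
  rw [hv] at h2
  apply mul_left_cancel₀ (kx_ne (K := K) 0 N)
  rw [← h2]
  ring

/-- No exponent of `X i` is at least `N`. -/
def kred {K : Type} [Field K] (i : Fin 3) (N : ℕ) (p : PR K 3) : Prop :=
  ∀ t : Fin 3 →₀ ℕ, N ≤ t i → coeff t p = 0

theorem kred_mod {K : Type} [Field K] (i : Fin 3) (N : ℕ) (p : PR K 3) :
    ∃ c r : PR K 3, p = X i ^ N * c + r ∧ kred i N r := by
  refine ⟨divMonomial p (Finsupp.single i N), modMonomial p (Finsupp.single i N), ?_, ?_⟩
  · rw [X_pow_eq_monomial]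
    exact (divMonomial_add_modMonomial p _).symm
  · intro t ht
    apply coeff_modMonomial_of_le
    rwa [Finsupp.single_le_iff]

theorem kred_mul {K : Type} [Field K] {i j : Fin 3} (h : j ≠ i) (N M : ℕ) {p : PR K 3}
    (hp : kred i N p) : kred i N (X j ^ M * p) := by
  classical
  intro t ht
  rw [X_pow_eq_monomial, coeff_monomial_mul']
  split_ifs with h1
  · rw [hp, mul_zero]
    rw [Finsupp.tsub_apply, Finsupp.single_apply, if_neg h, Nat.sub_zero]
    exact ht
  · rfl

theorem kred_add {K : Type} [Field K] {i : Fin 3} {N : ℕ} {p q : PR K 3}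
    (hp : kred i N p) (hq : kred i N q) : kred i N (p + q) := by
  intro t ht
  rw [coeff_add, hp t ht, hq t ht, add_zero]

theorem kred_zero {K : Type} [Field K] {i : Fin 3} {N : ℕ} {p u : PR K 3}
    (hp : kred i N p) (h : p = X i ^ N * u) : p = 0 := by
  classical
  ext t
  rw [coeff_zero]
  by_cases ht : N ≤ t i
  · exact hp t ht
  · rw [h, X_pow_eq_monomial, coeff_monomial_mul', if_neg]
    rw [Finsupp.single_le_iff]
    exact ht

/-- KOS. -/
theorem t_kos : KOSStmt := by
  intro K _ N z h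
  have hii : ∀ i, z i i = 0 := by
    intro i
    have h1 := h i i i
    have h2 : X i ^ N * z i i = 0 := by
      rw [← h1]
      ring
    rcases mul_eq_zero.1 h2 with h3 | h3
    · exact absurd h3 (kx_ne i N)
    · exact h3
  have hji : ∀ i j, z j i = - z i j := by
    intro i j
    have h1 := h i j i
    rw [hii, mul_zero] at h1
    have h2 : X i ^ N * (z i j + z j i) = 0 := by
      rw [← h1]
      ring
    rcases mul_eq_zero.1 h2 with h3 | h3
    · exact absurd h3 (kx_ne i N)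
    · exact (neg_eq_of_add_eq_zero_right h3).symm
  have h012 := h 0 1 2
  obtain ⟨c, r, hz01, hr⟩ := kred_mod (K := K) 1 N (z 0 1)
  obtain ⟨c', r', hz12, hr'⟩ := kred_mod (K := K) 1 N (z 1 2)
  have e1 : X 2 ^ N * r + X 0 ^ N * r' = X 1 ^ N * (z 0 2 - X 2 ^ N * c - X 0 ^ N * c') := by
    rw [hz01, hz12] at h012
    linear_combination h012
  have e2 : X 2 ^ N * r + X 0 ^ N * r' = 0 :=
    kred_zero (kred_add (kred_mul (by decide) N N hr) (kred_mul (by decide) N N hr')) e1
  have e3 : z 0 2 = X 2 ^ N * c + X 0 ^ N * c' := by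
    rw [e2] at e1
    rcases mul_eq_zero.1 e1.symm with h3 | h3
    · exact absurd h3 (kx_ne 1 N)
    · linear_combination h3
  have e4 : X 0 ^ N ∣ r := by
    refine kx_dvd (K := K) (i := 0) (j := 2) (by decide) N N ⟨- r', ?_⟩
    linear_combination e2
  obtain ⟨d, hd⟩ := e4
  have e5 : r' = - (X 2 ^ N * d) := by
    apply mul_left_cancel₀ (kx_ne (K := K) 0 N)
    rw [hd] at e2
    linear_combination e2
  have k01 : z 0 1 = X 1 ^ N * c - X 0 ^ N * (- d) := by
    rw [hz01, hd]
    ring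
  have k02 : z 0 2 = X 2 ^ N * c - X 0 ^ N * (- c') := by
    rw [e3]
    ring
  have k12 : z 1 2 = X 2 ^ N * (- d) - X 1 ^ N * (- c') := by
    rw [hz12, e5]
    ring
  refine ⟨![c, - d, - c'], ?_⟩
  intro i j
  fin_cases i <;> fin_cases j <;>
    simp only [Fin.zero_eta, Fin.mk_one, Fin.reduceFinMk, Matrix.cons_val_zero,
      Matrix.cons_val_one, Matrix.cons_val]
  · rw [hii]; ring
  · exact k01
  · exact k02
  · rw [hji 0 1, k01]; ring
  · rw [hii]; ring
  · exact k12
  · rw [hji 0 2, k02]; ring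
  · rw [hji 1 2, k12]; ring
  · rw [hii]; ring

end Pool.EG3
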