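import Pool.Agent.H45.EG3.S1

/-!
# EG3, rows LN1, SGB
-/

set_option autoImplicit false

namespace Pool.EG3

open MvPolynomial Pool.EGH

/-- LN1. -/
theorem t_ln1 (hLN2 : LN2Stmt) (hLNB : LNBStmt) (hLMT : LMTStmt) (hBPT : BPTStmt)
    (hLN0 : LN0Stmt) (hHGA : HGAStmt) : LN1Stmt := by
  intro K _ _ a b c f g h J hT hJ hfJ hgJ hhJ l hl hl0 m hm
  have hb2 : 2 ≤ b := hT.ha.trans hT.hab
  have hc2 : 2 ≤ c := hb2.trans hT.hbc
  obtain ⟨hBP, -⟩ := hBPT K a b c f g h J hT hfJ hgJ hhJ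
  have hG : Hg (J ⊔ Ideal.span {l}) := ((hHGA K 3).2.1 J 1 l hJ hl).1
  have hle : ∀ n, hf (J ⊔ Ideal.span {l}) n ≤ b := by
    by_cases h1 : l ∣ f
    · by_cases h2 : l ∣ g
      · exfalso
        obtain ⟨l', hl', -, hl'p⟩ := hT.hl
        obtain ⟨q, hq, e1, e2⟩ := hLMT K l l' hl hl'
        obtain ⟨f', hf'⟩ := h1
        obtain ⟨g', hg'⟩ := h2
        refine hl'p q hq e2 ?_ ?_
        · rw [hf', map_mul, e1, zero_mul]
        · rw [hg', map_mul, e1, zero_mul]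
      · exact hLNB K J l g b hJ hl hl0 hgJ hT.hg h2
    · exact fun n => (hLNB K J l f a hJ hl hl0 hfJ hT.hf h1 n).trans hT.hab
  have key : ∀ d, hf (J ⊔ Ideal.span {l}) (c - 1 + d) ≤ b - d := by
    intro d
    induction d with
    | zero => exact hle _
    | succ d ih =>
      rw [← Nat.add_assoc]
      rcases Nat.eq_zero_or_pos (hf (J ⊔ Ideal.span {l}) (c - 1 + d)) with h0 | h0
      · rw [hLN0 K 3 _ (c - 1 + d) hG h0]
        exact Nat.zero_le _
      · have h1 := hLN2 K J l (c - 1 + d) hJ hl hl0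
          (fun q hq _ => hBP _ (by omega) q hq) (by omega)
        omega
  have h1 := key (m - (c - 1))
  rw [show c - 1 + (m - (c - 1)) = m by omega] at h1
  have hbc := hT.hbc
  unfold Nn
  omega

/-- SGB. -/
theorem t_sgb (hCOL : COLStmt) (hLN2 : LN2Stmt) (hLNK : LNKStmt) (hLN0 : LN0Stmt)
    (hHGA : HGAStmt) (hMON : MONStmt) : SGBStmt := by
  intro K _ _ J l u hJ hl hl0 hNP hBP
  have hG : Hg (J ⊔ Ideal.span {l}) := ((hHGA K 3).2.1 J 1 l hJ hl).1
  have h1 := (hCOL K 3 1 J l hJ hl).1 u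
  have h2 := (hCOL K 3 1 J l hJ hl).1 (u + 1)
  have hle : J ≤ clI J l := fun x hx => J.mul_mem_left l hx
  have h3 := (hMON K 3 J (clI J l) u hle).1
  have h4 := (hMON K 3 J (clI J l) (u + 1) hle).1
  have h5 : u + 1 + 1 = u + 2 := rfl
  rw [h5] at h2
  have h6 : hf (J ⊔ Ideal.span {l}) (u + 1) = 0 ∨
      hf (J ⊔ Ideal.span {l}) (u + 2) + 1 ≤ hf (J ⊔ Ideal.span {l}) (u + 1) := by
    by_cases h0 : hf (J ⊔ Ideal.span {l}) (u + 1) = 0
    · exact Or.inl h0
    · exact Or.inr (hLN2 K J l (u + 1) hJ hl hl0 hBP h0)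
  have h7 : hf (J ⊔ Ideal.span {l}) (u + 1) = 0 → hf (J ⊔ Ideal.span {l}) (u + 2) = 0 :=
    fun h0 => hLN0 K 3 _ (u + 1) hG h0
  have h8 : hf (clI J l) u = hf J u ∨
      hf J u + hf (clI J l) (u + 1) + 1 ≤ hf J (u + 1) + hf (clI J l) u := by
    by_cases h0 : hf (clI J l) u = hf J u
    · exact Or.inl h0
    · exact Or.inr (hLNK K J l u hJ hl hl0 hNP (by omega))
  rcases h6 with h6 | h6
  · have h9 := h7 h6
    rcases h8 with h8 | h8
    · rcases Nat.lt_or_ge (hf (clI J l) (u + 1)) (hf J (u + 1)) with h10 | h10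
      · left
        omega
      · right
        constructor <;> omega
    · left
      omega
  · left
    rcases h8 with h8 | h8 <;> omega

end Pool.EG3
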