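import Pool.Agent.H45.EG3.PTI

/-!
# EG3, row LNI: lines
-/

set_option autoImplicit false

namespace Pool.EG3

open MvPolynomial Pool.EGH

/-- LNI. -/
theorem t_lni : LNIStmt := by
  classical
  intro K _ l hl hl0
  obtain ⟨j, hj⟩ : ∃ j : Fin 3, coeff (Finsupp.single j 1) l ≠ 0 := by
    by_contra hcon
    push Not at hcon
    apply hl0
    rw [lin_eq hl]
    simp [hcon]
  obtain ⟨k, m, hkj, hmj, hkm, hall⟩ : ∃ k m : Fin 3, k ≠ j ∧ m ≠ j ∧ k ≠ m ∧
      ∀ i, i = k ∨ i = m ∨ i = j := by
    fin_cases j
    · exact ⟨1, 2, by decide, by decide, by decide, by decide⟩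
    · exact ⟨0, 2, by decide, by decide, by decide, by decide⟩
    · exact ⟨0, 1, by decide, by decide, by decide, by decide⟩
  have hu : (Finset.univ : Finset (Fin 3)) = {k, m, j} := by
    ext i
    simp [hall i]
  have hsum : ∀ f : Fin 3 → PR K 3, ∑ i, f i = f k + f m + f j := by
    intro f
    rw [hu, Finset.sum_insert (by simp [hkm, hkj]), Finset.sum_insert (by simp [hmj]),
      Finset.sum_singleton]
    ring
  have hsumK : ∀ f : Fin 3 → K, ∑ i, f i = f k + f m + f j := by
    intro f
    rw [hu, Finset.sum_insert (by simp [hkm, hkj]), Finset.sum_insert (by simp [hmj]),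
      Finset.sum_singleton]
    ring
  set c := coeff (Finsupp.single j 1) l with hc
  set a := coeff (Finsupp.single k 1) l with ha
  set b := coeff (Finsupp.single m 1) l with hb
  have hleq : l = C a * X k + C b * X m + C c * X j := by
    conv_lhs => rw [lin_eq hl, hsum]
  have hspan : ∀ p ∈ fm K 3 1, ∃ α β γ : K, p = C α * l + C β * X k + C γ * X m := by
    intro p hp
    refine ⟨coeff (Finsupp.single j 1) p * c⁻¹, coeff (Finsupp.single k 1) p -
      coeff (Finsupp.single j 1) p * c⁻¹ * a, coeff (Finsupp.single m 1) p -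
      coeff (Finsupp.single j 1) p * c⁻¹ * b, ?_⟩
    conv_lhs => rw [lin_eq hp, hsum]
    rw [hleq]
    have h1 : C (coeff (Finsupp.single j 1) p) * (X j : PR K 3) =
        C (coeff (Finsupp.single j 1) p * c⁻¹) * (C c * X j) := by
      rw [← mul_assoc, ← C_mul, mul_assoc, inv_mul_cancel₀ hj, mul_one]
    rw [h1]
    simp only [C_mul, C_sub]
    ring
  have hq0 : ∀ q : Fin 3 → K, q ≠ 0 → eval q l = 0 → q k ≠ 0 ∨ q m ≠ 0 := by
    intro q hq hql
    by_contra hcon
    push Not at hcon
    obtain ⟨h1, h2⟩ := hcon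
    apply hq
    have h3 : c * q j = 0 := by
      rw [hleq] at hql
      simpa [h1, h2] using hql
    have h4 : q j = 0 := by
      rcases mul_eq_zero.1 h3 with h | h
      · exact absurd h hj
      · exact h
    funext i
    rcases hall i with h | h | h
    · rw [h, h1]; rfl
    · rw [h, h2]; rfl
    · rw [h, h4]; rfl
  refine ⟨X k, X_mem1 k, X m, X_mem1 m, hspan, ?_, ?_⟩
  · intro α β hαβ
    have hym : (C α * X k + C β * X m : PR K 3) ∈ fm K 3 1 :=
      Submodule.add_mem _ (C_mul_mem (X_mem1 k) _) (C_mul_mem (X_mem1 m) _)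
    obtain ⟨q, hq, h1, h2⟩ := t_lmt K l _ hl hym
    refine ⟨q, hq, h1, h2, ?_⟩
    intro p hp hpq
    obtain ⟨γ, β', γ', h3⟩ := hspan p hp
    have h4 : β' * q k + γ' * q m = 0 := by
      rw [h3] at hpq
      simpa [h1] using hpq
    have h5 : α * q k + β * q m = 0 := by simpa using h2
    have h6 : β' * β = γ' * α := by
      rcases hq0 q hq h1 with h | h
      · have h7 : (β' * β - γ' * α) * q k = 0 := by linear_combination β * h4 - γ' * h5
        rcases mul_eq_zero.1 h7 with h8 | h8
        · exact sub_eq_zero.1 h8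
        · exact absurd h8 h
      · have h7 : (β' * β - γ' * α) * q m = 0 := by linear_combination β' * h5 - α * h4
        rcases mul_eq_zero.1 h7 with h8 | h8
        · exact sub_eq_zero.1 h8
        · exact absurd h8 h
    rcases hαβ with h | h
    · refine ⟨γ, β' * α⁻¹, ?_⟩
      have h7 : γ' = β' * α⁻¹ * β := by
        field_simp
        linear_combination - h6
      have h8 : β' = β' * α⁻¹ * α := by
        field_simp
      rw [h3]
      conv_lhs => rw [h7]
      rw [show (C β' : PR K 3) = C (β' * α⁻¹ * α) by rw [← h8]]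
      simp only [C_mul]
      ring
    · refine ⟨γ, γ' * β⁻¹, ?_⟩
      have h7 : β' = γ' * β⁻¹ * α := by
        field_simp
        linear_combination h6
      have h8 : γ' = γ' * β⁻¹ * β := by
        field_simp
      rw [h3]
      conv_lhs => rw [h7]
      rw [show (C γ' : PR K 3) = C (γ' * β⁻¹ * β) by rw [← h8]]
      simp only [C_mul]
      ring
  · intro q hq hql
    refine ⟨q m, - q k, ?_, ?_⟩
    · rcases hq0 q hq hql with h | h
      · exact Or.inr (neg_ne_zero.2 h)
      · exact Or.inl h
    · simp only [map_add, map_mul, eval_C, eval_X]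
      ring

end Pool.EG3
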