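import Pool.Agent.H45.EG3.S3

/-!
# EG3, row MOC: the number of capped vectors
-/

set_option autoImplicit false

namespace Pool.EG3

open MvPolynomial Pool.EGH

theorem moc_geo (m : ℕ) : PowerSeries.mk (fun n => if n < m then (1 : ℤ) else 0) *
    (1 - PowerSeries.X) = 1 - (PowerSeries.X : PowerSeries ℤ) ^ m := by
  have h1 : PowerSeries.mk (fun n => if n < m then (1 : ℤ) else 0) =
      ∑ i ∈ Finset.range m, (PowerSeries.X : PowerSeries ℤ) ^ i := by
    ext n
    rw [PowerSeries.coeff_mk, map_sum]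
    simp only [PowerSeries.coeff_X_pow]
    rw [Finset.sum_ite_eq]
    simp only [Finset.mem_range]
  rw [h1]
  exact geom_sum_mul_neg _ _

/-- MOC. -/
theorem t_moc (hMOM : MOMStmt) : MOCStmt := by
  classical
  intro a b c
  set m : Fin 3 → ℕ := ![a, b, c] with hm
  set f : Fin 3 → PowerSeries ℤ := fun j =>
    PowerSeries.mk (fun n => if n < m j then (1 : ℤ) else 0) with hf
  have hcp : ∀ i : Fin 3, cp a b c 3 i = (m i : ℕ∞) := by
    intro i
    fin_cases i <;> rfl
  have h1 : PowerSeries.mk (fun d => ((Mo (cp a b c 3) d).card : ℤ)) =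
      ∏ j ∈ (Finset.univ : Finset (Fin 3)), f j := by
    ext d
    rw [PowerSeries.coeff_mk, PowerSeries.coeff_prod]
    have h2 : ∀ l : Fin 3 →₀ ℕ, ∏ j ∈ (Finset.univ : Finset (Fin 3)),
        PowerSeries.coeff (l j) (f j) = if ∀ j, l j < m j then (1 : ℤ) else 0 := by
      intro l
      simp only [hf, PowerSeries.coeff_mk]
      rw [Finset.prod_ite_zero]
      simp
    simp only [h2]
    rw [Finset.sum_boole]
    congr 1
    refine Finset.card_bij (fun x _ => Finsupp.equivFunOnFinite.symm x) ?_ ?_ ?_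
    · intro x hx
      obtain ⟨e1, e2⟩ := (hMOM 3 _ d x).1.1 hx
      rw [Finset.mem_filter, Finset.mem_finsuppAntidiag]
      refine ⟨⟨?_, Finset.subset_univ _⟩, ?_⟩
      · simpa using e1
      · intro j
        have := e2 j
        rw [hcp] at this
        simpa using this
    · intro x _ y _ hxy
      exact Finsupp.equivFunOnFinite.symm.injective hxy
    · intro l hl
      rw [Finset.mem_filter, Finset.mem_finsuppAntidiag] at hl
      refine ⟨fun i => l i, ?_, ?_⟩
      · refine (hMOM 3 _ d _).1.2 ⟨hl.1.1, fun i => ?_⟩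
        rw [hcp]
        exact_mod_cast hl.2 i
      · ext i
        rfl
  rw [h1]
  have h3 : ∀ j, f j * (1 - PowerSeries.X) = 1 - (PowerSeries.X : PowerSeries ℤ) ^ m j :=
    fun j => moc_geo (m j)
  rw [Fin.prod_univ_three]
  have e0 := h3 0
  have e1 := h3 1
  have e2 := h3 2
  have g0 : m 0 = a := rfl
  have g1 : m 1 = b := rfl
  have g2 : m 2 = c := rfl
  rw [g0] at e0
  rw [g1] at e1
  rw [g2] at e2
  rw [← e0, ← e1, ← e2]
  ring

end Pool.EG3
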