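import Pool.Agent.H45.EG3.S3
import Pool.Agent.H93.EGH.PNS

/-!
# EG3, modules PNM, TRM
-/

set_option autoImplicit false

namespace Pool.EG3

open MvPolynomial Pool.EGH Pool.EGH.PNSaux
open Pool.EGC (Gs)

theorem mci_of_mc {K : Type} [Field K] {N k : ℕ} {J : Ideal (PR K N)} (h : MC k [] J) :
    MCI k 0 J := by
  generalize hL : ([] : List ℕ) = L at h
  induction h with
  | zero => exact MCI.zero
  | lin _ hl hr ih => exact MCI.lin (ih rfl) hl hr
  | form _ _ _ _ _ => exact absurd hL (by simp)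

theorem mc_of_mci {K : Type} [Field K] {N k : ℕ} {J : Ideal (PR K N)} (h : MCI k 0 J) :
    MC k [] J := by
  generalize h0 : (0 : ℕ) = r at h
  induction h with
  | zero => exact MC.zero
  | lin _ hl hr ih => exact MC.lin (ih rfl) hl hr
  | quad _ _ _ _ => exact absurd h0 (by omega)

theorem mc_inv {K : Type} [Field K] {N k d : ℕ} {L : List ℕ} {Q : Ideal (PR K N)}
    (h : MC k (d :: L) Q) :
    ∃ (J : Ideal (PR K N)) (q : PR K N), Q = J ⊔ Ideal.span {q} ∧ MC k L J ∧ 1 ≤ d ∧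
      q ∈ fm K N d ∧ Rg J q := by
  cases h with
  | form h1 h2 h3 h4 => exact ⟨_, _, rfl, h1, h2, h3, h4⟩

/-- PNM. -/
theorem t_pnm (h1 : LSHStmt) (h2 : LINStmt) (h3 : HGMStmt) (h4 : PEMStmt) : PNMStmt := by
  intro K _ _ N k L
  induction L generalizing k with
  | nil =>
    intro J hJ hk z hz
    obtain ⟨L, hL, hf, rfl⟩ := h1 K N k J (mci_of_mc hJ)
    obtain ⟨l, hl, hlL⟩ := exists_lin k (by simpa using hk) L hL hf
    exact (h2 K N L hL).2.2 l hl hlL z (hz l hl)
  | cons d L ih =>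
    intro Q hQ hk z hz
    obtain ⟨J, q, rfl, hJ, hd, hq, hr⟩ := mc_inv hQ
    rw [List.length_cons] at hk
    have hHg : Hg J := h3 K N k L J hJ
    obtain ⟨l₀, hl₀, hrl⟩ := t_rlf K N J hHg (ih k J hJ (by omega))
    have hJl := h4 K N k L J l₀ hJ hl₀ hrl
    obtain ⟨y, hy⟩ := mem_sup.1 (hz l₀ hl₀)
    have hyJ : y ∈ J ⊔ Ideal.span {l₀} := by
      apply ih (k + 1) _ hJl (by omega)
      intro m hm
      obtain ⟨y', hy'⟩ := mem_sup.1 (hz m hm)
      rw [mem_sup]
      refine ⟨y', hr _ ?_⟩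
      have h6 : q * (m * y - l₀ * y') = l₀ * (m * z - q * y') - m * (l₀ * z - q * y) := by ring
      rw [h6]
      exact sub_mem (Ideal.mul_mem_left _ _ hy') (Ideal.mul_mem_left _ _ hy)
    obtain ⟨y'', hy''⟩ := mem_sup.1 hyJ
    rw [mem_sup]
    refine ⟨y'', hrl _ ?_⟩
    have h7 : l₀ * (z - q * y'') = (l₀ * z - q * y) + q * (y - l₀ * y'') := by ring
    rw [h7]
    exact add_mem hy (Ideal.mul_mem_left _ _ hy'')

/-- TRM. -/
theorem t_trm : TRMStmt := by
  intro K _ N k n L J hJ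
  induction hJ with
  | zero =>
    refine ⟨⊥, MCI.zero, le_rfl, ?_⟩
    intro π hπ hk
    rw [Ideal.map_bot]
    exact MC.zero
  | @lin k J l hJ hl hr ih =>
    refine ⟨J ⊔ Ideal.span {l}, MCI.lin (mci_of_mc hJ) hl hr, le_rfl, ?_⟩
    intro π hπ hk
    have : Ideal.map π (J ⊔ Ideal.span {l}) = ⊥ := by
      rw [← hk, eq_bot_iff, Ideal.map_le_iff_le_comap]
      intro x hx
      exact hx
    rw [this]
    exact MC.zero
  | @form k L J d q hJ hd hq hr ih =>
    obtain ⟨J₀, h0, h1, h2⟩ := ih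
    refine ⟨J₀, h0, h1.trans le_sup_left, ?_⟩
    intro π hπ hk
    have h3 := h2 π hπ hk
    rw [Ideal.map_sup, Ideal.map_span, Set.image_singleton]
    refine MC.form h3 hd (hπ.2 d q hq) ?_
    intro z hz
    obtain ⟨y, rfl⟩ := hπ.1 z
    have h4 : π (q * y) ∈ J.map π := by
      rw [map_mul]
      exact hz
    have h5 : q * y ∈ J := by
      rw [Ideal.mem_map_iff_of_surjective π hπ.1] at h4
      obtain ⟨x, hx, hxy⟩ := h4
      have h6 : q * y - x ∈ J₀ := by
        rw [← hk, RingHom.mem_ker, map_sub, hxy, sub_self]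
      have := J.add_mem (h1 h6) hx
      rwa [sub_add_cancel] at this
    exact Ideal.mem_map_of_mem π (hr y h5)

end Pool.EG3
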