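import Pool.Agent.H45.EG3.S1

/-!
# EG3, rows PTI, LNI, LMT: points and lines
-/

set_option autoImplicit false

namespace Pool.EG3

open MvPolynomial Pool.EGH

variable {K : Type} [Field K]

theorem deg_of_mem {N u : ℕ} {F : PR K N} (hF : F ∈ fm K N u) {s : Fin N →₀ ℕ}
    (hs : coeff s F ≠ 0) : s.degree = u := by
  rw [mem_homogeneousSubmodule] at hF
  have h1 := hF hs
  rw [← h1]
  simp only [Finsupp.weight_apply, Finsupp.sum, Pi.one_apply, smul_eq_mul, mul_one]
  rfl

/-- A linear form is the sum of its terms. -/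
theorem lin_eq {N : ℕ} {l : PR K N} (hl : l ∈ fm K N 1) :
    l = ∑ i, C (coeff (Finsupp.single i 1) l) * X i := by
  classical
  ext s
  rw [coeff_sum]
  simp only [coeff_C_mul]
  by_cases h : ∃ i, s = Finsupp.single i 1
  · obtain ⟨i, rfl⟩ := h
    rw [Finset.sum_eq_single i]
    · rw [coeff_X, if_pos rfl, mul_one]
    · intro j _ hj
      rw [coeff_X, if_neg, mul_zero]
      intro h
      exact hj ((Finsupp.single_left_inj one_ne_zero).1 h)
    · intro h
      exact absurd (Finset.mem_univ i) h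
  · have h0 : coeff s l = 0 := by
      by_contra hne
      have h1 : s.degree = 1 := deg_of_mem hl hne
      have hne0 : s ≠ 0 := by
        rintro rfl
        simp at h1
      obtain ⟨i, hi⟩ := Finsupp.ne_iff.1 hne0
      refine h ⟨i, ?_⟩
      have h3 : Finsupp.single i 1 + (s - Finsupp.single i 1) = s := by
        refine add_tsub_cancel_of_le ?_
        rw [Finsupp.single_le_iff]
        simp only [Finsupp.coe_zero, Pi.zero_apply] at hi
        omega
      have h4 := congrArg Finsupp.degree h3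
      rw [map_add, Finsupp.degree_single, h1] at h4
      have h5 : s - Finsupp.single i 1 = 0 := by
        rw [← Finsupp.degree_eq_zero_iff]
        omega
      rw [h5, add_zero] at h3
      exact h3.symm
    rw [h0, Finset.sum_eq_zero]
    intro i _
    rw [coeff_X, if_neg, mul_zero]
    intro h1
    exact h ⟨i, h1.symm⟩

theorem lin_eval {N : ℕ} {l : PR K N} (hl : l ∈ fm K N 1) (q : Fin N → K) :
    eval q l = ∑ i, coeff (Finsupp.single i 1) l * q i := by
  conv_lhs => rw [lin_eq hl]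
  simp

theorem C_mul_mem {N u : ℕ} {F : PR K N} (hF : F ∈ fm K N u) (a : K) : C a * F ∈ fm K N u := by
  rw [← smul_eq_C_mul]
  exact Submodule.smul_mem _ _ hF

theorem X_mem1 {N : ℕ} (i : Fin N) : (X i : PR K N) ∈ fm K N 1 := isHomogeneous_X K i

theorem mul_mem' {N u v : ℕ} {F G : PR K N} (hF : F ∈ fm K N u) (hG : G ∈ fm K N v) :
    F * G ∈ fm K N (u + v) := IsHomogeneous.mul hF hG

/-- A form of positive degree is a combination of the variables. -/
theorem fm_succ {N u : ℕ} {F : PR K N} (hF : F ∈ fm K N (u + 1)) :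
    ∃ G : Fin N → PR K N, (∀ i, G i ∈ fm K N u) ∧ F = ∑ i, X i * G i := by
  classical
  have h1 : ∀ s ∈ F.support, ∃ i, 1 ≤ s i := by
    intro s hs
    have h2 : s.degree = u + 1 := deg_of_mem hF (mem_support_iff.1 hs)
    by_contra hcon
    push Not at hcon
    have : s = 0 := by
      ext i
      have := hcon i
      simp only [Finsupp.coe_zero, Pi.zero_apply]
      omega
    rw [this, map_zero] at h2
    omega
  have hN : Nonempty (Fin N) ∨ IsEmpty (Fin N) := by
    rcases isEmpty_or_nonempty (Fin N) with h | h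
    · exact Or.inr h
    · exact Or.inl h
  rcases hN with hN | hN
  swap
  · refine ⟨fun i => isEmptyElim i, fun i => isEmptyElim i, ?_⟩
    rw [Finset.univ_eq_empty, Finset.sum_empty]
    by_contra hne
    obtain ⟨s, hs⟩ := (support_nonempty.2 hne)
    obtain ⟨i, -⟩ := h1 s hs
    exact isEmptyElim i
  choose! f hf using h1
  refine ⟨fun i => ∑ s ∈ F.support.filter (fun s => f s = i),
    monomial (s - Finsupp.single i 1) (coeff s F), ?_, ?_⟩
  · intro i
    refine Submodule.sum_mem _ fun s hs => ?_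
    rw [Finset.mem_filter] at hs
    obtain ⟨hs, hi⟩ := hs
    refine isHomogeneous_monomial _ ?_
    have h2 : s.degree = u + 1 := deg_of_mem hF (mem_support_iff.1 hs)
    have h3 : Finsupp.single i 1 + (s - Finsupp.single i 1) = s := by
      refine add_tsub_cancel_of_le ?_
      rw [Finsupp.single_le_iff, ← hi]
      exact hf s hs
    have h4 := congrArg Finsupp.degree h3
    rw [map_add, Finsupp.degree_single, h2] at h4
    omega
  · conv_lhs => rw [F.as_sum]
    rw [← Finset.sum_fiberwise F.support f]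
    refine Finset.sum_congr rfl fun i _ => ?_
    rw [Finset.mul_sum]
    refine Finset.sum_congr rfl fun s hs => ?_
    rw [Finset.mem_filter] at hs
    obtain ⟨hs, hi⟩ := hs
    have h3 : Finsupp.single i 1 + (s - Finsupp.single i 1) = s := by
      refine add_tsub_cancel_of_le ?_
      rw [Finsupp.single_le_iff, ← hi]
      exact hf s hs
    rw [X, monomial_mul, one_mul, h3]

/-- Splitting of forms with respect to three linear forms which span. -/
theorem split3 {p₁ p₂ z : PR K 3} (hp₁ : p₁ ∈ fm K 3 1) (hp₂ : p₂ ∈ fm K 3 1)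
    (hz : z ∈ fm K 3 1) (hsp : ∀ l ∈ fm K 3 1, ∃ α β γ : K, l = C α * p₁ + C β * p₂ + C γ * z) :
    ∀ (u : ℕ) (F : PR K 3), F ∈ fm K 3 (u + 1) →
      ∃ F₁ ∈ fm K 3 u, ∃ F₂ ∈ fm K 3 u, ∃ γ : K, F = p₁ * F₁ + p₂ * F₂ + C γ * z ^ (u + 1) := by
  intro u
  induction u with
  | zero =>
    intro F hF
    obtain ⟨α, β, γ, h⟩ := hsp F hF
    refine ⟨C α, isHomogeneous_C _ _, C β, isHomogeneous_C _ _, γ, ?_⟩
    rw [h]
    ring
  | succ u ih =>
    intro F hF
    obtain ⟨G, hG, hFG⟩ := fm_succ hF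
    choose α β γ h using fun i : Fin 3 => hsp (X i) (X_mem1 i)
    obtain ⟨F₁, hF₁, F₂, hF₂, δ, hδ⟩ := ih (∑ i, C (γ i) * G i)
      (Submodule.sum_mem _ fun i _ => C_mul_mem (hG i) _)
    refine ⟨∑ i, C (α i) * G i + z * F₁, ?_, ∑ i, C (β i) * G i + z * F₂, ?_, δ, ?_⟩
    · refine Submodule.add_mem _ (Submodule.sum_mem _ fun i _ => C_mul_mem (hG i) _) ?_
      rw [show u + 1 = 1 + u by ring]
      exact mul_mem' hz hF₁
    · refine Submodule.add_mem _ (Submodule.sum_mem _ fun i _ => C_mul_mem (hG i) _) ?_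
      rw [show u + 1 = 1 + u by ring]
      exact mul_mem' hz hF₂
    · have h1 : F = p₁ * ∑ i, C (α i) * G i + p₂ * ∑ i, C (β i) * G i +
          z * ∑ i, C (γ i) * G i := by
        rw [hFG, Finset.mul_sum, Finset.mul_sum, Finset.mul_sum, ← Finset.sum_add_distrib,
          ← Finset.sum_add_distrib]
        refine Finset.sum_congr rfl fun i _ => ?_
        conv_lhs => rw [h i]
        ring
      rw [h1, hδ]
      ring

/-- LMT. -/
theorem t_lmt : LMTStmt := by
  intro K _ l m hl hm
  -- the two equations have a nontrivial solution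
  let φ : (Fin 3 → K) →ₗ[K] (Fin 2 → K) := Matrix.mulVecLin
    !![coeff (Finsupp.single 0 1) l, coeff (Finsupp.single 1 1) l, coeff (Finsupp.single 2 1) l;
       coeff (Finsupp.single 0 1) m, coeff (Finsupp.single 1 1) m, coeff (Finsupp.single 2 1) m]
  have hker : LinearMap.ker φ ≠ ⊥ := by
    apply LinearMap.ker_ne_bot_of_finrank_lt
    simp
  obtain ⟨q, hq, hq0⟩ := (Submodule.ne_bot_iff _).1 hker
  refine ⟨q, hq0, ?_, ?_⟩
  · have h1 := congrFun (LinearMap.mem_ker.1 hq) 0
    rw [lin_eval hl, Fin.sum_univ_three]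
    simpa [φ, Matrix.mulVec, dotProduct, Fin.sum_univ_three] using h1
  · have h1 := congrFun (LinearMap.mem_ker.1 hq) 1
    rw [lin_eval hm, Fin.sum_univ_three]
    simpa [φ, Matrix.mulVec, dotProduct, Fin.sum_univ_three] using h1

/-- PTI. -/
theorem t_pti : PTIStmt := by
  classical
  intro K _ q hq
  obtain ⟨j, hj⟩ : ∃ j, q j ≠ 0 := Function.ne_iff.1 hq
  obtain ⟨k, l, hkj, hlj, hkl, hall⟩ : ∃ k l : Fin 3, k ≠ j ∧ l ≠ j ∧ k ≠ l ∧
      ∀ i, i = k ∨ i = l ∨ i = j := by
    fin_cases j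
    · exact ⟨1, 2, by decide, by decide, by decide, by decide⟩
    · exact ⟨0, 2, by decide, by decide, by decide, by decide⟩
    · exact ⟨0, 1, by decide, by decide, by decide, by decide⟩
  have hsum : ∀ f : Fin 3 → PR K 3, ∑ i, f i = f k + f l + f j := by
    intro f
    have hu : (Finset.univ : Finset (Fin 3)) = {k, l, j} := by
      ext i
      simp [hall i]
    rw [hu, Finset.sum_insert (by simp [hkl, hkj]), Finset.sum_insert (by simp [hlj]),
      Finset.sum_singleton]
    ring
  set p₁ : PR K 3 := X k - C (q k * (q j)⁻¹) * X j with hp₁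
  set p₂ : PR K 3 := X l - C (q l * (q j)⁻¹) * X j with hp₂
  set z : PR K 3 := C (q j)⁻¹ * X j with hz
  have m₁ : p₁ ∈ fm K 3 1 := Submodule.sub_mem _ (X_mem1 k) (C_mul_mem (X_mem1 j) _)
  have m₂ : p₂ ∈ fm K 3 1 := Submodule.sub_mem _ (X_mem1 l) (C_mul_mem (X_mem1 j) _)
  have m₃ : z ∈ fm K 3 1 := C_mul_mem (X_mem1 j) _
  have e₁ : eval q p₁ = 0 := by
    simp [hp₁, hj]
  have e₂ : eval q p₂ = 0 := by
    simp [hp₂, hj]
  have e₃ : eval q z = 1 := by
    simp [hz, hj]
  have hspan : ∀ m ∈ fm K 3 1, ∃ α β γ : K, m = C α * p₁ + C β * p₂ + C γ * z := by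
    intro m hm
    refine ⟨coeff (Finsupp.single k 1) m, coeff (Finsupp.single l 1) m, eval q m, ?_⟩
    conv_lhs => rw [lin_eq hm, hsum]
    rw [lin_eval hm]
    have hsum' : ∑ i, coeff (Finsupp.single i 1) m * q i =
        coeff (Finsupp.single k 1) m * q k + coeff (Finsupp.single l 1) m * q l +
          coeff (Finsupp.single j 1) m * q j := by
      have hu : (Finset.univ : Finset (Fin 3)) = {k, l, j} := by
        ext i
        simp [hall i]
      rw [hu, Finset.sum_insert (by simp [hkl, hkj]), Finset.sum_insert (by simp [hlj]),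
        Finset.sum_singleton]
      ring
    rw [hsum', hp₁, hp₂, hz]
    have hc : C (coeff (Finsupp.single j 1) m) * (X j : PR K 3) =
        C (coeff (Finsupp.single j 1) m * q j) * (C (q j)⁻¹ * X j) := by
      rw [← mul_assoc, ← C_mul, mul_assoc, mul_inv_cancel₀ hj, mul_one]
    rw [hc]
    simp only [C_mul, C_add]
    ring
  refine ⟨p₁, m₁, p₂, m₂, z, m₃, e₁, e₂, e₃, ?_, ?_, hspan, ?_⟩
  · intro m hm hmq
    obtain ⟨α, β, γ, h⟩ := hspan m hm
    refine ⟨α, β, ?_⟩
    have h1 : eval q m = γ := by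
      rw [h]
      simp [e₁, e₂, e₃]
    rw [hmq] at h1
    rw [h, ← h1]
    simp
  · intro α β h
    have h1 := congrArg (coeff (Finsupp.single k 1)) h
    have h2 := congrArg (coeff (Finsupp.single l 1)) h
    have hne : ∀ a b : Fin 3, a ≠ b → ¬ (Finsupp.single a 1 : Fin 3 →₀ ℕ) = Finsupp.single b 1 :=
      fun a b hab h => hab ((Finsupp.single_left_inj one_ne_zero).1 h)
    simp only [hp₁, hp₂, coeff_add, coeff_C_mul, coeff_sub, coeff_X, coeff_zero,
      if_neg (hne _ _ (Ne.symm hkj)), if_neg (hne _ _ (Ne.symm hlj)), if_neg (hne _ _ hkl),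
      if_neg (hne _ _ (Ne.symm hkl)), if_true, mul_zero, sub_zero, add_zero, mul_one,
      zero_add] at h1 h2
    exact ⟨h1, h2⟩
  · intro u F hF hFq
    obtain ⟨F₁, hF₁, F₂, hF₂, γ, h⟩ := split3 m₁ m₂ m₃ hspan u F hF
    refine ⟨F₁, hF₁, F₂, hF₂, ?_⟩
    have h1 : eval q F = γ := by
      rw [h]
      simp [e₁, e₂, e₃]
    rw [hFq] at h1
    rw [h, ← h1]
    simp

end Pool.EG3
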