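import Pool.Agent.H45.EG3.Caps

/-!
# EG3: statements of the modules, part 3 (Clements and Lindström, Caviglia and Maclagan)
-/

set_option autoImplicit false

namespace Pool.EG3

open MvPolynomial Pool.EGH
open Pool.EGC (lx sl cj Gs)

/-! ### The theorem of Clements and Lindström -/

/-- MOM: membership. -/
def MOMStmt : Prop :=
  ∀ (m : ℕ) (c : Fin m → ℕ∞) (d : ℕ) (x : Fin m → ℕ),
    (x ∈ Mo c d ↔ ∑ i, x i = d ∧ ∀ i, (x i : ℕ∞) < c i) ∧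
    ∀ (A : Finset (Fin m → ℕ)) (y : Fin m → ℕ),
      y ∈ up c d A ↔ y ∈ Mo c (d + 1) ∧ ∃ x ∈ A, ∃ i, y = x + Pi.single i 1

/-- SGE: existence and comparison of lexicographic segments. -/
def SGEStmt : Prop :=
  ∀ (m : ℕ) (c : Fin m → ℕ∞) (d : ℕ),
    (∀ s ≤ (Mo c d).card, ∃ A, Sg c d A ∧ A.card = s) ∧
    ∀ A B, Sg c d A → Sg c d B → A.card ≤ B.card → A ⊆ B

/-- SUP: the shadow of a segment is a segment. -/
def SUPStmt : Prop :=
  ∀ (m : ℕ) (c : Fin m → ℕ∞) (d : ℕ) (A : Finset (Fin m → ℕ)), Sg c d A →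
    Sg c (d + 1) (up c d A)

/-- SL1: slices. -/
def SL1Stmt : Prop :=
  ∀ (m : ℕ) (c : Fin (m + 1) → ℕ∞) (d : ℕ) (i : Fin (m + 1))
    (A : Finset (Fin (m + 1) → ℕ)), A ⊆ Mo c d →
    (∀ (t : ℕ) (x : Fin m → ℕ), x ∈ sl i t A ↔ (i.insertNth t x : Fin (m + 1) → ℕ) ∈ A) ∧
    (∀ t ≤ d, sl i t A ⊆ Mo (c ∘ i.succAbove) (d - t)) ∧
    (∀ t, d < t → sl i t A = ∅) ∧ (∀ t : ℕ, c i ≤ (t : ℕ∞) → sl i t A = ∅) ∧
    A.card = ∑ t ∈ Finset.range (d + 1), (sl i t A).card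

/-- SL2: slices and orders. -/
def SL2Stmt : Prop :=
  ∀ (m : ℕ) (c : Fin (m + 1) → ℕ∞) (i : Fin (m + 1)), (An c → An (c ∘ i.succAbove)) ∧
    (∀ (t : ℕ) (x y : Fin m → ℕ),
      lx (i.insertNth t x : Fin (m + 1) → ℕ) (i.insertNth t y) ↔ lx x y) ∧
    ∀ (d t : ℕ) (x : Fin m → ℕ), (i.insertNth t x : Fin (m + 1) → ℕ) ∈ Mo c d ↔
      t ≤ d ∧ (t : ℕ∞) < c i ∧ x ∈ Mo (c ∘ i.succAbove) (d - t)

/-- SL3: the slices of the shadow. -/
def SL3Stmt : Prop :=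
  ∀ (m : ℕ) (c : Fin (m + 1) → ℕ∞) (d : ℕ) (i : Fin (m + 1))
    (A : Finset (Fin (m + 1) → ℕ)), A ⊆ Mo c d → ∀ t : ℕ, (t : ℕ∞) < c i →
    ∀ x : Fin m → ℕ, x ∈ sl i t (up c d A) ↔
      (t ≤ d ∧ x ∈ up (c ∘ i.succAbove) (d - t) (sl i t A)) ∨ (1 ≤ t ∧ x ∈ sl i (t - 1) A)

/-- SL4: sets with given slices. -/
def SL4Stmt : Prop :=
  ∀ (m : ℕ) (c : Fin (m + 1) → ℕ∞) (d : ℕ) (i : Fin (m + 1))
    (T : ℕ → Finset (Fin m → ℕ)),
    (∀ t ≤ d, T t ⊆ Mo (c ∘ i.succAbove) (d - t)) →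
    ∃ A ⊆ Mo c d, ∀ t ≤ d, (t : ℕ∞) < c i → sl i t A = T t

/-- TOP: the segments have the largest weight. -/
def TOPStmt : Prop :=
  ∀ (m : ℕ) (c : Fin m → ℕ∞) (d : ℕ),
    (∀ x ∈ Mo c d, ∀ y ∈ Mo c d, lx x y → rk c d x < rk c d y) ∧
    ∀ A B : Finset (Fin m → ℕ), A ⊆ Mo c d → B ⊆ Mo c d → A.card = B.card →
      (∀ x ∈ A, x ∉ B → ∀ y ∈ B, y ∉ A → lx x y) → A ≠ B → wt c d A < wt c d B

/-- CMW: compression increases the weight. -/
def CMWStmt : Prop :=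
  ∀ (m : ℕ) (c : Fin (m + 1) → ℕ∞) (d : ℕ) (i : Fin (m + 1))
    (A A' : Finset (Fin (m + 1) → ℕ)), A ⊆ Mo c d → A' ⊆ Mo c d →
    (∀ t, (sl i t A').card = (sl i t A).card) → Cm c d i A' → A' ≠ A →
    wt c d A < wt c d A'

/-- CMP: compression. -/
def CMPStmt : Prop :=
  ∀ (m : ℕ), CLm m → ∀ (c : Fin (m + 1) → ℕ∞), An c → ∀ (d : ℕ)
    (A : Finset (Fin (m + 1) → ℕ)) (i : Fin (m + 1)), A ⊆ Mo c d →
    ∃ A' ⊆ Mo c d, A'.card = A.card ∧ (up c d A').card ≤ (up c d A).card ∧ Cm c d i A' ∧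
      (A' ≠ A → wt c d A < wt c d A')

/-- EX1: a missing vector ends with a positive entry. -/
def EX1Stmt : Prop :=
  ∀ (m : ℕ) (c : Fin (m + 4) → ℕ∞), An c → ∀ (d : ℕ) (A : Finset (Fin (m + 4) → ℕ)),
    A ⊆ Mo c d → (∀ i, Cm c d i A) → ∀ b ∈ Mo c d, b ∉ A → ∀ a ∈ A, lx a b →
    b (Fin.last (m + 3)) ≠ 0

/-- EX2: the exchange, the last place has no cap. -/
def EX2Stmt : Prop :=
  ∀ (m : ℕ) (c : Fin (m + 1) → ℕ∞) (d : ℕ) (A : Finset (Fin (m + 1) → ℕ)), A ⊆ Mo c d →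
    c (Fin.last m) = ⊤ →
    ∀ b ∈ Mo c d, b ∉ A → (∀ y ∈ Mo c d, lx b y → y ∈ A) →
    ∀ a ∈ A, (∀ y ∈ A, y ≠ a → lx a y) → lx a b → b (Fin.last m) ≠ 0 →
    (up c d (insert b (A.erase a))).card ≤ (up c d A).card

/-- FC3: the shadows of segments in three places. -/
def FC3Stmt : Prop :=
  ∀ (a b c d k : ℕ) (B : Finset (Fin 3 → ℕ)), b ≤ c → Sg (cp a b c 3) d B →
    k ≤ (Mo (cp a b c 3) (d + 1)).card →
    ls b c (d + 1) k + B.card ≤ (Mo (cp a b c 3) d).card →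
    (up (cp a b c 3) d B).card + k ≤ (Mo (cp a b c 3) (d + 1)).card

/-- MNM: monomial ideals with given sets of exponents in two degrees. -/
def MNMStmt : Prop :=
  ∀ (K : Type) [Field K] (a b c d : ℕ) (A : Finset (Fin 3 → ℕ)), A ⊆ Mo (cp a b c 3) d →
    ∃ I : Ideal (PR K 3), Hg I ∧ (X 0 : PR K 3) ^ a ∈ I ∧ (X 1 : PR K 3) ^ b ∈ I ∧
      (X 2 : PR K 3) ^ c ∈ I ∧ hf I d + A.card = (Mo (cp a b c 3) d).card ∧
      hf I (d + 1) + (up (cp a b c 3) d A).card = (Mo (cp a b c 3) (d + 1)).card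

/-- T3M: the three powers. -/
def T3MStmt : Prop :=
  ∀ (K : Type) [Field K] (a b c : ℕ), 2 ≤ a → a ≤ b → b ≤ c →
    T3 a b c ((X 0 : PR K 3) ^ a) ((X 1 : PR K 3) ^ b) ((X 2 : PR K 3) ^ c)

/-- CL3: three places. -/
def CL3Stmt : Prop := CLm 3

/-- CLS: the induction step. -/
def CLSStmt : Prop := ∀ m : ℕ, CLm (m + 3) → CLm (m + 4)

/-- CLT: the theorem of Clements and Lindström. -/
def CLTStmt : Prop := ∀ m : ℕ, CLm (m + 3)

/-! ### Regular sequences -/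

/-- HGM: homogeneity. -/
def HGMStmt : Prop :=
  ∀ (K : Type) [Field K] (N k : ℕ) (L : List ℕ) (J : Ideal (PR K N)), MC k L J → Hg J

/-- HSM: the Hilbert series. -/
def HSMStmt : Prop :=
  ∀ (K : Type) [Field K] (N k : ℕ) (L : List ℕ) (J : Ideal (PR K N)), MC k L J →
    PowerSeries.mk (fun i => (hf J i : ℤ)) * (1 - PowerSeries.X) ^ N =
      (1 - PowerSeries.X) ^ k * (L.map (fun d => 1 - (PowerSeries.X : PowerSeries ℤ) ^ d)).prod

/-- PEM: a regular linear form may be put in front. -/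
def PEMStmt : Prop :=
  ∀ (K : Type) [Field K] (N k : ℕ) (L : List ℕ) (J : Ideal (PR K N)) (l : PR K N), MC k L J →
    l ∈ fm K N 1 → Rg J l → MC (k + 1) L (J ⊔ Ideal.span {l})

/-- PNM: no socle for short sequences. -/
def PNMStmt : Prop :=
  ∀ (K : Type) [Field K] [Infinite K] (N k : ℕ) (L : List ℕ) (J : Ideal (PR K N)), MC k L J →
    k + L.length < N → ∀ z : PR K N, (∀ l ∈ fm K N 1, l * z ∈ J) → z ∈ J

/-- RGM: from lists of forms. -/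
def RGMStmt : Prop :=
  ∀ (K : Type) [Field K] (N : ℕ) (rs : List (PR K N)) (ds : List ℕ),
    List.Forall₂ (fun f d => 1 ≤ d ∧ f.IsHomogeneous d) rs ds →
    RingTheory.Sequence.IsWeaklyRegular (PR K N) rs → MC 0 ds.reverse (Ideal.ofList rs)

/-- BAM: base change to the algebraic closure. -/
def BAMStmt : Prop :=
  ∀ (K : Type) [Field K] (N : ℕ) (I : Ideal (PR K N)) (rs : List (PR K N)) (ds : List ℕ), Hg I →
    List.Forall₂ (fun f d => f.IsHomogeneous d ∧ f ∈ I) rs ds →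
    RingTheory.Sequence.IsWeaklyRegular (PR K N) rs →
    ∃ (I' : Ideal (PR (AlgebraicClosure K) N)) (rs' : List (PR (AlgebraicClosure K) N)),
      Hg I' ∧ List.Forall₂ (fun f d => f.IsHomogeneous d ∧ f ∈ I') rs' ds ∧
      RingTheory.Sequence.IsWeaklyRegular (PR (AlgebraicClosure K) N) rs' ∧
      ∀ i, hf I' i = hf I i

/-- HZM: a complete intersection of full length has no zeros. -/
def HZMStmt : Prop :=
  ∀ (K : Type) [Field K] (k : ℕ) (L : List ℕ) (J : Ideal (PR K 3)), MC k L J →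
    k + L.length = 3 → ∀ q : Fin 3 → K, q ≠ 0 → ∃ F ∈ J, eval q F ≠ 0

/-- RT3: from regular sequences to `T3`. -/
def RT3Stmt : Prop :=
  ∀ (K : Type) [Field K] [IsAlgClosed K] (a b c : ℕ) (J : Ideal (PR K 3)), 2 ≤ a → a ≤ b →
    b ≤ c → MC 0 [c, b, a] J → ∃ f g h : PR K 3, T3 a b c f g h ∧ f ∈ J ∧ g ∈ J ∧ h ∈ J

/-- MOC: the number of capped vectors. -/
def MOCStmt : Prop :=
  ∀ a b c : ℕ, PowerSeries.mk (fun d => ((Mo (cp a b c 3) d).card : ℤ)) *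
    (1 - PowerSeries.X) ^ 3 = (1 - (PowerSeries.X : PowerSeries ℤ) ^ a) *
      (1 - (PowerSeries.X : PowerSeries ℤ) ^ b) * (1 - (PowerSeries.X : PowerSeries ℤ) ^ c)

/-- QHF: the Hilbert function of a complete intersection. -/
def QHFStmt : Prop :=
  ∀ (K : Type) [Field K] (a b c : ℕ) (J : Ideal (PR K 3)), MC 0 [c, b, a] J →
    ∀ d, hf J d = (Mo (cp a b c 3) d).card

/-! ### The reduction of Caviglia and Maclagan -/

/-- RZC: from a family of sets to a lexicographic family. -/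
def RZCStmt : Prop :=
  ∀ (K : Type) [Field K] (N m : ℕ) (I : Ideal (PR K N)) (c : Fin m → ℕ∞), 3 ≤ m → An c →
    (∃ A : ℕ → Finset (Fin m → ℕ), (∀ d, A d ⊆ Mo c d) ∧ (∀ d, up c d (A d) ⊆ A (d + 1)) ∧
      ∀ d, hf I d + (A d).card = (Mo c d).card) → Rz I c

/-- SNC: one more place without cap. -/
def SNCStmt : Prop :=
  ∀ (m : ℕ) (c : Fin m → ℕ∞),
    (∀ d, (Mo (Fin.snoc c ⊤ : Fin (m + 1) → ℕ∞) d).card =
      ∑ j ∈ Finset.range (d + 1), (Mo c (d - j)).card) ∧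
    ∀ L : ℕ → ℕ → Finset (Fin m → ℕ), (∀ j d, L j d ⊆ Mo c d) →
      (∀ j d, up c d (L j d) ⊆ L j (d + 1)) → (∀ j d, L j d ⊆ L (j + 1) d) →
      ∃ A : ℕ → Finset (Fin (m + 1) → ℕ),
        (∀ d, A d ⊆ Mo (Fin.snoc c ⊤ : Fin (m + 1) → ℕ∞) d) ∧
        (∀ d, up (Fin.snoc c ⊤ : Fin (m + 1) → ℕ∞) d (A d) ⊆ A (d + 1)) ∧
        ∀ d, (A d).card = ∑ j ∈ Finset.range (d + 1), (L j (d - j)).card

/-- SNA: the caps with one more place. -/
def SNAStmt : Prop :=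
  ∀ (a b c m : ℕ), 3 ≤ m →
    (Fin.snoc (cp a b c m) ⊤ : Fin (m + 1) → ℕ∞) = cp a b c (m + 1) ∧
    (2 ≤ a → a ≤ b → b ≤ c → An (cp a b c m))

/-- STP: the induction step. -/
def STPStmt : Prop :=
  ∀ (K : Type) [Field K] (N m a b c : ℕ) (I : Ideal (PR K N)) (l : PR K N), 3 ≤ m → 2 ≤ a →
    a ≤ b → b ≤ c → Hg I → l ∈ fm K N 1 →
    (∀ j, Rz (cj I l j ⊔ Ideal.span {l}) (cp a b c m)) → Rz I (cp a b c (m + 1))

/-- TRM: the image of a mixed complete intersection. -/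
def TRMStmt : Prop :=
  ∀ (K : Type) [Field K] (N k n : ℕ) (L : List ℕ) (J : Ideal (PR K N)), MC k L J →
    ∃ J₀ : Ideal (PR K N), MCI k 0 J₀ ∧ J₀ ≤ J ∧
      ∀ π : PR K N →ₐ[K] PR K n, Gs π → RingHom.ker π = J₀ → MC 0 L (J.map π)

/-- BAS: the case of full length. -/
def BASStmt : Prop :=
  ∀ (K : Type) [Field K] [IsAlgClosed K] (N k a b c : ℕ) (J I : Ideal (PR K N)), k + 3 = N →
    2 ≤ a → a ≤ b → b ≤ c → MC k [c, b, a] J → J ≤ I → Hg I → Rz I (cp a b c 3)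

/-- IND: any number of variables. -/
def INDStmt : Prop :=
  ∀ (K : Type) [Field K] [IsAlgClosed K] (N k m a b c : ℕ) (J I : Ideal (PR K N)), k + m = N →
    3 ≤ m → 2 ≤ a → a ≤ b → b ≤ c → MC k [c, b, a] J → J ≤ I → Hg I → Rz I (cp a b c m)

/-! ### The theorem -/

/-- The conclusion of the theorem. -/
def Ccl (K : Type) [Field K] (n : ℕ) (hr : 3 < n) (a : Fin 3 → ℕ)
    (I : Ideal (MvPolynomial (Fin n) K)) : Prop :=
  ∃ J : Ideal (MvPolynomial (Fin n) K),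
    (∀ p ∈ J, ∀ s ∈ p.support, MvPolynomial.monomial s (1 : K) ∈ J) ∧
    (∀ s t : Fin n →₀ ℕ, s.degree = t.degree →
        MvPolynomial.monomial s (1 : K) ∈ J →
        (MonomialOrder.lex : MonomialOrder (Fin n)).toSyn s ≤
          (MonomialOrder.lex : MonomialOrder (Fin n)).toSyn t →
        MvPolynomial.monomial t (1 : K) ∈ J) ∧
    ∀ d : ℕ,
      Module.finrank K
        ↥(MvPolynomial.homogeneousSubmodule (Fin n) K d ⊓ Submodule.restrictScalars K I) =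
      Module.finrank K
        ↥(MvPolynomial.homogeneousSubmodule (Fin n) K d ⊓
            Submodule.restrictScalars K
              (Ideal.span (Set.range fun i : Fin 3 => MvPolynomial.X (Fin.castLE hr.le i) ^ a i)
                ⊔ J))

/-- LEX: the lexicographic ideal. -/
def LEXStmt : Prop :=
  ∀ (K : Type) [Field K] (n : ℕ) (hr : 3 < n) (a : Fin 3 → ℕ) (I : Ideal (PR K n)),
    (∀ i, 2 ≤ a i) → Rz I (cp (a 0) (a 1) (a 2) n) → Ccl K n hr a I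

/-- The theorem. -/
def MainStmt : Prop :=
  ∀ (K : Type) [Field K] (n : ℕ) (hr : 3 < n)
    (I : Ideal (MvPolynomial (Fin n) K)) (f : Fin 3 → MvPolynomial (Fin n) K) (a : Fin 3 → ℕ),
    (∀ p ∈ I, ∀ d : ℕ, MvPolynomial.homogeneousComponent d p ∈ I) →
    Monotone a → (∀ i, 2 ≤ a i) → (∀ i, (f i).IsHomogeneous (a i)) → (∀ i, f i ∈ I) →
    RingTheory.Sequence.IsRegular (MvPolynomial (Fin n) K) (List.ofFn f) →
    Ccl K n hr a I

end Pool.EG3
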