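import Pool.Agent.H45.EG3.PTI
import Pool.Agent.H45.EG3.S3

/-!
# EG3, row RT3: from regular sequences to `T3`
-/

set_option autoImplicit false

namespace Pool.EG3

open MvPolynomial Pool.EGH

theorem eval_zero_form {K : Type} [Field K] {u : ℕ} (hu : 1 ≤ u) {F : PR K 3}
    (hF : F ∈ fm K 3 u) : eval (0 : Fin 3 → K) F = 0 := by
  obtain ⟨v, rfl⟩ : ∃ v, u = v + 1 := ⟨u - 1, by omega⟩
  obtain ⟨G, -, hFG⟩ := fm_succ hF
  rw [hFG]
  simp

theorem le_ker_eval {K : Type} [Field K] {q : Fin 3 → K} {J : Ideal (PR K 3)} {f : PR K 3}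
    (hJ : ∀ F ∈ J, eval q F = 0) (hf : eval q f = 0) : ∀ F ∈ J ⊔ Ideal.span {f}, eval q F = 0 := by
  have h1 : J ⊔ Ideal.span {f} ≤ RingHom.ker (eval q) := by
    rw [sup_le_iff]
    refine ⟨fun F hF => (RingHom.mem_ker).2 (hJ F hF), ?_⟩
    rw [Ideal.span_singleton_le_iff_mem]
    exact (RingHom.mem_ker).2 hf
  intro F hF
  exact (RingHom.mem_ker).1 (h1 hF)

/-- RT3. -/
theorem t_rt3 (hHZM : HZMStmt) (hPNM : PNMStmt) (hPEM : PEMStmt) (hRLF : RLFStmt)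
    (hHGM : HGMStmt) : RT3Stmt := by
  intro K _ _ a b c J ha hab hbc hJ
  have hinf : Infinite K := IsAlgClosed.instInfinite
  have hbot : ∀ (q : Fin 3 → K), ∀ F ∈ (⊥ : Ideal (PR K 3)), eval q F = 0 := by
    intro q F hF
    rw [Ideal.mem_bot] at hF
    rw [hF, map_zero]
  have hJ' := hJ
  rcases hJ with _ | _ | ⟨h1, hc1, hh, hrh⟩
  rename_i J1 h
  have h1' := h1
  rcases h1 with _ | _ | ⟨h2, hb1, hg, hrg⟩
  rename_i J2 g
  have h2' := h2
  rcases h2 with _ | _ | ⟨h3, ha1, hf, hrf⟩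
  rename_i J3 f
  rcases h3 with _ | _ | _
  have hz3 := hHZM K 0 [c, b, a] _ hJ' rfl
  have hJ1g : Hg (⊥ ⊔ Ideal.span {f} ⊔ Ideal.span {g} : Ideal (PR K 3)) :=
    hHGM K 3 0 [b, a] _ h1'
  obtain ⟨l, hl, hrl⟩ := hRLF K 3 _ hJ1g (hPNM K 3 0 [b, a] _ h1' (by simp))
  have hP := hPEM K 3 0 [b, a] _ l h1' hl hrl
  have hz2 := hHZM K (0 + 1) [b, a] _ hP rfl
  have hf0 : f ≠ 0 := by
    intro h0
    have h4 := hrf 1 (by rw [h0, zero_mul]; exact zero_mem _)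
    rw [Ideal.mem_bot] at h4
    exact one_ne_zero h4
  refine ⟨f, g, h, ⟨ha, hab, hbc, hf, hg, hh, hf0, ?_, ?_⟩, ?_, ?_, ?_⟩
  · intro q hq e1 e2 e3
    obtain ⟨F, hF, hFq⟩ := hz3 q hq
    exact hFq (le_ker_eval (le_ker_eval (le_ker_eval (hbot q) e1) e2) e3 F hF)
  · refine ⟨l, hl, ?_, ?_⟩
    · intro h0
      have h4 := hrl 1 (by rw [h0, zero_mul]; exact zero_mem _)
      have h5 := le_ker_eval (le_ker_eval (hbot 0) (eval_zero_form ha1 hf))
        (eval_zero_form hb1 hg) 1 h4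
      rw [map_one] at h5
      exact one_ne_zero h5
    · intro q hq e1 e2 e3
      obtain ⟨F, hF, hFq⟩ := hz2 q hq
      exact hFq (le_ker_eval (le_ker_eval (le_ker_eval (hbot q) e2) e3) e1 F hF)
  · exact Ideal.mem_sup_left (Ideal.mem_sup_left (Ideal.mem_sup_right
      (Ideal.mem_span_singleton_self f)))
  · exact Ideal.mem_sup_left (Ideal.mem_sup_right (Ideal.mem_span_singleton_self g))
  · exact Ideal.mem_sup_right (Ideal.mem_span_singleton_self h)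

end Pool.EG3
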