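import Pool.Agent.H45.EG3.PTI

/-!
# EG3, row SGA: the complex at a point
-/

set_option autoImplicit false

namespace Pool.EG3

open MvPolynomial Pool.EGH

section

variable {K : Type} [Field K] {N : ℕ}

theorem mem_gp {J : Ideal (PR K N)} {u : ℕ} {x : PR K N ⧸ J} :
    x ∈ gp J u ↔ ∃ F ∈ fm K N u, Ideal.Quotient.mk J F = x := by
  unfold gp
  rw [Submodule.mem_map]
  rfl

theorem mg_mem {J : Ideal (PR K N)} {p : PR K N} (hp : p ∈ fm K N 1) (u : ℕ) :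
    ∀ x ∈ gp J u, LinearMap.mulLeft K (Ideal.Quotient.mk J p) x ∈ gp J (u + 1) := by
  intro x hx
  obtain ⟨F, hF, rfl⟩ := mem_gp.1 hx
  refine mem_gp.2 ⟨p * F, ?_, ?_⟩
  · rw [add_comm]
    exact mul_mem' hp hF
  · rw [LinearMap.mulLeft_apply, map_mul]

/-- Multiplication by a linear form. -/
noncomputable def mg {J : Ideal (PR K N)} {p : PR K N} (hp : p ∈ fm K N 1) (u : ℕ) :
    ↥(gp J u) →ₗ[K] ↥(gp J (u + 1)) :=
  (LinearMap.mulLeft K (Ideal.Quotient.mk J p)).restrict (mg_mem hp u)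

theorem mg_coe {J : Ideal (PR K N)} {p : PR K N} (hp : p ∈ fm K N 1) (u : ℕ) (x : ↥(gp J u)) :
    ((mg hp u x : ↥(gp J (u + 1))) : PR K N ⧸ J) = Ideal.Quotient.mk J p * (x : PR K N ⧸ J) :=
  rfl

end

/-- SGA. -/
theorem t_sga (hPTI : PTIStmt) (hGPM : GPMStmt) (hGPD : GPDStmt) : SGAStmt := by
  intro K _ J u q hJ hq hNP hBP
  obtain ⟨p₁, hp₁, p₂, hp₂, z, hz, e₁, e₂, e₃, hP, hind, -, hsp⟩ := hPTI K q hq
  obtain ⟨hfin, -, -, -⟩ := hGPM K 3 J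
  have hdim := (hGPD K 3 J).1 hJ
  have f0 : Module.Finite K ↥(gp J u) := hfin u
  have f1 : Module.Finite K ↥(gp J (u + 1)) := hfin (u + 1)
  have f2 : Module.Finite K ↥(gp J (u + 1 + 1)) := hfin (u + 1 + 1)
  let φ : ↥(gp J u) →ₗ[K] ↥(gp J (u + 1)) × ↥(gp J (u + 1)) :=
    (mg (J := J) hp₂ u).prod (-(mg (J := J) hp₁ u))
  let ψ : ↥(gp J (u + 1)) × ↥(gp J (u + 1)) →ₗ[K] ↥(gp J (u + 1 + 1)) :=
    (mg (J := J) hp₁ (u + 1)).coprod (mg (J := J) hp₂ (u + 1))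
  have hφ : Function.Injective φ := by
    rw [injective_iff_map_eq_zero]
    rintro ⟨x, hx⟩ h0
    obtain ⟨F, hF, rfl⟩ := mem_gp.1 hx
    have h1 : Ideal.Quotient.mk J p₂ * Ideal.Quotient.mk J F = 0 :=
      congrArg (fun y => ((y.1 : ↥(gp J (u + 1))) : PR K 3 ⧸ J)) h0
    have h2 : -(Ideal.Quotient.mk J p₁ * Ideal.Quotient.mk J F) = 0 :=
      congrArg (fun y => ((y.2 : ↥(gp J (u + 1))) : PR K 3 ⧸ J)) h0
    rw [← map_mul, Ideal.Quotient.eq_zero_iff_mem] at h1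
    rw [neg_eq_zero, ← map_mul, Ideal.Quotient.eq_zero_iff_mem] at h2
    have h3 : F ∈ J := by
      refine hNP F hF fun l hl hlq => ?_
      obtain ⟨α, β, h⟩ := hP l hl hlq
      rw [h, add_mul, mul_assoc, mul_assoc]
      exact J.add_mem (J.mul_mem_left _ h2) (J.mul_mem_left _ h1)
    apply Subtype.ext
    exact Ideal.Quotient.eq_zero_iff_mem.2 h3
  have hψ : Function.Surjective ψ := by
    rintro ⟨y, hy⟩
    obtain ⟨G, hG, rfl⟩ := mem_gp.1 hy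
    obtain ⟨F, hFJ, hF, hFq⟩ := hBP
    have h1 : G - C (eval q G * (eval q F)⁻¹) * F ∈ fm K 3 (u + 1 + 1) :=
      Submodule.sub_mem _ hG (C_mul_mem hF _)
    obtain ⟨F₁, hF₁, F₂, hF₂, h2⟩ := hsp (u + 1) _ h1 (by simp [hFq])
    refine ⟨(⟨Ideal.Quotient.mk J F₁, mem_gp.2 ⟨F₁, hF₁, rfl⟩⟩,
      ⟨Ideal.Quotient.mk J F₂, mem_gp.2 ⟨F₂, hF₂, rfl⟩⟩), ?_⟩
    apply Subtype.ext
    show Ideal.Quotient.mk J p₁ * Ideal.Quotient.mk J F₁ +
      Ideal.Quotient.mk J p₂ * Ideal.Quotient.mk J F₂ = Ideal.Quotient.mk J G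
    rw [← map_mul, ← map_mul, ← map_add, ← h2, map_sub, sub_eq_self,
      Ideal.Quotient.eq_zero_iff_mem]
    exact J.mul_mem_left _ hFJ
  have hle : LinearMap.range φ ≤ LinearMap.ker ψ := by
    rintro _ ⟨x, rfl⟩
    rw [LinearMap.mem_ker]
    apply Subtype.ext
    show Ideal.Quotient.mk J p₁ * (Ideal.Quotient.mk J p₂ * (x : PR K 3 ⧸ J)) +
      Ideal.Quotient.mk J p₂ * -(Ideal.Quotient.mk J p₁ * (x : PR K 3 ⧸ J)) = 0
    ring
  have h1 := LinearMap.finrank_range_of_inj hφ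
  have h2 := Submodule.finrank_mono hle
  have h3 := LinearMap.finrank_range_add_finrank_ker ψ
  have h4 : Module.finrank K ↥(LinearMap.range ψ) = Module.finrank K ↥(gp J (u + 1 + 1)) := by
    rw [LinearMap.range_eq_top.2 hψ, finrank_top]
  rw [Module.finrank_prod] at h3
  have d0 := hdim u
  have d1 := hdim (u + 1)
  have d2 := hdim (u + 1 + 1)
  have h5 : hf J (u + 2) = hf J (u + 1 + 1) := rfl
  omega

end Pool.EG3
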