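import Pool.Agent.H45.EG3.S1

/-!
# EG3: assembly of the growth theorem in three variables
-/

set_option autoImplicit false

namespace Pool.EG3

open MvPolynomial Pool.EGH

theorem t_st2 (hNMA : NMAStmt) (hINI : INIStmt) (hSG0 : SG0Stmt) (hSGA : SGAStmt)
    (hNVP : NVPStmt) (hSGB : SGBStmt) (hSGC : SGCStmt) (hBPT : BPTStmt) (hLN0 : LN0Stmt)
    (hHFZ : HFZStmt) : ST2Stmt := by
  intro K _ _ a b c f g h t J hT hJ hfJ hgJ hhJ hLv hNP
  have hinf : Infinite K := IsAlgClosed.instInfinite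
  rcases Nat.eq_zero_or_pos (hf J (t + 1)) with h0 | h0
  · rw [h0]
    unfold ls
    simp
  have h1 : (1 : PR K 3) ∉ J := by
    intro h1
    have := hHFZ K 3 J (t + 1) h1
    omega
  have hne : ∀ u, u ≤ t + 1 → hf J u ≠ 0 := by
    intro u hu h2
    have : ∀ j, hf J (u + j) = 0 := by
      intro j
      induction j with
      | zero => exact h2
      | succ j ih => exact hLN0 K 3 J (u + j) hJ ih
    have h3 := this (t + 1 - u)
    rw [show u + (t + 1 - u) = t + 1 by omega] at h3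
    omega
  obtain ⟨e, he1, hea, hez, hee⟩ := hINI K J t a f hJ hfJ hT.hf hT.f0 (by have := hT.ha; omega) h1
  obtain ⟨hBP, l, hl, hl0, hBl⟩ := hBPT K a b c f g h J hT hfJ hgJ hhJ
  have hb2 : 2 ≤ b := hT.ha.trans hT.hab
  have hc2 : 2 ≤ c := hb2.trans hT.hbc
  have key := hNMA a b c t e (fun u => if u = 0 then 0 else hf J (u - 1)) hT.ha hT.hab hT.hbc he1
    hea ?_ ?_ ?_ ?_
  · simpa using key
  · intro u hu
    rcases Nat.eq_zero_or_pos u with h | h
    · simp [h]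
    · obtain ⟨v, rfl⟩ : ∃ v, u = v + 1 := ⟨u - 1, by omega⟩
      simp only [Nat.add_eq_zero_iff, one_ne_zero, and_false, if_false, Nat.add_sub_cancel]
      exact hez v (by omega)
  · intro u hu hut
    rcases Nat.eq_zero_or_pos u with h | h
    · subst h
      obtain ⟨F, hFJ, hF, hF0⟩ := hee 1 hu (by omega)
      have := hSG0 K J F hJ hFJ hF hF0
      simpa using this
    · obtain ⟨v, rfl⟩ : ∃ v, u = v + 1 := ⟨u - 1, by omega⟩
      obtain ⟨F, hFJ, hF, hF0⟩ := hee (v + 2) hu (by omega)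
      obtain ⟨q, hq, hFq⟩ := hNVP K (v + 2) F hF hF0
      have := hSGA K J v q hJ hq (hNP v (by omega) q hq) ⟨F, hFJ, hF, hFq⟩
      simpa using this
  · intro u hu huc hut
    obtain ⟨v, rfl⟩ : ∃ v, u = v + 1 := ⟨u - 1, by omega⟩
    have := hSGB K J l v hJ hl hl0 (fun q hq _ => hNP v (by omega) q hq)
      (fun q hq hql => hBl q hq hql (v + 2) (by omega))
    simpa using this
  · intro u hu hut
    obtain ⟨v, rfl⟩ : ∃ v, u = v + 1 := ⟨u - 1, by omega⟩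
    have := hSGC K J v hJ (fun q hq => hNP v (by omega) q hq)
      (fun q hq => hBP (v + 2) (by omega) q hq) (hne (v + 1) (by omega))
    simpa using this

theorem t_st3 (hST2 : ST2Stmt) (hNPZ : NPZStmt) (hPEL : PELStmt) (hJMA : JMAStmt)
    (hJMB : JMBStmt) (hJMC : JMCStmt) (hNME : NMEStmt) (hLN1 : LN1Stmt) (hCOL : COLStmt)
    (hHGA : HGAStmt) (hLN0 : LN0Stmt) (hLN2 : LN2Stmt) (hKER : KERStmt) (hKRP : KRPStmt)
    (hSGA : SGAStmt) (hCHJ : CHJStmt) (hHFB : HFBStmt) (hBPT : BPTStmt) : ST3Stmt := by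
  intro K _ _ a b c f g h t J hT hGR hX
  obtain ⟨hJ, hfJ, hgJ, hhJ, hLv, hbad, -, hmn⟩ := hX
  have hb2 : 2 ≤ b := hT.ha.trans hT.hab
  have hc2 : 2 ≤ c := hb2.trans hT.hbc
  have hbc := hT.hbc
  obtain ⟨k, hk⟩ : ∃ k, k = hf J (t + 1) := ⟨_, rfl⟩
  rw [← hk] at hbad hmn
  have hk1 : 1 ≤ k := by
    by_contra h0
    have : k = 0 := by omega
    rw [this] at hbad
    unfold ls at hbad
    simp at hbad
  have hXl : (X 0 : PR K 3) ∈ fm K 3 1 := isHomogeneous_X K 0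
  have hX0 : (X 0 : PR K 3) ≠ 0 := X_ne_zero 0
  obtain ⟨hBP, -⟩ := hBPT K a b c f g h J hT hfJ hgJ hhJ
  -- the jump
  have hjump : ls b c (t + 1) (k - 1) + 2 ≤ ls b c (t + 1) k := by
    have h1 : ∃ u ≤ t, ∃ q : Fin 3 → K, q ≠ 0 ∧ ¬ NPq J u q := by
      by_contra hcon
      have h2 : ∀ u ≤ t, ∀ q : Fin 3 → K, q ≠ 0 → NPq J u q := by
        intro u hu q hq
        by_contra h3
        exact hcon ⟨u, hu, q, hq, h3⟩
      have h4 := hST2 K a b c f g h t J hT hJ hfJ hgJ hhJ hLv h2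
      rw [← hk] at h4
      omega
    obtain ⟨u, hu, q, hq, hn⟩ := h1
    have hn2 : ¬ NPq J t q := fun h2 => hn (hNPZ K J t hLv q hq u t hu le_rfl h2)
    unfold NPq at hn2
    push Not at hn2
    obtain ⟨F, hF, hFk, hFJ⟩ := hn2
    obtain ⟨J', hJ', hle, h1, h2⟩ := hPEL K J t q F hJ hLv hq hF hFJ hFk
    have h3 := hmn J' hJ' (hle hfJ) (hle hgJ) (hle hhJ) (by omega)
    have h4 : hf J' (t + 1) = k - 1 := by omega
    rw [h4] at h3
    omega
  -- facts on colons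
  have hcol : ∀ l ∈ fm K 3 1, ∀ i, hf (J ⊔ Ideal.span {l}) (i + 1) + hf (clI J l) i =
      hf J (i + 1) := fun l hl i => (hCOL K 3 1 J l hJ hl).1 i
  have hclg : ∀ l ∈ fm K 3 1, Hg (clI J l) := fun l hl => ((hHGA K 3).2.1 J 1 l hJ hl).2
  have hspg : ∀ l ∈ fm K 3 1, Hg (J ⊔ Ideal.span {l}) := fun l hl =>
    ((hHGA K 3).2.1 J 1 l hJ hl).1
  have hcle : ∀ l : PR K 3, J ≤ clI J l := fun l x hx => J.mul_mem_left l hx
  rcases Nat.lt_or_ge (t + 1) (b + c) with hcase | hcase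
  swap
  · -- high degrees
    obtain ⟨hN, hls⟩ := hJMA b c t k hb2 hbc hk1 hcase hjump
    obtain ⟨s, rfl⟩ : ∃ s, t = s + 1 := ⟨t - 1, by omega⟩
    have h1 := hLN1 K a b c f g h J hT hJ hfJ hgJ hhJ (X 0) hXl hX0 (s + 1 + 1) (by omega)
    rw [hN] at h1
    have h2 := hcol (X 0) hXl (s + 1)
    have h3 := hcol (X 0) hXl s
    have h4 := hGR s (by omega) (clI J (X 0)) (hclg _ hXl) (hcle _ hfJ) (hcle _ hgJ) (hcle _ hhJ)
    have h5 : hf (clI J (X 0)) (s + 1) = k := by omega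
    rw [h5] at h4
    omega
  obtain ⟨i, hic, hki, hin⟩ := hJMB b c t k hb2 hbc hk1 (by omega) hjump
  obtain ⟨f1, f2, f3, f4, f5, f6, f7, f8⟩ := hJMC b c t k i hb2 hbc (by omega) hic hki hin
  obtain ⟨s, rfl⟩ : ∃ s, t = s + 1 := ⟨t - 1, by omega⟩
  have hle1 : hf J (s + 1) ≤ k + i := by omega
  -- no linear form kills an element
  have hx0 : ∀ l ∈ fm K 3 1, l ≠ 0 → hf (J ⊔ Ideal.span {l}) (s + 1 + 1) = 0 := by
    intro l hl hl0
    by_contra hx
    have h1 := hLN1 K a b c f g h J hT hJ hfJ hgJ hhJ l hl hl0 (s + 1 + 1) (by omega)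
    have h2 := hcol l hl (s + 1)
    have h3 := hcol l hl s
    have h4 := hGR s (by omega) (clI J l) (hclg _ hl) (hcle _ hfJ) (hcle _ hgJ) (hcle _ hhJ)
    have h5 : hf (clI J l) (s + 1) = k - hf (J ⊔ Ideal.span {l}) (s + 1 + 1) := by omega
    rw [h5] at h4
    have h6 := f3 (hf (J ⊔ Ideal.span {l}) (s + 1 + 1)) (by omega) h1 (by omega)
    have h7 : hf (J ⊔ Ideal.span {l}) (s + 1) ≠ 0 := fun h0 =>
      hx (hLN0 K 3 _ (s + 1) (hspg l hl) h0)
    have h8 := hLN2 K J l (s + 1) hJ hl hl0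
      (fun q hq _ => hBP (s + 1 + 1) (by omega) q hq) h7
    omega
  have hx1 : ∀ l ∈ fm K 3 1, l ≠ 0 → hf J (s + 1) = k + i ∧
      hf (J ⊔ Ideal.span {l}) (s + 1) = 0 := by
    intro l hl hl0
    have h1 := hx0 l hl hl0
    have h2 := hcol l hl (s + 1)
    have h3 := hcol l hl s
    have h4 := hGR s (by omega) (clI J l) (hclg _ hl) (hcle _ hfJ) (hcle _ hgJ) (hcle _ hhJ)
    have h5 : hf (clI J l) (s + 1) = k := by omega
    rw [h5] at h4
    constructor <;> omega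
  have hJt : hf J (s + 1) = k + i := (hx1 _ hXl hX0).1
  have hi1 : 1 ≤ i := by
    have := hKER K J (s + 1) hJ hx0 (by omega)
    omega
  have hG := hGR s (by omega) J hJ hfJ hgJ hhJ
  rw [hJt] at hG
  -- a good point
  have hq : ∃ q : Fin 3 → K, q ≠ 0 ∧ NPq J (s + 1) q := by
    by_contra hcon
    obtain ⟨J', r, hJ', hle, hr1, hr2, hr3, hr4⟩ := hKRP K J (X 0) (s + 1) hJ hLv hXl hX0
      (hx0 _ hXl hX0) (fun q hq _ hn => hcon ⟨q, hq, hn⟩)
    have h3 := hmn J' hJ' (hle hfJ) (hle hgJ) (hle hhJ) (by omega)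
    have h4 : hf J' (s + 1 + 1) = k - r := by omega
    rw [h4] at h3
    have h5 := f7 r hr1 (by omega)
    omega
  obtain ⟨q, hq0, hqn⟩ := hq
  have hqn2 : NPq J s q := hNPZ K J (s + 1) hLv q hq0 s (s + 1) (by omega) le_rfl hqn
  have hsg := hSGA K J s q hJ hq0 hqn2 (hBP (s + 2) (by omega) q hq0)
  have h2 : hf J (s + 2) = k := hk.symm
  rw [h2, hJt] at hsg
  have hic2 : i + c = s + 1 + 1 := by
    by_contra hne
    have := f6 (by omega)
    omega
  obtain ⟨n, hn, θ, hθ, hθ0, hθJ⟩ := hCHJ K J s i q hJ hLv (by rw [h2]; exact hJt) (by omega)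
    (by omega) (fun l hl hl0 => hx0 l hl hl0) (fun l hl hl0 => (hx1 l hl hl0).2) hq0 hqn hqn2
    (hBP (s + 2) (by omega) q hq0) (hBP (s + 1) (by omega) q hq0)
  have h3 := hHFB K J n i θ hJ hn hθ hθ0 hθJ
  have h4 := hNME b c (s + 1) i (hf J) hb2 hbc hi1 f1 hic2 h3
    (fun u _ hu => hGR u hu J hJ hfJ hgJ hhJ)
  have h5 := f8 hic2
  omega

theorem t_gro (hST3 : ST3Stmt) (hEXT : EXTStmt) : GROStmt := by
  intro K _ _ a b c f g h hT t
  induction t using Nat.strong_induction_on with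
  | _ t ih =>
    intro J hJ hfJ hgJ hhJ
    by_contra hcon
    obtain ⟨J', hX⟩ := hEXT K b c f g h t J hJ hfJ hgJ hhJ (by omega)
    exact hST3 K a b c f g h t J' hT ih hX

end Pool.EG3
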