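import Pool.Agent.H45.EG3.NPZ
import Pool.Agent.H45.EG3.S3

/-!
# EG3, row T3M
-/

set_option autoImplicit false

namespace Pool.EG3

open MvPolynomial Pool.EGH

/-- T3M. -/
theorem t_t3m : T3MStmt := by
  intro K _ a b c ha hab hbc
  have h2b : 2 ≤ b := ha.trans hab
  refine ⟨ha, hab, hbc, mono_pow 0 a, mono_pow 1 b, mono_pow 2 c,
    pow_ne_zero _ (X_ne_zero 0), ?_, ?_⟩
  · intro q hq h1 h2 h3
    simp only [map_pow, eval_X] at h1 h2 h3
    have e1 : q 0 = 0 := by
      by_contra h
      exact pow_ne_zero a h h1
    have e2 : q 1 = 0 := by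
      by_contra h
      exact pow_ne_zero b h h2
    have e3 : q 2 = 0 := by
      by_contra h
      exact pow_ne_zero c h h3
    apply hq
    funext i
    fin_cases i
    · exact e1
    · exact e2
    · exact e3
  · refine ⟨X 2, X_mem1 2, X_ne_zero 2, ?_⟩
    intro q hq h1 h2 h3
    simp only [map_pow, eval_X] at h1 h2 h3
    have e1 : q 0 = 0 := by
      by_contra h
      exact pow_ne_zero a h h2
    have e2 : q 1 = 0 := by
      by_contra h
      exact pow_ne_zero b h h3
    apply hq
    funext i
    fin_cases i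
    · exact e1
    · exact e2
    · exact h1

end Pool.EG3
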