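import Pool.Agent.H45.EG3.Defs

/-!
# EG3: statements of the modules, part 1 (growth in three variables)
-/

set_option autoImplicit false

namespace Pool.EG3

open MvPolynomial Pool.EGH

/-! ### Numerical statements -/

/-- NMA: the numerical theorem of step 2. -/
def NMAStmt : Prop :=
  ∀ (a b c t e : ℕ) (B : ℕ → ℕ), 2 ≤ a → a ≤ b → b ≤ c → 1 ≤ e → e ≤ a →
    (∀ u ≤ e, 2 * B u = u * (u + 1)) →
    (∀ u, e ≤ u + 1 → u ≤ t → B u + B (u + 2) ≤ 2 * B (u + 1)) →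
    (∀ u, b ≤ u + 1 → u + 2 ≤ c → u ≤ t →
      B u + B (u + 2) + 1 ≤ 2 * B (u + 1) ∨ (B u = B (u + 1) ∧ B (u + 1) = B (u + 2))) →
    (∀ u, c ≤ u + 1 → u ≤ t → B u + B (u + 2) + 2 ≤ 2 * B (u + 1)) →
    ls b c (t + 1) (B (t + 2)) ≤ B (t + 1)

/-- JMA: the places where the loss increases, high degrees. -/
def JMAStmt : Prop :=
  ∀ (b c t k : ℕ), 2 ≤ b → b ≤ c → 1 ≤ k → b + c ≤ t + 1 →
    ls b c (t + 1) (k - 1) + 2 ≤ ls b c (t + 1) k →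
    Nn b c (t + 1) = 0 ∧ ls b c (t + 1) k ≤ ls b c t k

/-- JMB: the places where the loss increases. -/
def JMBStmt : Prop :=
  ∀ (b c t k : ℕ), 2 ≤ b → b ≤ c → 1 ≤ k → t + 2 ≤ b + c →
    ls b c (t + 1) (k - 1) + 2 ≤ ls b c (t + 1) k →
    ∃ i, i + c ≤ t + 1 ∧ k = Rr b c (t + 1) i + 1 ∧ 1 ≤ Nn b c (t + 1) + i

/-- JMC: the values of the loss near these places. -/
def JMCStmt : Prop :=
  ∀ (b c t k i : ℕ), 2 ≤ b → b ≤ c → t + 2 ≤ b + c → i + c ≤ t + 1 →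
    k = Rr b c (t + 1) i + 1 → 1 ≤ Nn b c (t + 1) + i →
    i + 1 ≤ b ∧ ls b c (t + 1) k ≤ k + i + 1 ∧
    (∀ x, 1 ≤ x → x ≤ Nn b c (t + 1) → x ≤ k → k - x + i ≤ ls b c t (k - x)) ∧
    k + i ≤ ls b c t k ∧ k + i + i ≤ ls b c t (k + i) ∧
    (i + c < t + 1 → k + i + i + 1 ≤ ls b c t (k + i)) ∧
    (∀ r, 1 ≤ r → r < i → k - r + i ≤ ls b c (t + 1) (k - r)) ∧
    (i + c = t + 1 → k + i = Rr b c t i + 1)

/-- NME: the last numerical step. -/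
def NMEStmt : Prop :=
  ∀ (b c t i : ℕ) (H : ℕ → ℕ), 2 ≤ b → b ≤ c → 1 ≤ i → i + 1 ≤ b → i + c = t + 1 →
    2 * (H i + 1) ≤ (i + 1) * (i + 2) →
    (∀ u, i ≤ u → u < t → ls b c (u + 1) (H (u + 1)) ≤ H u) → H t ≤ Rr b c t i

/-! ### Points and lines -/

/-- PTI: the forms which vanish at a point. -/
def PTIStmt : Prop :=
  ∀ (K : Type) [Field K] (q : Fin 3 → K), q ≠ 0 →
    ∃ p₁ ∈ fm K 3 1, ∃ p₂ ∈ fm K 3 1, ∃ z ∈ fm K 3 1, eval q p₁ = 0 ∧ eval q p₂ = 0 ∧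
      eval q z = 1 ∧
      (∀ l ∈ fm K 3 1, eval q l = 0 → ∃ α β : K, l = C α * p₁ + C β * p₂) ∧
      (∀ α β : K, C α * p₁ + C β * p₂ = (0 : PR K 3) → α = 0 ∧ β = 0) ∧
      (∀ l ∈ fm K 3 1, ∃ α β γ : K, l = C α * p₁ + C β * p₂ + C γ * z) ∧
      ∀ (u : ℕ) (F : PR K 3), F ∈ fm K 3 (u + 1) → eval q F = 0 →
        ∃ F₁ ∈ fm K 3 u, ∃ F₂ ∈ fm K 3 u, F = p₁ * F₁ + p₂ * F₂

/-- LNI: a line. -/
def LNIStmt : Prop :=
  ∀ (K : Type) [Field K] (l : PR K 3), l ∈ fm K 3 1 → l ≠ 0 →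
    ∃ y ∈ fm K 3 1, ∃ z ∈ fm K 3 1,
      (∀ m ∈ fm K 3 1, ∃ α β γ : K, m = C α * l + C β * y + C γ * z) ∧
      (∀ α β : K, (α ≠ 0 ∨ β ≠ 0) → ∃ q : Fin 3 → K, q ≠ 0 ∧ eval q l = 0 ∧
        eval q (C α * y + C β * z) = 0 ∧
        ∀ m ∈ fm K 3 1, eval q m = 0 → ∃ γ δ : K, m = C γ * l + C δ * (C α * y + C β * z)) ∧
      ∀ q : Fin 3 → K, q ≠ 0 → eval q l = 0 → ∃ α β : K, (α ≠ 0 ∨ β ≠ 0) ∧
        eval q (C α * y + C β * z) = 0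

/-- LMT: two lines meet. -/
def LMTStmt : Prop :=
  ∀ (K : Type) [Field K] (l m : PR K 3), l ∈ fm K 3 1 → m ∈ fm K 3 1 →
    ∃ q : Fin 3 → K, q ≠ 0 ∧ eval q l = 0 ∧ eval q m = 0

/-- NPZ: descent of the condition at a point. -/
def NPZStmt : Prop :=
  ∀ (K : Type) [Field K] (J : Ideal (PR K 3)) (t : ℕ), Lv J t → ∀ q : Fin 3 → K, q ≠ 0 →
    ∀ u v : ℕ, u ≤ v → v ≤ t → NPq J v q → NPq J u q

/-- BPT: base points of an ideal containing the three forms. -/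
def BPTStmt : Prop :=
  ∀ (K : Type) [Field K] (a b c : ℕ) (f g h : PR K 3) (J : Ideal (PR K 3)), T3 a b c f g h →
    f ∈ J → g ∈ J → h ∈ J →
    (∀ u, c ≤ u → ∀ q : Fin 3 → K, q ≠ 0 → BPq J u q) ∧
    ∃ l ∈ fm K 3 1, l ≠ 0 ∧ ∀ q : Fin 3 → K, q ≠ 0 → eval q l = 0 → ∀ u, b ≤ u → BPq J u q

/-- PEL: peeling. -/
def PELStmt : Prop :=
  ∀ (K : Type) [Field K] (J : Ideal (PR K 3)) (t : ℕ) (q : Fin 3 → K) (F : PR K 3), Hg J →
    Lv J t → q ≠ 0 → F ∈ fm K 3 t → F ∉ J →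
    (∀ l ∈ fm K 3 1, eval q l = 0 → l * F ∈ J) →
    ∃ J' : Ideal (PR K 3), Hg J' ∧ J ≤ J' ∧ hf J' (t + 1) + 1 = hf J (t + 1) ∧
      hf J' t + 1 = hf J t

/-- ANC: the ancestor ideal. -/
def ANCStmt : Prop :=
  ∀ (K : Type) [Field K] (J : Ideal (PR K 3)) (t : ℕ), Hg J →
    ∃ J' : Ideal (PR K 3), Hg J' ∧ J ≤ J' ∧ Lv J' t ∧ hf J' (t + 1) = hf J (t + 1)

/-- EXT: an extremal counterexample. -/
def EXTStmt : Prop :=
  ∀ (K : Type) [Field K] (b c : ℕ) (f g h : PR K 3) (t : ℕ) (J : Ideal (PR K 3)), Hg J →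
    f ∈ J → g ∈ J → h ∈ J → hf J t + 1 ≤ ls b c (t + 1) (hf J (t + 1)) →
    ∃ J' : Ideal (PR K 3), XT b c f g h t J'

/-- SGA: the complex at a point. -/
def SGAStmt : Prop :=
  ∀ (K : Type) [Field K] (J : Ideal (PR K 3)) (u : ℕ) (q : Fin 3 → K), Hg J → q ≠ 0 →
    NPq J u q → BPq J (u + 2) q → hf J u + hf J (u + 2) ≤ 2 * hf J (u + 1)

/-- SG0: the complex at a point, lowest degree. -/
def SG0Stmt : Prop :=
  ∀ (K : Type) [Field K] (J : Ideal (PR K 3)) (F : PR K 3), Hg J → F ∈ J → F ∈ fm K 3 1 →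
    F ≠ 0 → hf J 1 ≤ 2 * hf J 0

/-- INI: the initial degree. -/
def INIStmt : Prop :=
  ∀ (K : Type) [Field K] (J : Ideal (PR K 3)) (t a : ℕ) (f : PR K 3), Hg J → f ∈ J →
    f ∈ fm K 3 a → f ≠ 0 → 1 ≤ a → (1 : PR K 3) ∉ J →
    ∃ e, 1 ≤ e ∧ e ≤ a ∧ (∀ u < e, 2 * hf J u = (u + 1) * (u + 2)) ∧
      ∀ u, e ≤ u → u ≤ t + 1 → ∃ F ∈ J, F ∈ fm K 3 u ∧ F ≠ 0

/-- NVP: a nonzero form does not vanish at some point. -/
def NVPStmt : Prop :=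
  ∀ (K : Type) [Field K] [Infinite K] (u : ℕ) (F : PR K 3), F ∈ fm K 3 u → F ≠ 0 →
    ∃ q : Fin 3 → K, q ≠ 0 ∧ eval q F ≠ 0

/-! ### Pencils of linear maps -/

/-- EV1: a pencil of linear maps to a space of at most the same dimension. -/
def EV1Stmt : Prop :=
  ∀ (K : Type) [Field K] [IsAlgClosed K] (E F : Type) [AddCommGroup E] [Module K E]
    [AddCommGroup F] [Module K F] [Module.Finite K E] [Module.Finite K F] (S T : E →ₗ[K] F),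
    Module.finrank K F ≤ Module.finrank K E → Module.finrank K E ≠ 0 →
    ∃ α β : K, (α ≠ 0 ∨ β ≠ 0) ∧ ∃ v : E, v ≠ 0 ∧ α • S v + β • T v = 0

/-- EV2: a pencil of linear maps from a space of at most the same dimension. -/
def EV2Stmt : Prop :=
  ∀ (K : Type) [Field K] [IsAlgClosed K] (E F : Type) [AddCommGroup E] [Module K E]
    [AddCommGroup F] [Module K F] [Module.Finite K E] [Module.Finite K F] (S T : E →ₗ[K] F),
    Module.finrank K E ≤ Module.finrank K F → Module.finrank K F ≠ 0 →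
    ∃ α β : K, (α ≠ 0 ∨ β ≠ 0) ∧ ∃ w : F, ∀ v : E, α • S v + β • T v ≠ w

/-- WNG: a singular pencil. -/
def WNGStmt : Prop :=
  ∀ (K : Type) [Field K] [Infinite K] (E F : Type) [AddCommGroup E] [Module K E]
    [AddCommGroup F] [Module K F] [Module.Finite K E] [Module.Finite K F] (S T : E →ₗ[K] F),
    (∀ α β : K, (α ≠ 0 ∨ β ≠ 0) → ∃ v : E, v ≠ 0 ∧ α • S v + β • T v = 0) →
    ∃ E' : Submodule K E,
      Module.finrank K ↥(E'.map S ⊔ E'.map T) + 1 ≤ Module.finrank K E'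

/-! ### Restriction to lines -/

/-- LN0: the restriction to a line vanishes from some degree on. -/
def LN0Stmt : Prop :=
  ∀ (K : Type) [Field K] (N : ℕ) (J : Ideal (PR K N)) (m : ℕ), Hg J → hf J m = 0 →
    hf J (m + 1) = 0

/-- LN2: restriction to a line without base points. -/
def LN2Stmt : Prop :=
  ∀ (K : Type) [Field K] [IsAlgClosed K] (J : Ideal (PR K 3)) (l : PR K 3) (m : ℕ), Hg J →
    l ∈ fm K 3 1 → l ≠ 0 →
    (∀ q : Fin 3 → K, q ≠ 0 → eval q l = 0 → BPq J (m + 1) q) →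
    hf (J ⊔ Ideal.span {l}) m ≠ 0 →
    hf (J ⊔ Ideal.span {l}) (m + 1) + 1 ≤ hf (J ⊔ Ideal.span {l}) m

/-- LNK: the elements killed by a linear form. -/
def LNKStmt : Prop :=
  ∀ (K : Type) [Field K] [IsAlgClosed K] (J : Ideal (PR K 3)) (l : PR K 3) (u : ℕ), Hg J →
    l ∈ fm K 3 1 → l ≠ 0 →
    (∀ q : Fin 3 → K, q ≠ 0 → eval q l = 0 → NPq J u q) →
    hf (clI J l) u + 1 ≤ hf J u →
    hf J u + hf (clI J l) (u + 1) + 1 ≤ hf J (u + 1) + hf (clI J l) u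

/-- LNB: a form which is not divisible by a linear form. -/
def LNBStmt : Prop :=
  ∀ (K : Type) [Field K] (J : Ideal (PR K 3)) (l F : PR K 3) (e : ℕ), Hg J →
    l ∈ fm K 3 1 → l ≠ 0 → F ∈ J → F ∈ fm K 3 e → ¬ l ∣ F →
    ∀ m, hf (J ⊔ Ideal.span {l}) m ≤ e

/-- LN1: the elements killed by a linear form, dual version. -/
def LN1Stmt : Prop :=
  ∀ (K : Type) [Field K] [IsAlgClosed K] (a b c : ℕ) (f g h : PR K 3) (J : Ideal (PR K 3)),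
    T3 a b c f g h → Hg J → f ∈ J → g ∈ J → h ∈ J → ∀ l ∈ fm K 3 1, l ≠ 0 →
    ∀ m, c ≤ m → hf (J ⊔ Ideal.span {l}) m ≤ Nn b c m

/-- SGB: the second difference, second range. -/
def SGBStmt : Prop :=
  ∀ (K : Type) [Field K] [IsAlgClosed K] (J : Ideal (PR K 3)) (l : PR K 3) (u : ℕ), Hg J →
    l ∈ fm K 3 1 → l ≠ 0 →
    (∀ q : Fin 3 → K, q ≠ 0 → eval q l = 0 → NPq J u q) →
    (∀ q : Fin 3 → K, q ≠ 0 → eval q l = 0 → BPq J (u + 2) q) →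
    hf J u + hf J (u + 2) + 1 ≤ 2 * hf J (u + 1) ∨
      (hf J u = hf J (u + 1) ∧ hf J (u + 1) = hf J (u + 2))

/-- KER: surjective multiplications. -/
def KERStmt : Prop :=
  ∀ (K : Type) [Field K] [IsAlgClosed K] (J : Ideal (PR K 3)) (t : ℕ), Hg J →
    (∀ l ∈ fm K 3 1, l ≠ 0 → hf (J ⊔ Ideal.span {l}) (t + 1) = 0) → hf J (t + 1) ≠ 0 →
    hf J (t + 1) + 1 ≤ hf J t

/-- KRP: a line all of whose points are bad. -/
def KRPStmt : Prop :=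
  ∀ (K : Type) [Field K] [IsAlgClosed K] (J : Ideal (PR K 3)) (l : PR K 3) (t : ℕ), Hg J →
    Lv J t → l ∈ fm K 3 1 → l ≠ 0 → hf (J ⊔ Ideal.span {l}) (t + 1) = 0 →
    (∀ q : Fin 3 → K, q ≠ 0 → eval q l = 0 → ¬ NPq J t q) →
    ∃ (J' : Ideal (PR K 3)) (r : ℕ), Hg J' ∧ J ≤ J' ∧ 1 ≤ r ∧
      r + 1 + hf J (t + 1) ≤ hf J t ∧ hf J' (t + 1) + r = hf J (t + 1) ∧
      hf J' t + r + 1 ≤ hf J t

/-! ### The lemma on second differences -/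

/-- LMM: the lemma for vector spaces. -/
def LMMStmt : Prop :=
  ∀ (K : Type) [Field K] [IsAlgClosed K] (U₀ U₁ U₂ : Type) [AddCommGroup U₀] [Module K U₀]
    [AddCommGroup U₁] [Module K U₁] [AddCommGroup U₂] [Module K U₂] [Module.Finite K U₀]
    [Module.Finite K U₁] [Module.Finite K U₂] (X : Fin 3 → U₀ →ₗ[K] U₁)
    (Y : Fin 3 → U₁ →ₗ[K] U₂),
    (∀ i j u, Y i (X j u) = Y j (X i u)) →
    (∀ q : Fin 3 → K, q ≠ 0 → ∀ u : U₀,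
      (∀ p : Fin 3 → K, ∑ i, p i * q i = 0 → ∑ i, p i • X i u = 0) → u = 0) →
    (∀ q : Fin 3 → K, q ≠ 0 → ∀ w : U₂, w ∈ Submodule.span K
      {w : U₂ | ∃ (p : Fin 3 → K) (u : U₁), ∑ i, p i * q i = 0 ∧ w = ∑ i, p i • Y i u}) →
    Module.finrank K U₁ ≠ 0 →
    Module.finrank K U₀ + Module.finrank K U₂ + 2 ≤ 2 * Module.finrank K U₁

/-- SGC: the second difference, third range. -/
def SGCStmt : Prop :=
  ∀ (K : Type) [Field K] [IsAlgClosed K] (J : Ideal (PR K 3)) (u : ℕ), Hg J →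
    (∀ q : Fin 3 → K, q ≠ 0 → NPq J u q) → (∀ q : Fin 3 → K, q ≠ 0 → BPq J (u + 2) q) →
    hf J (u + 1) ≠ 0 → hf J u + hf J (u + 2) + 2 ≤ 2 * hf J (u + 1)

/-! ### The lemma of Cayley and Hamilton -/

/-- CHA: the lemma for vector spaces. -/
def CHAStmt : Prop :=
  ∀ (K : Type) [Field K] [IsAlgClosed K] (V M N : Type) [AddCommGroup V] [Module K V]
    [AddCommGroup M] [Module K M] [AddCommGroup N] [Module K N] [Module.Finite K V]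
    [Module.Finite K M] (x y z : V →ₗ[K] M) (x' y' z' : M →ₗ[K] N) (i : ℕ),
    (∀ v, x' (y v) = y' (x v)) → (∀ v, x' (z v) = z' (x v)) → (∀ v, y' (z v) = z' (y v)) →
    (∀ α β : K, (α ≠ 0 ∨ β ≠ 0) → ∀ v, α • x v + β • z v = 0 → v = 0) →
    (∀ m, ∃ v w, m = x v + z w) →
    (∀ m m', x' m + z' m' = 0 → ∃ v, m = z v ∧ m' = - x v) →
    Module.finrank K M = Module.finrank K V + i →
    ∃ n ≤ i, ∃ θ ∈ fm K 3 n, θ ≠ 0 ∧
      ∀ (Ω : Type) [AddCommGroup Ω] [Module K Ω] [Module (PR K 3) Ω]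
        [IsScalarTower K (PR K 3) Ω] (ι₀ : V →ₗ[K] Ω) (ι₁ : M →ₗ[K] Ω),
        (∀ v, (X 0 : PR K 3) • ι₀ v = ι₁ (x v)) → (∀ v, (X 1 : PR K 3) • ι₀ v = ι₁ (y v)) →
        (∀ v, (X 2 : PR K 3) • ι₀ v = ι₁ (z v)) → ∀ v, θ • ι₀ v = 0

/-- CHJ: the lemma for ideals. -/
def CHJStmt : Prop :=
  ∀ (K : Type) [Field K] [IsAlgClosed K] (J : Ideal (PR K 3)) (t i : ℕ) (q : Fin 3 → K),
    Hg J → Lv J (t + 1) → hf J (t + 1) = hf J (t + 2) + i → hf J t = hf J (t + 1) + i →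
    i ≤ t + 2 →
    (∀ l ∈ fm K 3 1, l ≠ 0 → hf (J ⊔ Ideal.span {l}) (t + 2) = 0) →
    (∀ l ∈ fm K 3 1, l ≠ 0 → hf (J ⊔ Ideal.span {l}) (t + 1) = 0) →
    q ≠ 0 → NPq J (t + 1) q → NPq J t q → BPq J (t + 2) q → BPq J (t + 1) q →
    ∃ n ≤ i, ∃ θ ∈ fm K 3 n, θ ≠ 0 ∧ θ ∈ J

/-- HFB: the dimension when there is a form of small degree. -/
def HFBStmt : Prop :=
  ∀ (K : Type) [Field K] (J : Ideal (PR K 3)) (n i : ℕ) (θ : PR K 3), Hg J → n ≤ i →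
    θ ∈ fm K 3 n → θ ≠ 0 → θ ∈ J → 2 * (hf J i + 1) ≤ (i + 1) * (i + 2)

/-- HFZ: the unit ideal. -/
def HFZStmt : Prop :=
  ∀ (K : Type) [Field K] (N : ℕ) (J : Ideal (PR K N)) (u : ℕ), (1 : PR K N) ∈ J → hf J u = 0

/-! ### The growth theorem -/

/-- ST2: ideals without bad points. -/
def ST2Stmt : Prop :=
  ∀ (K : Type) [Field K] [IsAlgClosed K] (a b c : ℕ) (f g h : PR K 3) (t : ℕ)
    (J : Ideal (PR K 3)), T3 a b c f g h → Hg J → f ∈ J → g ∈ J → h ∈ J → Lv J t →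
    (∀ u ≤ t, ∀ q : Fin 3 → K, q ≠ 0 → NPq J u q) →
    ls b c (t + 1) (hf J (t + 1)) ≤ hf J t

/-- ST3: extremal counterexamples. -/
def ST3Stmt : Prop :=
  ∀ (K : Type) [Field K] [IsAlgClosed K] (a b c : ℕ) (f g h : PR K 3) (t : ℕ)
    (J : Ideal (PR K 3)), T3 a b c f g h → (∀ u < t, GR a b c f g h u) → XT b c f g h t J →
    False

/-- GRO: the growth theorem. -/
def GROStmt : Prop :=
  ∀ (K : Type) [Field K] [IsAlgClosed K] (a b c : ℕ) (f g h : PR K 3), T3 a b c f g h →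
    ∀ t, GR a b c f g h t

end Pool.EG3
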