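import Pool.Agent.H45.EG3.S1

/-!
# EG3: statements of the modules, part 2 (modules over the polynomial ring in three variables)
-/

set_option autoImplicit false

namespace Pool.EG3

open MvPolynomial Pool.EGH

/-! ### Modules over the polynomial ring -/

/-- KOS: the Koszul complex is exact in the middle. -/
def KOSStmt : Prop :=
  ∀ (K : Type) [Field K] (N : ℕ) (z : Fin 3 → Fin 3 → PR K 3),
    (∀ i j k, X k ^ N * z i j - X j ^ N * z i k + X i ^ N * z j k = 0) →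
    ∃ y : Fin 3 → PR K 3, ∀ i j, z i j = X j ^ N * y i - X i ^ N * y j

/-- KO1: the Koszul complex is exact at the first place. -/
def KO1Stmt : Prop :=
  ∀ (K : Type) [Field K] (N : ℕ) (w : Fin 3 → PR K 3),
    (∀ i j, X j ^ N * w i = X i ^ N * w j) → ∃ v : PR K 3, ∀ i, w i = X i ^ N * v

/-- SAT: ideals generated by two elements without common factor are saturated. -/
def SATStmt : Prop :=
  ∀ (K : Type) [Field K] (N : ℕ) (θ a v : PR K 3), Irreducible θ → ¬ θ ∣ a →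
    (∀ i, X i ^ N * v ∈ Ideal.span {θ, a}) → v ∈ Ideal.span {θ, a}

/-- NUL: an ideal without zeros outside the origin. -/
def NULStmt : Prop :=
  ∀ (K : Type) [Field K] [IsAlgClosed K] (I : Ideal (PR K 3)),
    (∀ q : Fin 3 → K, q ≠ 0 → ∃ F ∈ I, eval q F ≠ 0) → ∃ N : ℕ, ∀ i, X i ^ N ∈ I

/-- INJ: matrices which are injective at all points outside the origin. -/
def INJStmt : Prop :=
  ∀ (K : Type) [Field K] [IsAlgClosed K] (m n : ℕ) (A : Matrix (Fin m) (Fin n) (PR K 3)),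
    (∀ q : Fin 3 → K, q ≠ 0 → ∀ v : Fin n → K, (A.map (eval q)).mulVec v = 0 → v = 0) →
    ∃ N : ℕ, ∀ (I : Ideal (PR K 3)) (v : Fin n → PR K 3), (∀ j, A.mulVec v j ∈ I) →
      ∀ i j, X i ^ N * v j ∈ I

/-- SUR: matrices which are surjective at all points outside the origin. -/
def SURStmt : Prop :=
  ∀ (K : Type) [Field K] [IsAlgClosed K] (m n : ℕ) (A : Matrix (Fin m) (Fin n) (PR K 3)),
    (∀ q : Fin 3 → K, q ≠ 0 → ∀ e : Fin m → K, ∃ v, (A.map (eval q)).mulVec v = e) →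
    ∃ N : ℕ, ∀ (i : Fin 3) (e : Fin m → PR K 3), ∃ v, A.mulVec v = fun j => X i ^ N * e j

/-- RKF: the rank of the homology. -/
def RKFStmt : Prop :=
  ∀ (K : Type) [Field K] (n₀ n₂ : ℕ) (A : Matrix (Fin (n₀ + n₂ + 1)) (Fin n₀) (PR K 3))
    (B : Matrix (Fin n₂) (Fin (n₀ + n₂ + 1)) (PR K 3)), B * A = 0 →
    (∀ v, A.mulVec v = 0 → v = 0) →
    (∃ d : PR K 3, d ≠ 0 ∧ ∀ e, ∃ v, B.mulVec v = d • e) →
    (∃ ω, B.mulVec ω = 0 ∧ ∀ (c : PR K 3) (v : Fin n₀ → PR K 3), c • ω = A.mulVec v → c = 0) ∧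
    ∀ ω κ, B.mulVec ω = 0 → B.mulVec κ = 0 →
      (∀ (c : PR K 3) (v : Fin n₀ → PR K 3), c • ω = A.mulVec v → c = 0) →
      ∃ (b a : PR K 3) (v : Fin n₀ → PR K 3), b ≠ 0 ∧ b • κ = a • ω + A.mulVec v

/-- FRE: the kernel is free. -/
def FREStmt : Prop :=
  ∀ (K : Type) [Field K] [IsAlgClosed K] (n₀ n₂ : ℕ)
    (A : Matrix (Fin (n₀ + n₂ + 1)) (Fin n₀) (PR K 3))
    (B : Matrix (Fin n₂) (Fin (n₀ + n₂ + 1)) (PR K 3)), B * A = 0 →
    (∀ q : Fin 3 → K, q ≠ 0 → ∀ v : Fin n₀ → K, (A.map (eval q)).mulVec v = 0 → v = 0) →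
    (∀ q : Fin 3 → K, q ≠ 0 → ∀ e : Fin n₂ → K, ∃ v, (B.map (eval q)).mulVec v = e) →
    ∃ ω, B.mulVec ω = 0 ∧
      (∀ κ, B.mulVec κ = 0 → ∃ (a : PR K 3) (v : Fin n₀ → PR K 3), κ = a • ω + A.mulVec v) ∧
      ∀ (a : PR K 3) (v : Fin n₀ → PR K 3), a • ω + A.mulVec v = 0 → a = 0 ∧ v = 0

/-- RES: the cokernel is zero. -/
def RESStmt : Prop :=
  ∀ (K : Type) [Field K] [IsAlgClosed K] (n₀ n₂ : ℕ)
    (A : Matrix (Fin (n₀ + n₂ + 1)) (Fin n₀) (PR K 3))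
    (B : Matrix (Fin n₂) (Fin (n₀ + n₂ + 1)) (PR K 3)), B * A = 0 →
    (∀ q : Fin 3 → K, q ≠ 0 → ∀ v : Fin n₀ → K, (A.map (eval q)).mulVec v = 0 → v = 0) →
    (∀ q : Fin 3 → K, q ≠ 0 → ∀ e : Fin n₂ → K, ∃ v, (B.map (eval q)).mulVec v = e) →
    ∀ e : Fin n₂ → PR K 3, ∃ w, B.mulVec w = e

/-- LM0: the second difference is positive. -/
def LM0Stmt : Prop :=
  ∀ (K : Type) [Field K] [IsAlgClosed K] (U₀ U₁ U₂ : Type) [AddCommGroup U₀] [Module K U₀]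
    [AddCommGroup U₁] [Module K U₁] [AddCommGroup U₂] [Module K U₂] [Module.Finite K U₀]
    [Module.Finite K U₁] [Module.Finite K U₂] (X : Fin 3 → U₀ →ₗ[K] U₁)
    (Y : Fin 3 → U₁ →ₗ[K] U₂),
    (∀ i j u, Y i (X j u) = Y j (X i u)) →
    (∀ q : Fin 3 → K, q ≠ 0 → ∀ u : U₀,
      (∀ p : Fin 3 → K, ∑ i, p i * q i = 0 → ∑ i, p i • X i u = 0) → u = 0) →
    (∀ q : Fin 3 → K, q ≠ 0 → ∀ w : U₂, w ∈ Submodule.span K
      {w : U₂ | ∃ (p : Fin 3 → K) (u : U₁), ∑ i, p i * q i = 0 ∧ w = ∑ i, p i • Y i u}) →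
    Module.finrank K U₁ ≠ 0 →
    Module.finrank K U₀ + Module.finrank K U₂ + 1 ≤ 2 * Module.finrank K U₁

/-! ### Pencils over `K[s]` -/

section Pencil

open Polynomial

/-- The polynomial vectors `v` with `x v = (z - s x) w` for some polynomial vector `w`. -/
def QQ {K : Type} [Field K] {m k : ℕ} (x z : Matrix (Fin m) (Fin k) K) :
    Submodule K[X] (Fin k → K[X]) where
  carrier := {v | ∃ w : Fin k → K[X],
    (x.map Polynomial.C).mulVec v =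
      (z.map Polynomial.C - (Polynomial.X : K[X]) • x.map Polynomial.C).mulVec w}
  add_mem' := by
    rintro v v' ⟨w, hw⟩ ⟨w', hw'⟩
    exact ⟨w + w', by rw [Matrix.mulVec_add, Matrix.mulVec_add, hw, hw']⟩
  zero_mem' := ⟨0, by rw [Matrix.mulVec_zero, Matrix.mulVec_zero]⟩
  smul_mem' := by
    rintro p v ⟨w, hw⟩
    exact ⟨p • w, by rw [Matrix.mulVec_smul, Matrix.mulVec_smul, hw]⟩

/-- The matrix `A + s B`. -/
noncomputable def PM {K : Type} [Field K] {k : ℕ} (A B : Matrix (Fin k) (Fin k) K) :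
    Matrix (Fin k) (Fin k) K[X] :=
  A.map Polynomial.C + (Polynomial.X : K[X]) • B.map Polynomial.C

/-- All members of the pencil are injective. -/
def PJ {K : Type} [Field K] {m k : ℕ} (x z : Matrix (Fin m) (Fin k) K) : Prop :=
  ∀ α β : K, (α ≠ 0 ∨ β ≠ 0) → ∀ v, (α • x + β • z).mulVec v = 0 → v = 0

/-- CMB: stability. -/
def CMBStmt : Prop :=
  ∀ (K : Type) [Field K] [IsAlgClosed K] (m k : ℕ) (x y z : Matrix (Fin m) (Fin k) K)
    (A B : Matrix (Fin k) (Fin k) K), PJ x z → y = x * A + z * B →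
    (∀ v w, x.mulVec v = z.mulVec w → ∃ u, y.mulVec v = z.mulVec u ∧ y.mulVec w = x.mulVec u) →
    ∀ v ∈ QQ x z, (PM A B).mulVec v ∈ QQ x z

/-- CMC: the quotient is torsion free. -/
def CMCStmt : Prop :=
  ∀ (K : Type) [Field K] [IsAlgClosed K] (m k : ℕ) (x z : Matrix (Fin m) (Fin k) K), PJ x z →
    ∀ (p : K[X]) (v : Fin k → K[X]), p ≠ 0 → p • v ∈ QQ x z → v ∈ QQ x z

/-- CMD: the minimal polynomial. -/
def CMDStmt : Prop :=
  ∀ (K : Type) [Field K] [IsAlgClosed K] (k i : ℕ) (x y z : Matrix (Fin (k + i)) (Fin k) K)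
    (A B : Matrix (Fin k) (Fin k) K), PJ x z → (∀ m, ∃ v w, m = x.mulVec v + z.mulVec w) →
    (∀ v ∈ QQ x z, (PM A B).mulVec v ∈ QQ x z) →
    (∀ (p : K[X]) (v : Fin k → K[X]), p ≠ 0 → p • v ∈ QQ x z → v ∈ QQ x z) →
    ∃ μ : K[X][X], μ.Monic ∧ μ.natDegree ≤ i ∧ μ ∣ (PM A B).charpoly ∧
      ∀ v, (Polynomial.aeval (PM A B) μ).mulVec v ∈ QQ x z

/-- CME: the degrees of the coefficients. -/
def CMEStmt : Prop :=
  ∀ (K : Type) [Field K] [Infinite K] (k : ℕ) (A B : Matrix (Fin k) (Fin k) K) (μ : K[X][X]),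
    μ.Monic → μ ∣ (PM A B).charpoly →
    ∀ j ≤ μ.natDegree, (μ.coeff j).natDegree + j ≤ μ.natDegree

/-- CMF: homogenization. -/
def CMFStmt : Prop :=
  ∀ (K : Type) [Field K] (m k : ℕ) (x y z : Matrix (Fin m) (Fin k) K)
    (A B : Matrix (Fin k) (Fin k) K) (μ : K[X][X]), PJ x z → y = x * A + z * B → μ.Monic →
    (∀ j ≤ μ.natDegree, (μ.coeff j).natDegree + j ≤ μ.natDegree) →
    (∀ v, (Polynomial.aeval (PM A B) μ).mulVec v ∈ QQ x z) →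
    ∃ θ ∈ fm K 3 μ.natDegree, θ ≠ 0 ∧
      ∀ (Ω : Type) [AddCommGroup Ω] [Module K Ω] [Module (PR K 3) Ω]
        [IsScalarTower K (PR K 3) Ω] (ι₀ : (Fin k → K) →ₗ[K] Ω) (ι₁ : (Fin m → K) →ₗ[K] Ω),
        (∀ v, (MvPolynomial.X 0 : PR K 3) • ι₀ v = ι₁ (x.mulVec v)) →
        (∀ v, (MvPolynomial.X 1 : PR K 3) • ι₀ v = ι₁ (y.mulVec v)) →
        (∀ v, (MvPolynomial.X 2 : PR K 3) • ι₀ v = ι₁ (z.mulVec v)) → ∀ v, θ • ι₀ v = 0

end Pencil

end Pool.EG3
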