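import Pool.Agent.H24.EGH.HSB
import Pool.Agent.H29.EGH.HGA
import Pool.Agent.H29.EGH.HSR
import Pool.Agent.H45.EGH.GPM
import Pool.Agent.H45.EGH.LSH
import Pool.Agent.H50.EGH.COL
import Pool.Agent.H61.EGH.FIN
import Pool.Agent.H85.EGH.GPD
import Pool.Agent.H93.EGH.RLF
import Pool.Agent.H94.EGH.LIN
import Pool.Agent.H94.EGC.LXO
import Pool.Agent.H3.EGC.HFS
import Pool.Agent.H6.EGC.LXM
import Pool.Agent.H85.EGC.TR1
import Pool.Agent.H85.EGC.TR3
import Pool.Agent.H86.EGC.MNI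
import Pool.Agent.H45.EG3.ST
import Pool.Agent.H45.EG3.BIM
import Pool.Agent.H45.EG3.PTI
import Pool.Agent.H45.EG3.LNI
import Pool.Agent.H45.EG3.NPZ
import Pool.Agent.H45.EG3.HFB
import Pool.Agent.H45.EG3.T3M
import Pool.Agent.H45.EG3.EV
import Pool.Agent.H45.EG3.KOS
import Pool.Agent.H45.EG3.LN1
import Pool.Agent.H45.EG3.SGA
import Pool.Agent.H45.EG3.RT3
import Pool.Agent.H45.EG3.HZM
import Pool.Agent.H45.EG3.HSM
import Pool.Agent.H45.EG3.MOC
import Pool.Agent.H45.EG3.MOM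
import Pool.Agent.H45.EG3.PNM
import Pool.Agent.H45.EG3.TOP
import Pool.Agent.H45.EG3.CLS
import Pool.Agent.H45.EG3.CLT
import Pool.Agent.H45.EG3.EX2
import Pool.Agent.H45.EG3.JMX
import Pool.Agent.H20.EG3.LM0
import Pool.Agent.H20.EG3.LMM
import Pool.Agent.H20.EG3.RKF
import Pool.Agent.H40.EG3.SGE
import Pool.Agent.H43.EG3.ANC
import Pool.Agent.H43.EG3.EXT
import Pool.Agent.H43.EG3.KER
import Pool.Agent.H43.EG3.KRP
import Pool.Agent.H43.EG3.PEL
import Pool.Agent.H52.EG3.BAM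
import Pool.Agent.H52.EG3.EX1
import Pool.Agent.H52.EG3.LN2
import Pool.Agent.H52.EG3.SL
import Pool.Agent.H8.EG3.CHJ
import Pool.Agent.H8.EG3.CMP
import Pool.Agent.H8.EG3.CMW
import Pool.Agent.H85.EG3.CHA
import Pool.Agent.H85.EG3.FRE
import Pool.Agent.H85.EG3.PEM
import Pool.Agent.H86.EG3.LEX
import Pool.Agent.H86.EG3.LNB
import Pool.Agent.H86.EG3.LNK
import Pool.Agent.H86.EG3.SNC
import Pool.Agent.H94.EG3.CL3
import Pool.Agent.H94.EG3.FC3

/-!
# EG3: the theorem on ideals which contain a regular sequence of three forms, assembled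
-/

set_option autoImplicit false

namespace Pool.EG3

open Pool.EGH

/-- The growth theorem in three variables. -/
theorem gro_all : GROStmt := by
  have x_fin : FINStmt := t_FIN
  have x_hsb : HSBStmt := t_hsb
  have x_hga : HGAStmt := t_HGA
  have x_mon : MONStmt := t_MON
  have x_col : COLStmt := t_col x_fin
  have x_hsr : HSRStmt := t_HSR x_col x_hsb
  have x_chf : CHFStmt := t_CHF x_hsr
  have x_gpm : GPMStmt := t_gpm
  have x_gpd : GPDStmt := t_GPD x_chf x_hga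
  have z_nma : NMAStmt := t_nma
  have z_jma : JMAStmt := t_jma
  have z_jmb : JMBStmt := t_jmb
  have z_jmc : JMCStmt := t_jmc
  have z_nme : NMEStmt := t_nme
  have z_pti : PTIStmt := t_pti
  have z_lni : LNIStmt := t_lni
  have z_lmt : LMTStmt := t_lmt
  have z_npz : NPZStmt := t_npz
  have z_bpt : BPTStmt := t_bpt
  have z_pel : PELStmt := t_pel
  have z_anc : ANCStmt := t_anc
  have z_ext : EXTStmt := t_ext z_anc
  have z_sga : SGAStmt := t_sga z_pti x_gpm x_gpd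
  have z_sg0 : SG0Stmt := t_sg0 x_hsb x_fin
  have z_ini : INIStmt := t_ini x_hsb
  have z_nvp : NVPStmt := t_nvp
  have z_ev1 : EV1Stmt := t_ev1
  have z_ev2 : EV2Stmt := t_ev2
  have z_wng : WNGStmt := t_wng
  have z_ln0 : LN0Stmt := t_ln0 x_fin
  have z_ln2 : LN2Stmt := t_ln2 z_ev2 z_lni z_pti
  have z_lnk : LNKStmt := t_lnk x_fin z_ev1 z_lni
  have z_lnb : LNBStmt := t_lnb x_hsb x_hga x_col x_mon
  have z_ln1 : LN1Stmt := t_ln1 z_ln2 z_lnb z_lmt z_bpt z_ln0 x_hga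
  have z_sgb : SGBStmt := t_sgb x_col z_ln2 z_lnk z_ln0 x_hga x_mon
  have z_ker : KERStmt := t_ker z_ev1
  have z_krp : KRPStmt := t_krp z_wng z_lni
  have z_kos : KOSStmt := t_kos
  have z_ko1 : KO1Stmt := t_ko1
  have z_rkf : RKFStmt := t_rkf
  have z_sat : SATStmt := t_sat z_kos z_ko1
  have z_fre : FREStmt := t_fre z_sat z_rkf
  have z_res : RESStmt := t_res z_kos z_ko1 z_fre
  have z_lm0 : LM0Stmt := t_lm0 z_ev1 z_ev2
  have z_lmm : LMMStmt := t_lmm z_lm0 z_res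
  have z_sgc : SGCStmt := t_sgc x_fin z_pti z_lmm
  have z_hfb : HFBStmt := t_hfb x_hsb x_fin
  have z_hfz : HFZStmt := t_hfz
  have z_cha : CHAStmt := CHA.t_cha
  have z_chj : CHJStmt := t_chj x_fin x_gpm x_gpd x_mon z_cha
  have z_st2 : ST2Stmt := t_st2 z_nma z_ini z_sg0 z_sga z_nvp z_sgb z_sgc z_bpt z_ln0 z_hfz
  have z_st3 : ST3Stmt := t_st3 z_st2 z_npz z_pel z_jma z_jmb z_jmc z_nme z_ln1 x_col x_hga z_ln0
    z_ln2 z_ker z_krp z_sga z_chj z_hfb z_bpt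
  exact t_gro z_st3 z_ext

/-- The theorem of Clements and Lindström for the caps `a`, `b`, `c` and `⊤`. -/
theorem clt_all : CLTStmt := by
  have y_mom : MOMStmt := t_mom
  have y_lxo : Pool.EGC.LXOStmt := Pool.EGC.t_lxo
  have y_sge : SGEStmt := t_sge
  have y_sup : SUPStmt := t_sup
  have y_sl1 : SL1Stmt := t_sl1
  have y_sl2 : SL2Stmt := t_sl2
  have y_sl3 : SL3Stmt := t_sl3
  have y_sl4 : SL4Stmt := t_sl4
  have y_top : TOPStmt := t_top y_lxo
  have y_cmw : CMWStmt := t_cmw y_mom y_lxo y_top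
  have y_cmp : CMPStmt := t_cmp y_sge y_sup y_sl1 y_sl2 y_sl3 y_sl4 y_cmw
  have y_ex1 : EX1Stmt := t_ex1
  have y_ex2 : EX2Stmt := t_ex2
  have y_mnm : MNMStmt := t_mnm Pool.EGC.t_mni y_mom
  have y_t3m : T3MStmt := t_t3m
  have y_fc3 : FC3Stmt := t_fc3 y_mom
  have y_cl3 : CL3Stmt := t_cl3 y_mom gro_all y_t3m y_mnm y_fc3
  have y_cls : CLSStmt := t_cls y_lxo y_top y_cmp y_ex1 y_ex2
  exact t_clt y_cl3 y_cls

/-- The main theorem. -/
theorem eg3_all : MainStmt := by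
  have x_fin : FINStmt := t_FIN
  have x_hsb : HSBStmt := t_hsb
  have x_hga : HGAStmt := t_HGA
  have x_mon : MONStmt := t_MON
  have x_col : COLStmt := t_col x_fin
  have x_lsh : LSHStmt := t_lsh
  have x_lin : LINStmt := t_lin
  have x_rlf : RLFStmt := t_rlf
  have y_mom : MOMStmt := t_mom
  have y_sge : SGEStmt := t_sge
  have y_sup : SUPStmt := t_sup
  have y_fc3 : FC3Stmt := t_fc3 y_mom
  have y_hgm : HGMStmt := t_hgm
  have y_hsm : HSMStmt := t_hsm x_col x_hsb y_hgm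
  have y_pem : PEMStmt := t_pem
  have y_pnm : PNMStmt := t_pnm x_lsh x_lin y_hgm y_pem
  have y_rgm : RGMStmt := t_rgm
  have y_bam : BAMStmt := t_bam
  have y_hzm : HZMStmt := t_hzm y_hsm x_fin
  have y_moc : MOCStmt := t_moc y_mom
  have y_qhf : QHFStmt := t_qhf y_hsm y_moc
  have y_rt3 : RT3Stmt := t_rt3 y_hzm y_pnm y_pem x_rlf y_hgm
  have y_rzc : RZCStmt := t_rzc clt_all y_sge y_sup
  have y_snc : SNCStmt := t_snc
  have y_sna : SNAStmt := t_sna
  have y_hfs : Pool.EGC.HFSStmt := Pool.EGC.t_hfs x_col x_hga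
  have y_stp : STPStmt := t_stp y_rzc y_snc y_sna y_hfs x_mon y_sge
  have y_tr1 : Pool.EGC.TR1Stmt := Pool.EGC.t_tr1 x_lsh
  have y_trm : TRMStmt := t_trm
  have y_tr3 : Pool.EGC.TR3Stmt := Pool.EGC.t_tr3
  have y_bas : BASStmt := t_bas y_tr1 y_trm y_tr3 y_fc3 y_qhf y_sge y_sup gro_all y_rt3 x_mon
  have y_ind : INDStmt := t_ind y_bas y_stp y_hfs y_pnm x_rlf y_pem y_hgm
  have y_lex : LEXStmt := t_lex Pool.EGC.t_mni Pool.EGC.t_lxm Pool.EGC.t_lxo y_mom x_fin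
  exact t_main y_ind y_lex y_bam y_rgm

end Pool.EG3
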