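import Pool.Agent.H45.EG3.S3

/-!
# EG3, row CL3: the theorem of Clements and Lindström for three places
-/

set_option autoImplicit false

namespace Pool.EG3

open MvPolynomial Pool.EGH
open Pool.EGC (lx)

theorem cl3_min {c : ℕ∞} {d x : ℕ} (hx : x ≤ d + 1) :
    ((x : ℕ∞) < ((min c ((d + 2 : ℕ) : ℕ∞)).toNat : ℕ∞)) ↔ (x : ℕ∞) < c := by
  have h1 : ((min c ((d + 2 : ℕ) : ℕ∞)).toNat : ℕ∞) = min c ((d + 2 : ℕ) : ℕ∞) := by
    apply ENat.coe_toNat
    exact ne_top_of_le_ne_top (ENat.coe_ne_top _) (min_le_right _ _)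
  rw [h1, lt_min_iff]
  constructor
  · exact fun h => h.1
  · intro h
    refine ⟨h, ?_⟩
    exact_mod_cast (show x < d + 2 by omega)

/-- CL3. -/
theorem t_cl3 (hMOM : MOMStmt) (hFC3 : FC3Stmt) (hMNM : MNMStmt) (hT3M : T3MStmt)
    (hGRO : GROStmt) : CL3Stmt := by
  classical
  intro c hc d A B hA hB hcard
  obtain ⟨hmono, hc2, -⟩ := hc
  set m : Fin 3 → ℕ := fun i => (min (c i) ((d + 2 : ℕ) : ℕ∞)).toNat with hm
  have hmE : ∀ i, (m i : ℕ∞) = min (c i) ((d + 2 : ℕ) : ℕ∞) := by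
    intro i
    apply ENat.coe_toNat
    exact ne_top_of_le_ne_top (ENat.coe_ne_top _) (min_le_right _ _)
  have h2 : ∀ i, 2 ≤ m i := by
    intro i
    have h : ((2 : ℕ) : ℕ∞) ≤ (m i : ℕ∞) := by
      rw [hmE, le_min_iff]
      refine ⟨hc2 i, ?_⟩
      exact_mod_cast (show 2 ≤ d + 2 by omega)
    exact_mod_cast h
  have hmm : ∀ i j, i ≤ j → m i ≤ m j := by
    intro i j hij
    have h : (m i : ℕ∞) ≤ (m j : ℕ∞) := by
      rw [hmE, hmE]
      exact min_le_min_right _ (hmono hij)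
    exact_mod_cast h
  have hcp : ∀ i : Fin 3, cp (m 0) (m 1) (m 2) 3 i = (m i : ℕ∞) := by
    intro i
    fin_cases i <;> rfl
  have hMo : ∀ e ≤ d + 1, Mo (cp (m 0) (m 1) (m 2) 3) e = Mo c e := by
    intro e he
    ext x
    rw [(hMOM 3 _ e x).1, (hMOM 3 _ e x).1]
    refine and_congr_right fun hs => forall_congr' fun i => ?_
    rw [hcp]
    apply cl3_min
    have : x i ≤ ∑ j, x j := Finset.single_le_sum (fun j _ => Nat.zero_le _) (Finset.mem_univ i)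
    omega
  have hup : ∀ S : Finset (Fin 3 → ℕ), up (cp (m 0) (m 1) (m 2) 3) d S = up c d S := by
    intro S
    unfold up
    rw [hMo (d + 1) le_rfl]
  have hA' : A ⊆ Mo (cp (m 0) (m 1) (m 2) 3) d := by
    rw [hMo d (Nat.le_succ d)]
    exact hA
  have hB' : Sg (cp (m 0) (m 1) (m 2) 3) d B := by
    unfold Sg
    rw [hMo d (Nat.le_succ d)]
    exact hB
  obtain ⟨I, hI, h0, h1, h2', h3, h4⟩ :=
    hMNM (AlgebraicClosure ℚ) (m 0) (m 1) (m 2) d A hA'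
  have hT := hT3M (AlgebraicClosure ℚ) (m 0) (m 1) (m 2) (h2 0) (hmm 0 1 (by decide))
    (hmm 1 2 (by decide))
  have h5 := hGRO (AlgebraicClosure ℚ) (m 0) (m 1) (m 2) _ _ _ hT d I hI h0 h1 h2'
  have h6 := hFC3 (m 0) (m 1) (m 2) d (hf I (d + 1)) B (hmm 1 2 (by decide)) hB' (by omega)
    (by omega)
  rw [hup] at h4 h6
  omega

end Pool.EG3
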