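import Pool.Agent.H94.EGC.S1
import Pool.Agent.H45.EG3.S1

/-!
# EG3: vectors with caps, definitions
-/

set_option autoImplicit false

namespace Pool.EG3

open MvPolynomial Pool.EGH
open Pool.EGC (lx sl cj Gs)

/-- The vector `x` respects the caps: `x i < c i`. -/
def Cp {m : ℕ} (c : Fin m → ℕ∞) (x : Fin m → ℕ) : Prop := ∀ i, (x i : ℕ∞) < c i

open Classical in
/-- The capped vectors of degree `d`. -/
noncomputable def Mo {m : ℕ} (c : Fin m → ℕ∞) (d : ℕ) : Finset (Fin m → ℕ) :=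
  (Finset.piAntidiag Finset.univ d).filter (Cp c)

open Classical in
/-- The upper shadow. -/
noncomputable def up {m : ℕ} (c : Fin m → ℕ∞) (d : ℕ) (A : Finset (Fin m → ℕ)) :
    Finset (Fin m → ℕ) :=
  (Mo c (d + 1)).filter (fun y => ∃ x ∈ A, ∃ i, y = x + Pi.single i 1)

/-- `A` consists of the largest vectors of degree `d`. -/
def Sg {m : ℕ} (c : Fin m → ℕ∞) (d : ℕ) (A : Finset (Fin m → ℕ)) : Prop :=
  A ⊆ Mo c d ∧ ∀ x ∈ A, ∀ y ∈ Mo c d, lx x y → y ∈ A

/-- The caps increase, are at least two and infinite after the first three places. -/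
def An {m : ℕ} (c : Fin m → ℕ∞) : Prop :=
  Monotone c ∧ (∀ i, 2 ≤ c i) ∧ ∀ i : Fin m, 3 ≤ (i : ℕ) → c i = ⊤

/-- The caps `a`, `b`, `c` at the first three places. -/
def cp (a b c m : ℕ) : Fin m → ℕ∞ := fun i =>
  if (i : ℕ) = 0 then (a : ℕ∞) else if (i : ℕ) = 1 then (b : ℕ∞) else
    if (i : ℕ) = 2 then (c : ℕ∞) else ⊤

open Classical in
/-- The rank of `x`. -/
noncomputable def rk {m : ℕ} (c : Fin m → ℕ∞) (d : ℕ) (x : Fin m → ℕ) : ℕ :=
  ((Mo c d).filter (fun y => lx y x)).card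

/-- The weight of `A`. -/
noncomputable def wt {m : ℕ} (c : Fin m → ℕ∞) (d : ℕ) (A : Finset (Fin m → ℕ)) : ℕ :=
  ∑ x ∈ A, rk c d x

/-- `A` is compressed at the place `i`. -/
def Cm {m : ℕ} (c : Fin m → ℕ∞) (d : ℕ) (i : Fin m) (A : Finset (Fin m → ℕ)) : Prop :=
  ∀ x ∈ A, ∀ y ∈ Mo c d, x i = y i → lx x y → y ∈ A

/-- The theorem of Clements and Lindström for `m` places. -/
def CLm (m : ℕ) : Prop :=
  ∀ (c : Fin m → ℕ∞), An c → ∀ (d : ℕ) (A B : Finset (Fin m → ℕ)), A ⊆ Mo c d →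
    Sg c d B → B.card = A.card → (up c d B).card ≤ (up c d A).card

variable {K : Type} [Field K] {N : ℕ}

/-- The Hilbert function of `I` is the one of a lexicographic family. -/
def Rz {m : ℕ} (I : Ideal (PR K N)) (c : Fin m → ℕ∞) : Prop :=
  ∃ A : ℕ → Finset (Fin m → ℕ), (∀ d, Sg c d (A d)) ∧ (∀ d, up c d (A d) ⊆ A (d + 1)) ∧
    ∀ d, hf I d + (A d).card = (Mo c d).card

/-- `J` is generated by a regular sequence of `k` linear forms followed by forms of the degrees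
in the list `L` (last degree first). -/
inductive MC : ℕ → List ℕ → Ideal (PR K N) → Prop
  | zero : MC 0 [] ⊥
  | lin {k : ℕ} {J : Ideal (PR K N)} {l : PR K N} : MC k [] J → l ∈ fm K N 1 → Rg J l →
      MC (k + 1) [] (J ⊔ Ideal.span {l})
  | form {k : ℕ} {L : List ℕ} {J : Ideal (PR K N)} {d : ℕ} {q : PR K N} : MC k L J → 1 ≤ d →
      q ∈ fm K N d → Rg J q → MC k (d :: L) (J ⊔ Ideal.span {q})

end Pool.EG3
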