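import Pool.Agent.H45.EGH.S2

/-!
# EG3: ideals containing a regular sequence of three forms, definitions
-/

set_option autoImplicit false

namespace Pool.EG3

open MvPolynomial Pool.EGH

/-- The Hilbert function of `K[y, z] / (y ^ b, z ^ c)`, for `b ≤ c`. -/
def Nn (b c m : ℕ) : ℕ := min (m + 1) (min b (b + c - 1 - m))

/-- The size of the lower shadow of the `k` smallest monomials of degree `m`. -/
def ls (b c : ℕ) : ℕ → ℕ → ℕ
  | 0, _ => 0
  | m + 1, k =>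
    if k = 0 then 0
    else if k ≤ Nn b c (m + 1) then min (Nn b c m) (k + if c ≤ m + 1 then 1 else 0)
    else Nn b c m + ls b c m (k - Nn b c (m + 1))

/-- The number of monomials in the first `p` rows. -/
def Rr (b c m p : ℕ) : ℕ := ∑ j ∈ Finset.range p, Nn b c (m - j)

variable {K : Type} [Field K]

/-- Three forms in three variables without common zeros; the first two have no common zero on
some line. -/
structure T3 (a b c : ℕ) (f g h : PR K 3) : Prop where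
  ha : 2 ≤ a
  hab : a ≤ b
  hbc : b ≤ c
  hf : f ∈ fm K 3 a
  hg : g ∈ fm K 3 b
  hh : h ∈ fm K 3 c
  f0 : f ≠ 0
  hz : ∀ q : Fin 3 → K, q ≠ 0 → eval q f = 0 → eval q g = 0 → eval q h ≠ 0
  hl : ∃ l ∈ fm K 3 1, l ≠ 0 ∧
    ∀ q : Fin 3 → K, q ≠ 0 → eval q l = 0 → eval q f = 0 → eval q g ≠ 0

/-- A form of degree `u` which is killed modulo `J` by the linear forms vanishing at `q` is
in `J`. -/
def NPq (J : Ideal (PR K 3)) (u : ℕ) (q : Fin 3 → K) : Prop :=
  ∀ F ∈ fm K 3 u, (∀ l ∈ fm K 3 1, eval q l = 0 → l * F ∈ J) → F ∈ J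

/-- The point `q` is not a base point of the forms of degree `u` in `J`. -/
def BPq (J : Ideal (PR K 3)) (u : ℕ) (q : Fin 3 → K) : Prop :=
  ∃ F ∈ J, F ∈ fm K 3 u ∧ eval q F ≠ 0

/-- The quotient by `J` has no socle in degrees at most `t`. -/
def Lv (J : Ideal (PR K 3)) (t : ℕ) : Prop :=
  ∀ u ≤ t, ∀ F ∈ fm K 3 u, (∀ l ∈ fm K 3 1, l * F ∈ J) → F ∈ J

/-- Bound for the growth from degree `t` to degree `t + 1`. -/
def GR (a b c : ℕ) (f g h : PR K 3) (t : ℕ) : Prop :=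
  ∀ J : Ideal (PR K 3), Hg J → f ∈ J → g ∈ J → h ∈ J →
    ls b c (t + 1) (hf J (t + 1)) ≤ hf J t

/-- `J` is an extremal counterexample to the bound. -/
structure XT (b c : ℕ) (f g h : PR K 3) (t : ℕ) (J : Ideal (PR K 3)) : Prop where
  hJ : Hg J
  hfJ : f ∈ J
  hgJ : g ∈ J
  hhJ : h ∈ J
  lv : Lv J t
  bad : hf J t + 1 ≤ ls b c (t + 1) (hf J (t + 1))
  mx : ∀ J' : Ideal (PR K 3), Hg J' → f ∈ J' → g ∈ J' → h ∈ J' →
    ls b c (t + 1) (hf J' (t + 1)) + hf J t ≤ ls b c (t + 1) (hf J (t + 1)) + hf J' t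
  mn : ∀ J' : Ideal (PR K 3), Hg J' → f ∈ J' → g ∈ J' → h ∈ J' →
    hf J' (t + 1) < hf J (t + 1) →
    ls b c (t + 1) (hf J' (t + 1)) + hf J t + 1 ≤ ls b c (t + 1) (hf J (t + 1)) + hf J' t

end Pool.EG3
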