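import Pool.Agent.H45.EG3.S3

/-!
# EG3, modules MOM, RZC, STP
-/

set_option autoImplicit false

namespace Pool.EG3

open MvPolynomial Pool.EGH

theorem t_mom : MOMStmt := by
  classical
  intro m c d x
  refine ⟨?_, ?_⟩
  · unfold Mo
    rw [Finset.mem_filter, Finset.mem_piAntidiag]
    simp [Cp]
  · intro A y
    unfold up
    rw [Finset.mem_filter]

theorem t_rzc (h1 : CLTStmt) (h2 : SGEStmt) (h3 : SUPStmt) : RZCStmt := by
  intro K _ N m I c hm hc ⟨A, hA1, hA2, hA3⟩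
  obtain ⟨m, rfl⟩ : ∃ m', m = m' + 3 := ⟨m - 3, by omega⟩
  choose B hB using fun d => (h2 (m + 3) c d).1 (A d).card (Finset.card_le_card (hA1 d))
  refine ⟨B, fun d => (hB d).1, fun d => ?_, fun d => by rw [(hB d).2]; exact hA3 d⟩
  refine (h2 (m + 3) c (d + 1)).2 _ _ (h3 (m + 3) c d _ (hB d).1) (hB (d + 1)).1 ?_
  rw [(hB (d + 1)).2]
  exact (h1 m c hc d (A d) (B d) (hA1 d) (hB d).1 (hB d).2).trans
    (Finset.card_le_card (hA2 d))

theorem t_stp (hRZC : RZCStmt) (hSNC : SNCStmt) (hSNA : SNAStmt) (hHFS : Pool.EGC.HFSStmt)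
    (hMON : MONStmt) (hSGE : SGEStmt) : STPStmt := by
  intro K _ N m a b c I l hm ha hab hbc hI hl hRz
  choose A hA1 hA2 hA3 using hRz
  have hc : (Fin.snoc (cp a b c m) ⊤ : Fin (m + 1) → ℕ∞) = cp a b c (m + 1) :=
    (hSNA a b c m hm).1
  have hAn : An (cp a b c (m + 1)) := (hSNA a b c (m + 1) (by omega)).2 ha hab hbc
  obtain ⟨hF1, hF2⟩ := hHFS K N I l hI hl
  have hmono : ∀ j d, A j d ⊆ A (j + 1) d := by
    intro j d
    refine (hSGE m (cp a b c m) d).2 _ _ (hA1 j d) (hA1 (j + 1) d) ?_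
    have h1 := hA3 j d
    have h2 := hA3 (j + 1) d
    have h3 := (hMON K N _ _ d (hF1 j).2.2).1
    omega
  obtain ⟨B, hB1, hB2, hB3⟩ := (hSNC m (cp a b c m)).2 A (fun j d => (hA1 j d).1) hA2 hmono
  rw [hc] at hB1 hB2
  refine hRZC K N (m + 1) I (cp a b c (m + 1)) (by omega) hAn ⟨B, hB1, hB2, ?_⟩
  intro d
  rw [hF2 d, hB3 d, ← hc, (hSNC m (cp a b c m)).1 d, ← Finset.sum_add_distrib]
  exact Finset.sum_congr rfl fun j _ => hA3 j (d - j)

end Pool.EG3
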