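import Pool.Agent.H86.EG3.LEX
import Pool.Agent.H86.EGC.MNI
import Pool.Agent.H94.EGC.LXO
import Pool.Agent.H6.EGC.LXM
import Pool.Agent.H61.EGH.FIN
import Pool.Agent.H45.EG3.MOM

/-!
# EG3: the lexicographic ideal, for at least three variables
-/

set_option autoImplicit false

namespace Pool.EG3.L3

open MvPolynomial Pool.EGH Pool.EG3 Pool.EG3.LEX86
open Pool.EGC (lx t_mni t_lxm t_lxo)

/-- Removing the last variable. -/
theorem lx_pred {n : ℕ} (s s' : Fin n → ℕ) (i : Fin n) (hsum : ∑ k, s' k = ∑ k, s k + 1)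
    (h : s' = s + Pi.single i 1 ∨ lx (s + Pi.single i 1) s') :
    ∃ (p : Fin n) (t' : Fin n → ℕ), s' = t' + Pi.single p 1 ∧ (t' = s ∨ lx s t') := by
  classical
  -- the last nonzero place
  have hne : (Finset.univ.filter (fun k => s' k ≠ 0)).Nonempty := by
    by_contra hcon
    rw [Finset.not_nonempty_iff_eq_empty, Finset.filter_eq_empty_iff] at hcon
    have : ∑ k, s' k = 0 := Finset.sum_eq_zero fun k _ => by
      have := hcon (Finset.mem_univ k)
      push Not at this
      exact this
    omega
  obtain ⟨p, hp, hpmax⟩ := Finset.exists_max_image (Finset.univ.filter (fun k => s' k ≠ 0))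
    (fun k : Fin n => (k : ℕ)) hne
  rw [Finset.mem_filter] at hp
  have hp0 : s' p ≠ 0 := hp.2
  have hz : ∀ k, p < k → s' k = 0 := by
    intro k hk
    by_contra h0
    have := hpmax k (Finset.mem_filter.2 ⟨Finset.mem_univ _, h0⟩)
    exact absurd (Fin.lt_def.1 hk) (not_lt.2 this)
  set t' : Fin n → ℕ := Function.update s' p (s' p - 1) with ht
  have htp : t' p = s' p - 1 := by rw [ht, Function.update_self]
  have hto : ∀ k, k ≠ p → t' k = s' k := by
    intro k hk
    rw [ht, Function.update_of_ne hk]
  have hst : s' = t' + Pi.single p 1 := by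
    funext k
    by_cases hk : k = p
    · subst hk
      rw [Pi.add_apply, Pi.single_eq_same, htp]
      omega
    · rw [Pi.add_apply, Pi.single_eq_of_ne hk, hto k hk, add_zero]
  refine ⟨p, t', hst, ?_⟩
  have hsum' : ∑ k, t' k = ∑ k, s k := by
    have h1 : ∑ k, s' k = ∑ k, t' k + 1 := by
      conv_lhs => rw [hst]
      simp only [Pi.add_apply]
      rw [Finset.sum_add_distrib, Finset.sum_pi_single', if_pos (Finset.mem_univ _)]
    omega
  by_contra hcon
  push Not at hcon
  obtain ⟨hc1, hc2⟩ := hcon
  obtain ⟨j0, hj0, hlt⟩ : lx t' s := by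
    rcases (t_lxo n t' s s).2.2.1 with h1 | h1 | h1
    · exact h1
    · exact absurd h1 hc1
    · exact absurd h1 hc2
  have hge : ∀ k, s k ≤ (s + Pi.single i 1 : Fin n → ℕ) k := fun k => by
    rw [Pi.add_apply]; omega
  rcases h with h | h
  · -- `s' = s + e_i`
    have hip : i ≤ p := by
      by_contra hlt2
      have h1 := hz i (not_le.1 hlt2)
      rw [h, Pi.add_apply, Pi.single_eq_same] at h1
      omega
    have hj0p : j0 = p := by
      by_contra hne2
      rw [hto j0 hne2, h] at hlt
      have := hge j0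
      omega
    have hi : i ≠ p := by
      rintro rfl
      rw [hj0p, htp, h, Pi.add_apply, Pi.single_eq_same] at hlt
      omega
    have h2 := hj0 i (by rw [hj0p]; exact lt_of_le_of_ne hip hi)
    rw [hto i hi, h, Pi.add_apply, Pi.single_eq_same] at h2
    omega
  · obtain ⟨j, hj, hjlt⟩ := h
    have hjp : j ≤ p := by
      by_contra hlt2
      have h1 := hz j (not_le.1 hlt2)
      omega
    rcases lt_trichotomy j0 j with h1 | h1 | h1
    · have h2 : j0 ≠ p := (lt_of_lt_of_le h1 hjp).ne
      rw [hto j0 h2, ← hj j0 h1] at hlt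
      have := hge j0
      omega
    · subst h1
      have h3 := hge j0
      by_cases h2 : j0 = p
      · subst h2
        omega
      · rw [hto j0 h2] at hlt
        omega
    · have h3 := hj0 j h1
      have h4 := hge j
      by_cases h2 : j = p
      · subst h2
        have h5 : ∑ k, t' k < ∑ k, s k := by
          refine Finset.sum_lt_sum (fun k _ => ?_) ⟨j0, Finset.mem_univ _, hlt⟩
          rcases lt_or_ge k j0 with h6 | h6
          · exact (hj0 k h6).le
          · have h7 : j < k := lt_of_lt_of_le h1 h6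
            rw [hto k h7.ne', hz k h7]
            omega
        omega
      · rw [hto j h2] at h3
        omega

/-- The exponents above the segments. -/
def upS {n : ℕ} (A : ℕ → Finset (Fin n → ℕ)) : Set (Fin n →₀ ℕ) :=
  {s | ∃ t ∈ lexS A, t ≤ s}

theorem upS_up {n : ℕ} {A : ℕ → Finset (Fin n → ℕ)} {s t : Fin n →₀ ℕ} (hs : s ∈ upS A)
    (hst : s ≤ t) : t ∈ upS A := by
  obtain ⟨u, hu, hus⟩ := hs
  exact ⟨u, hu, hus.trans hst⟩

theorem exists_lt {n : ℕ} {s t : Fin n →₀ ℕ} (h : t ≤ s) (hne : t ≠ s) : ∃ i, t i < s i := by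
  by_contra hcon
  push Not at hcon
  exact hne (le_antisymm h hcon)

theorem deg_lt {n : ℕ} {s t : Fin n →₀ ℕ} (h : t ≤ s) (hne : t ≠ s) : t.degree < s.degree := by
  obtain ⟨i, hi⟩ := exists_lt h hne
  rw [Finsupp.degree_eq_sum, Finsupp.degree_eq_sum]
  exact Finset.sum_lt_sum (fun k _ => h k) ⟨i, Finset.mem_univ _, hi⟩

/-- Vectors with caps above the segments are in the segments. -/
theorem upS_cap {n : ℕ} {c : Fin n → ℕ∞} {A : ℕ → Finset (Fin n → ℕ)}
    (h1 : ∀ d, Sg c d (A d)) (h2 : ∀ d, up c d (A d) ⊆ A (d + 1)) {s : Fin n →₀ ℕ}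
    (hs : s ∈ upS A) (hc : Cp c (fun i => s i)) : (fun i => s i) ∈ A s.degree := by
  classical
  obtain ⟨t, ht, hts⟩ := hs
  obtain ⟨D, hD⟩ : ∃ D, D = s.degree - t.degree := ⟨_, rfl⟩
  have hmo : ∀ u : Fin n →₀ ℕ, u ≤ s → (fun i => u i) ∈ Mo c u.degree := by
    intro u hu
    rw [(t_mom n c u.degree _).1]
    refine ⟨by rw [Finsupp.degree_eq_sum], fun i => lt_of_le_of_lt ?_ (hc i)⟩
    exact_mod_cast hu i
  have htA : (fun i => t i) ∈ A t.degree := by
    obtain ⟨x, hx, hxt⟩ := ht
    rcases hxt with h | h
    · rw [← h]; exact hx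
    · exact (h1 t.degree).2 x hx _ (hmo t hts) h
  clear ht
  induction D generalizing t with
  | zero =>
    have : t = s := by
      by_contra hne
      have := deg_lt hts hne
      omega
    rw [← this]
    exact htA
  | succ D ih =>
    have hne : t ≠ s := by
      rintro rfl
      omega
    obtain ⟨i, hi⟩ := exists_lt hts hne
    have hle : t + Finsupp.single i 1 ≤ s := by
      intro k
      rw [Finsupp.add_apply]
      by_cases hk : k = i
      · subst hk
        rw [Finsupp.single_eq_same]
        omega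
      · rw [Finsupp.single_eq_of_ne hk]
        exact hts k
    have hdeg : (t + Finsupp.single i 1).degree = t.degree + 1 := by
      rw [map_add, Finsupp.degree_single]
    refine ih (t + Finsupp.single i 1) hle (by rw [hdeg]; omega) ?_
    have e1 : (fun j => (t + Finsupp.single i 1 : Fin n →₀ ℕ) j) =
        (fun j => t j) + Pi.single i 1 := by
      funext j
      rw [Finsupp.add_apply, Pi.add_apply, Finsupp.single_eq_pi_single]
    rw [hdeg]
    apply h2
    rw [(t_mom n c t.degree (fun j => t j)).2]
    refine ⟨?_, _, htA, i, e1⟩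
    have := hmo _ hle
    rwa [hdeg] at this

/-- The set above the segments is lexicographic. -/
theorem upS_lx {n : ℕ} {A : ℕ → Finset (Fin n → ℕ)} {s s' : Fin n →₀ ℕ}
    (hs : s ∈ upS A) (hdeg : s'.degree = s.degree) (h : s' = s ∨ lx (fun i => s i) (fun i => s' i)) :
    s' ∈ upS A := by
  classical
  obtain ⟨t, ht, hts⟩ := hs
  obtain ⟨D, hD⟩ : ∃ D, D = s.degree - t.degree := ⟨_, rfl⟩
  induction D generalizing s s' with
  | zero =>
    have : t = s := by
      by_contra hne
      have := deg_lt hts hne
      omega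
    subst this
    refine ⟨s', ?_, le_rfl⟩
    obtain ⟨x, hx, hxt⟩ := ht
    refine ⟨x, by rw [hdeg]; exact hx, ?_⟩
    rcases h with h | h
    · rw [h]
      exact hxt
    · right
      rcases hxt with h3 | h3
      · rw [h3]
        exact h
      · exact (t_lxo n x (fun i => t i) (fun i => s' i)).2.1 h3 h
  | succ D ih =>
    have hne : t ≠ s := by
      rintro rfl
      omega
    obtain ⟨i, hi⟩ := exists_lt hts hne
    obtain ⟨s0, hs0⟩ : ∃ s0 : Fin n →₀ ℕ, s = s0 + Finsupp.single i 1 := by
      refine ⟨s - Finsupp.single i 1, ?_⟩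
      rw [tsub_add_cancel_of_le]
      exact Finsupp.single_le_iff.2 (by omega)
    have hts0 : t ≤ s0 := by
      intro k
      have h3 := hts k
      rw [hs0, Finsupp.add_apply] at h3
      by_cases hk : k = i
      · subst hk
        rw [hs0, Finsupp.add_apply, Finsupp.single_eq_same] at hi
        omega
      · rw [Finsupp.single_eq_of_ne hk] at h3
        exact h3
    have hd0 : s.degree = s0.degree + 1 := by
      rw [hs0, map_add, Finsupp.degree_single]
    have e1 : (fun j => s j) = (fun j => s0 j) + Pi.single i 1 := by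
      funext j
      rw [hs0, Finsupp.add_apply, Pi.add_apply, Finsupp.single_eq_pi_single]
    obtain ⟨p, t', h4, h5⟩ := lx_pred (fun j => s0 j) (fun j => s' j) i (by
      have h6 := hdeg
      rw [hd0, Finsupp.degree_eq_sum, Finsupp.degree_eq_sum] at h6
      exact h6) (by
      rcases h with h | h
      · left
        rw [h]
        exact e1
      · right
        rw [← e1]
        exact h)
    have h6 : s' = Finsupp.equivFunOnFinite.symm t' + Finsupp.single p 1 := by
      ext k
      have h7 := congrFun h4 k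
      rw [Finsupp.add_apply, ← Finsupp.single_eq_pi_single] at *
      simpa using h7
    have h8 : Finsupp.equivFunOnFinite.symm t' ∈ upS A := by
      refine ih (s := s0) (s' := Finsupp.equivFunOnFinite.symm t') ?_ ?_ hts0 (by omega)
      · have h9 : s'.degree = (Finsupp.equivFunOnFinite.symm t').degree + 1 := by
          rw [h6, map_add, Finsupp.degree_single]
        omega
      · rcases h5 with h5 | h5
        · left
          ext k
          exact congrFun h5 k
        · right
          exact h5
    refine upS_up h8 ?_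
    rw [h6]
    exact le_self_add

/-- The sum of the ideals is a monomial ideal. -/
theorem lex_sup3 {K : Type} [Field K] {n : ℕ} (hr : 3 ≤ n) (a : Fin 3 → ℕ)
    (S : Set (Fin n →₀ ℕ)) :
    Ideal.span (Set.range fun i : Fin 3 => (X (Fin.castLE hr i) : PR K n) ^ a i) ⊔
      Ideal.span ((fun s => monomial s (1 : K)) '' S) =
    Ideal.span ((fun s => monomial s (1 : K)) '' (vio n (a 0) (a 1) (a 2) ∪ S)) := by
  classical
  have hcp : ∀ i : Fin 3, cp (a 0) (a 1) (a 2) n (Fin.castLE hr i) = a i := by
    intro i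
    fin_cases i <;> simp [cp]
  apply le_antisymm
  · refine sup_le ?_ (Ideal.span_mono (Set.image_mono Set.subset_union_right))
    rw [Ideal.span_le]
    rintro _ ⟨i, rfl⟩
    refine Ideal.subset_span ⟨Finsupp.single (Fin.castLE hr i) (a i), Or.inl ?_, ?_⟩
    · intro h
      have h1 := h (Fin.castLE hr i)
      rw [hcp] at h1
      simp at h1
    · show monomial (Finsupp.single (Fin.castLE hr i) (a i)) (1 : K) =
        (X (Fin.castLE hr i) : PR K n) ^ a i
      rw [X_pow_eq_monomial]
  · rw [Ideal.span_le]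
    rintro _ ⟨s, hs | hs, rfl⟩
    · have hs' : ¬ Cp (cp (a 0) (a 1) (a 2) n) (fun i => s i) := hs
      unfold Cp at hs'
      push Not at hs'
      obtain ⟨i, hi⟩ := hs'
      have hi3 : (i : ℕ) < 3 := by
        by_contra hcon
        have : cp (a 0) (a 1) (a 2) n i = ⊤ := by
          simp only [cp]
          rw [if_neg (by omega), if_neg (by omega), if_neg (by omega)]
        rw [this, top_le_iff] at hi
        exact ENat.natCast_ne_top _ hi
      have e1 : (Fin.castLE hr ⟨i, hi3⟩ : Fin n) = i := rfl
      have h2 : a ⟨i, hi3⟩ ≤ s i := by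
        have := hcp ⟨i, hi3⟩
        rw [e1] at this
        rw [this] at hi
        exact_mod_cast hi
      refine Ideal.mem_sup_left ?_
      have h3 : monomial s (1 : K) = monomial (s - Finsupp.single i (a ⟨i, hi3⟩)) (1 : K) *
          (X (Fin.castLE hr ⟨i, hi3⟩) : PR K n) ^ a ⟨i, hi3⟩ := by
        rw [X_pow_eq_monomial, monomial_mul, one_mul]
        congr 1
        rw [e1, tsub_add_cancel_of_le]
        exact Finsupp.single_le_iff.2 h2
      show monomial s (1 : K) ∈ _
      rw [h3]
      exact Ideal.mul_mem_left _ _ (Ideal.subset_span ⟨⟨i, hi3⟩, rfl⟩)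
    · exact Ideal.mem_sup_right (Ideal.subset_span ⟨s, hs, rfl⟩)

/-- The conclusion of the theorem, for at least three variables. -/
theorem lex3 {K : Type} [Field K] {n : ℕ} (hr : 3 ≤ n) (a : Fin 3 → ℕ) (I : Ideal (PR K n))
    (hRz : Rz I (cp (a 0) (a 1) (a 2) n)) :
    ∃ J : Ideal (MvPolynomial (Fin n) K),
      (∀ p ∈ J, ∀ s ∈ p.support, MvPolynomial.monomial s (1 : K) ∈ J) ∧
      (∀ s t : Fin n →₀ ℕ, s.degree = t.degree →
          MvPolynomial.monomial s (1 : K) ∈ J →
          (MonomialOrder.lex : MonomialOrder (Fin n)).toSyn s ≤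
            (MonomialOrder.lex : MonomialOrder (Fin n)).toSyn t →
          MvPolynomial.monomial t (1 : K) ∈ J) ∧
      ∀ d : ℕ,
        Module.finrank K
          ↥(MvPolynomial.homogeneousSubmodule (Fin n) K d ⊓ Submodule.restrictScalars K I) =
        Module.finrank K
          ↥(MvPolynomial.homogeneousSubmodule (Fin n) K d ⊓
              Submodule.restrictScalars K
                (Ideal.span (Set.range fun i : Fin 3 => MvPolynomial.X (Fin.castLE hr i) ^ a i)
                  ⊔ J)) := by
  classical
  obtain ⟨A, h1, h2, h3⟩ := hRz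
  have hup : ∀ s ∈ upS A, ∀ t, s ≤ t → t ∈ upS A := fun s hs t hst => upS_up hs hst
  have hmem : ∀ s : Fin n →₀ ℕ, monomial s (1 : K) ∈
      Ideal.span ((fun s => monomial s (1 : K)) '' upS A) ↔ s ∈ upS A := by
    intro s
    refine ⟨fun h => ((t_mni K n 0 (upS A) hup).1 _).1 h s ?_,
      fun h => Ideal.subset_span ⟨s, h, rfl⟩⟩
    rw [mem_support_iff, coeff_monomial, if_pos rfl]
    exact one_ne_zero
  refine ⟨Ideal.span ((fun s => monomial s (1 : K)) '' upS A), fun p hp s hs =>
    (hmem s).2 (((t_mni K n 0 (upS A) hup).1 p).1 hp s hs), fun s t hst hs hle => ?_,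
    fun d => ?_⟩
  · rw [hmem] at hs ⊢
    refine upS_lx hs hst.symm ?_
    rcases (t_lxm n s t).1 hle with h4 | h4
    · exact Or.inl h4.symm
    · exact Or.inr h4
  · rw [lex_sup3 hr]
    have hup' : ∀ s ∈ vio n (a 0) (a 1) (a 2) ∪ upS A, ∀ t, s ≤ t →
        t ∈ vio n (a 0) (a 1) (a 2) ∪ upS A := by
      rintro s (hs | hs) t hst
      · exact Or.inl (vio_up hs hst)
      · exact Or.inr (hup s hs t hst)
    have key := hfm t_mni (K := K) (cp (a 0) (a 1) (a 2) n) d _ hup' (A d) (h1 d).1 (by
      intro s hs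
      constructor
      · rintro (h | h)
        · exact Or.inl h
        · by_cases h5 : Cp (cp (a 0) (a 1) (a 2) n) (fun i => s i)
          · right
            rw [← hs]
            exact upS_cap h1 h2 h h5
          · exact Or.inl h5
      · rintro (h | h)
        · exact Or.inl h
        · exact Or.inr ⟨s, ⟨_, by rw [hs]; exact h, Or.inl rfl⟩, le_rfl⟩)
    have h6 := h3 d
    exact (hf_inj t_FIN _ _ d (by omega)).symm

end Pool.EG3.L3
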