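import Pool.Agent.H45.EG3.All
import Pool.Agent.H45.EG3.LEX3

/-!
# EG3: the theorem for at least three variables
-/

set_option autoImplicit false

namespace Pool.EG3

open Pool.EGH

/-- The induction of Caviglia and Maclagan, over algebraically closed fields. -/
theorem ind_all : INDStmt := by
  have x_fin : FINStmt := t_FIN
  have x_hsb : HSBStmt := t_hsb
  have x_hga : HGAStmt := t_HGA
  have x_mon : MONStmt := t_MON
  have x_col : COLStmt := t_col x_fin
  have x_lsh : LSHStmt := t_lsh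
  have x_lin : LINStmt := t_lin
  have x_rlf : RLFStmt := t_rlf
  have y_mom : MOMStmt := t_mom
  have y_sge : SGEStmt := t_sge
  have y_sup : SUPStmt := t_sup
  have y_fc3 : FC3Stmt := t_fc3 y_mom
  have y_hgm : HGMStmt := t_hgm
  have y_hsm : HSMStmt := t_hsm x_col x_hsb y_hgm
  have y_pem : PEMStmt := t_pem
  have y_pnm : PNMStmt := t_pnm x_lsh x_lin y_hgm y_pem
  have y_hzm : HZMStmt := t_hzm y_hsm x_fin
  have y_moc : MOCStmt := t_moc y_mom
  have y_qhf : QHFStmt := t_qhf y_hsm y_moc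
  have y_rt3 : RT3Stmt := t_rt3 y_hzm y_pnm y_pem x_rlf y_hgm
  have y_rzc : RZCStmt := t_rzc clt_all y_sge y_sup
  have y_snc : SNCStmt := t_snc
  have y_sna : SNAStmt := t_sna
  have y_hfs : Pool.EGC.HFSStmt := Pool.EGC.t_hfs x_col x_hga
  have y_stp : STPStmt := t_stp y_rzc y_snc y_sna y_hfs x_mon y_sge
  have y_tr1 : Pool.EGC.TR1Stmt := Pool.EGC.t_tr1 x_lsh
  have y_trm : TRMStmt := t_trm
  have y_tr3 : Pool.EGC.TR3Stmt := Pool.EGC.t_tr3
  have y_bas : BASStmt := t_bas y_tr1 y_trm y_tr3 y_fc3 y_qhf y_sge y_sup gro_all y_rt3 x_mon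
  exact t_ind y_bas y_stp y_hfs y_pnm x_rlf y_pem y_hgm

/-- **Theorem.** The conjecture of Eisenbud, Green and Harris for regular sequences of three forms
in at least three variables. -/
theorem main3 (K : Type) [Field K] (n : ℕ) (hr : 3 ≤ n)
    (I : Ideal (MvPolynomial (Fin n) K)) (f : Fin 3 → MvPolynomial (Fin n) K) (a : Fin 3 → ℕ)
    (hI : ∀ p ∈ I, ∀ d : ℕ, MvPolynomial.homogeneousComponent d p ∈ I)
    (hmono : Monotone a) (ha2 : ∀ i, 2 ≤ a i) (hfa : ∀ i, (f i).IsHomogeneous (a i))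
    (hfI : ∀ i, f i ∈ I)
    (hreg : RingTheory.Sequence.IsRegular (MvPolynomial (Fin n) K) (List.ofFn f)) :
    ∃ J : Ideal (MvPolynomial (Fin n) K),
      (∀ p ∈ J, ∀ s ∈ p.support, MvPolynomial.monomial s (1 : K) ∈ J) ∧
      (∀ s t : Fin n →₀ ℕ, s.degree = t.degree →
          MvPolynomial.monomial s (1 : K) ∈ J →
          (MonomialOrder.lex : MonomialOrder (Fin n)).toSyn s ≤
            (MonomialOrder.lex : MonomialOrder (Fin n)).toSyn t →
          MvPolynomial.monomial t (1 : K) ∈ J) ∧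
      ∀ d : ℕ,
        Module.finrank K
          ↥(MvPolynomial.homogeneousSubmodule (Fin n) K d ⊓ Submodule.restrictScalars K I) =
        Module.finrank K
          ↥(MvPolynomial.homogeneousSubmodule (Fin n) K d ⊓
              Submodule.restrictScalars K
                (Ideal.span (Set.range fun i : Fin 3 => MvPolynomial.X (Fin.castLE hr i) ^ a i)
                  ⊔ J)) := by
  have hlist : List.ofFn f = [f 0, f 1, f 2] := by
    simp [List.ofFn_succ]
  have hF : List.Forall₂ (fun (g : MvPolynomial (Fin n) K) (d : ℕ) => g.IsHomogeneous d ∧ g ∈ I)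
      (List.ofFn f) [a 0, a 1, a 2] := by
    rw [hlist]
    exact List.Forall₂.cons ⟨hfa 0, hfI 0⟩ (List.Forall₂.cons ⟨hfa 1, hfI 1⟩
      (List.Forall₂.cons ⟨hfa 2, hfI 2⟩ List.Forall₂.nil))
  obtain ⟨I', rs', hHg', h', hreg', hhf⟩ :=
    t_bam K n I (List.ofFn f) [a 0, a 1, a 2] hI hF hreg.toIsWeaklyRegular
  have h'' : List.Forall₂ (fun (g : PR (AlgebraicClosure K) n) (d : ℕ) =>
      1 ≤ d ∧ g.IsHomogeneous d) rs' [a 0, a 1, a 2] := by
    rcases rs' with _ | ⟨g0, _ | ⟨g1, _ | ⟨g2, _ | ⟨g3, rs⟩⟩⟩⟩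
    · simp at h'
    · simp at h'
    · simp at h'
    · simp only [List.forall₂_cons, List.Forall₂.nil, and_true] at h' ⊢
      exact ⟨⟨by have := ha2 0; omega, h'.1.1⟩, ⟨by have := ha2 1; omega, h'.2.1.1⟩,
        ⟨by have := ha2 2; omega, h'.2.2.1⟩⟩
    · simp at h'
  have hM := t_rgm (AlgebraicClosure K) n rs' [a 0, a 1, a 2] h'' hreg'
  have hle : Ideal.ofList rs' ≤ I' := by
    unfold Ideal.ofList
    rw [Ideal.span_le]
    intro g hg
    rcases rs' with _ | ⟨g0, _ | ⟨g1, _ | ⟨g2, _ | ⟨g3, rs⟩⟩⟩⟩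
    · simp at h'
    · simp at h'
    · simp at h'
    · simp only [List.forall₂_cons, List.Forall₂.nil, and_true] at h'
      simp only [List.mem_cons, List.not_mem_nil, or_false, Set.mem_setOf_eq] at hg
      rcases hg with rfl | rfl | rfl
      · exact h'.1.2
      · exact h'.2.1.2
      · exact h'.2.2.2
    · simp at h'
  obtain ⟨A, hA1, hA2, hA3⟩ := ind_all (AlgebraicClosure K) n 0 n (a 0) (a 1) (a 2)
    (Ideal.ofList rs') I' (zero_add n) hr (ha2 0) (hmono (by decide)) (hmono (by decide))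
    hM hle hHg'
  exact L3.lex3 hr a I ⟨A, hA1, hA2, fun d => by rw [← hhf]; exact hA3 d⟩

end Pool.EG3
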